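import Pool.Agent.N165.CU.B2
import Pool.Agent.R852.PP.Div

set_option autoImplicit false
set_option linter.unusedSectionVars false

/-! # The functional equation of `g(x) + ∑ u_k v_k` -/

namespace Pool.Agent.K6.H42.SE

open MvPolynomial Pool.Agent.W427.SMC Pool.Agent.H628R4.TP Pool.Agent.N165.CU
open Pool.Agent.W574.RO (Fr fr_weyl fr_mul fr_add)
open Pool.Agent.R852.PP (fr_sum fr_pol)

/-- left multiplication by an operator -/
lemma good_lmul {τ : Type} {Q : Module.End ℂ (MvPolynomial τ ℂ)} (hQ : Q ∈ weylS τ)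
    {L : ℕ → Module.End ℂ (MvPolynomial τ ℂ)} (hL : Good L) : Good fun s => Q * L s := by
  obtain ⟨P, hP⟩ := hL
  refine ⟨P.mapRange (fun R => (⟨Q, hQ⟩ : weylS τ) * R) (mul_zero _), fun s => ?_⟩
  rw [Finsupp.sum_mapRange_index (by simp)]
  show Q * L s = _
  rw [hP s, Finsupp.sum, Finset.mul_sum]
  refine Finset.sum_congr rfl fun m _ => ?_
  rw [mul_smul_comm]
  rfl

lemma good_sub {τ : Type} {L M : ℕ → Module.End ℂ (MvPolynomial τ ℂ)} (hL : Good L)
    (hM : Good M) : Good fun s => L s - M s := by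
  have h := good_add hL (good_smul (-1) hM)
  refine (congrArg Good (funext fun s => ?_)).mp h
  have e : (-1 : ℂ) • M s = -M s := LinearMap.ext fun x => by
    rw [LinearMap.smul_apply, LinearMap.neg_apply, neg_smul, one_smul]
  rw [e, sub_eq_add_neg]

/-- a functional equation with the root `-1` holds for `s = -1` -/
lemma at_minus_one {σ : Type} (f : MvPolynomial σ ℂ) (hf : f ≠ 0) (b : Polynomial ℂ)
    (hb1 : b.eval (-1) = 0) (P : ℕ →₀ weylS σ) (hP : ∀ s : ℕ, C (b.eval (s : ℂ)) * f ^ s =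
      P.sum fun m Q => ((s : ℂ) ^ m) • (Q : Module.End ℂ (MvPolynomial σ ℂ)) (f ^ (s + 1))) :
    ∑ m ∈ P.support, ((-1 : ℂ) ^ m) • (P m : Module.End ℂ (MvPolynomial σ ℂ)) 1 = 0 := by
  classical
  have hfr : Fr f fun N => f * (∑ m ∈ P.support, (((Polynomial.X - 1) ^ m : Polynomial ℂ).eval
      (N : ℂ)) • (P m : Module.End ℂ (MvPolynomial σ ℂ)) (f ^ N)) +
      (-b.comp (Polynomial.X - 1) : Polynomial ℂ).eval (N : ℂ) • f ^ N := by
    refine fr_add (fr_mul (fr_sum _ _ _ fun m _ => fr_pol (fr_weyl _ (P m).2 _ ?_) _) _)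
      (fr_pol ?_ _)
    · exact ⟨0, 1, fun N => by simp⟩
    · exact ⟨0, 1, fun N => by simp⟩
  obtain ⟨M, ρ, e⟩ := hfr
  beta_reduce at e
  have hρ : ρ = 0 := by
    refine Polynomial.eq_zero_of_infinite_isRoot ρ ?_
    have hinj : Function.Injective (fun n : ℕ => ((n + 1 : ℕ) : MvPolynomial σ ℂ)) := by
      intro n n' h
      have h1 : n + 1 = n' + 1 := Nat.cast_injective (R := MvPolynomial σ ℂ) h
      omega
    refine (Set.infinite_range_of_injective hinj).mono ?_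
    rintro _ ⟨n, rfl⟩
    have h1 := e (n + 1)
    have h2 : f * (∑ m ∈ P.support, (((Polynomial.X - 1) ^ m : Polynomial ℂ).eval
      ((n + 1 : ℕ) : ℂ)) • (P m : Module.End ℂ (MvPolynomial σ ℂ)) (f ^ (n + 1))) +
      (-b.comp (Polynomial.X - 1) : Polynomial ℂ).eval ((n + 1 : ℕ) : ℂ) • f ^ (n + 1) = 0 := by
      have h3 : ∑ m ∈ P.support, (((Polynomial.X - 1) ^ m : Polynomial ℂ).eval
          ((n + 1 : ℕ) : ℂ)) • (P m : Module.End ℂ (MvPolynomial σ ℂ)) (f ^ (n + 1)) =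
          C (b.eval (n : ℂ)) * f ^ n := by
        rw [hP n, Finsupp.sum]
        refine Finset.sum_congr rfl fun m _ => ?_
        congr 1
        rw [Polynomial.eval_pow, Polynomial.eval_sub, Polynomial.eval_X, Polynomial.eval_one]
        push_cast
        ring
      rw [h3, Polynomial.eval_neg, Polynomial.eval_comp, Polynomial.eval_sub, Polynomial.eval_X,
        Polynomial.eval_one, neg_smul, ← C_mul', pow_succ]
      push_cast
      rw [add_sub_cancel_right]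
      ring
    rw [h2, mul_zero] at h1
    exact (mul_eq_zero.1 h1.symm).resolve_right (pow_ne_zero _ hf)
  have h1 := e 0
  rw [hρ, Polynomial.eval_zero, zero_mul] at h1
  have h2 := (mul_eq_zero.1 h1).resolve_left (pow_ne_zero _ hf)
  rw [Polynomial.eval_neg, Polynomial.eval_comp, Polynomial.eval_sub, Polynomial.eval_X,
    Polynomial.eval_one, Nat.cast_zero, zero_sub, hb1, neg_zero, zero_smul, add_zero] at h2
  have h3 := (mul_eq_zero.1 h2).resolve_left hf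
  refine Eq.trans (Finset.sum_congr rfl fun m _ => ?_) h3
  rw [Polynomial.eval_pow, Polynomial.eval_sub, Polynomial.eval_X, Polynomial.eval_one, zero_sub,
    pow_zero]

section main

variable {σ κ : Type} [Fintype κ]

/-- polynomials in `x` -/
noncomputable abbrev ey (κ : Type) (p : MvPolynomial σ ℂ) : MvPolynomial (σ ⊕ (κ ⊕ κ)) ℂ :=
  rename Sum.inl p

/-- `∑ u_k v_k` -/
noncomputable def wq (σ κ : Type) [Fintype κ] : MvPolynomial (σ ⊕ (κ ⊕ κ)) ℂ :=
  ∑ k, X (Sum.inr (Sum.inl k)) * X (Sum.inr (Sum.inr k))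

lemma quad_eq' (f : MvPolynomial σ ℂ) : quad f κ = ey κ f + wq σ κ := rfl

/-- `∑ u_k d/du_k` -/
noncomputable def eu (σ κ : Type) [Fintype κ] : Module.End ℂ (MvPolynomial (σ ⊕ (κ ⊕ κ)) ℂ) :=
  ∑ k, LinearMap.mulLeft ℂ (X (Sum.inr (Sum.inl k)) : MvPolynomial (σ ⊕ (κ ⊕ κ)) ℂ) *
    pd (Sum.inr (Sum.inl k))

lemma eu_mem : eu σ κ ∈ weylS (σ ⊕ (κ ⊕ κ)) :=
  Subalgebra.sum_mem _ fun _ _ => Subalgebra.mul_mem _ (ml_mem _) (pd_mem _)

lemma eu_apply (q : MvPolynomial (σ ⊕ (κ ⊕ κ)) ℂ) :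
    eu σ κ q = ∑ k, X (Sum.inr (Sum.inl k)) * pderiv (Sum.inr (Sum.inl k)) q := by
  unfold eu
  rw [LinearMap.sum_apply]
  rfl

/-- `∑ d/du_k d/dv_k` -/
noncomputable def lq (σ κ : Type) [Fintype κ] : Module.End ℂ (MvPolynomial (σ ⊕ (κ ⊕ κ)) ℂ) :=
  ∑ k, pd (Sum.inr (Sum.inl k)) * pd (Sum.inr (Sum.inr k))

lemma lq_mem : lq σ κ ∈ weylS (σ ⊕ (κ ⊕ κ)) :=
  Subalgebra.sum_mem _ fun _ _ => Subalgebra.mul_mem _ (pd_mem _) (pd_mem _)

lemma lq_apply (q : MvPolynomial (σ ⊕ (κ ⊕ κ)) ℂ) :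
    lq σ κ q = ∑ k, pderiv (Sum.inr (Sum.inl k)) (pderiv (Sum.inr (Sum.inr k)) q) := by
  unfold lq
  rw [LinearMap.sum_apply]
  rfl

/-- operators in `x` extend -/
lemma ext_q (Q : Module.End ℂ (MvPolynomial σ ℂ)) (hQ : Q ∈ weylS σ) :
    ∃ R : weylS (σ ⊕ (κ ⊕ κ)), ∀ (p : MvPolynomial σ ℂ)
      (q : MvPolynomial (σ ⊕ (κ ⊕ κ)) ℂ), (∀ i : σ, pderiv (Sum.inl i) q = 0) →
      (R : Module.End ℂ (MvPolynomial (σ ⊕ (κ ⊕ κ)) ℂ)) (ey κ p * q) = ey κ (Q p) * q := by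
  have hinj : Function.Injective fun i : σ => (Sum.inl i : σ ⊕ (κ ⊕ κ)) := Sum.inl_injective
  unfold weylS at hQ
  induction hQ using Algebra.adjoin_induction with
  | mem Q h =>
    rcases h with ⟨i, rfl⟩ | ⟨i, rfl⟩
    · refine ⟨⟨_, ml_mem (Sum.inl i)⟩, fun p q _ => ?_⟩
      change X (Sum.inl i) * (ey κ p * q) = ey κ (X i * p) * q
      unfold ey
      rw [map_mul, rename_X, mul_assoc]
    · refine ⟨⟨_, pd_mem (Sum.inl i)⟩, fun p q hq => ?_⟩
      change pderiv (Sum.inl i) (ey κ p * q) = ey κ (pderiv i p) * q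
      rw [Derivation.leibniz, hq i, smul_zero, zero_add, smul_eq_mul, mul_comm]
      unfold ey
      rw [pderiv_rename_inj (fun i : σ => (Sum.inl i : σ ⊕ (κ ⊕ κ))) hinj i p]
  | algebraMap r =>
    refine ⟨algebraMap ℂ _ r, fun p q _ => ?_⟩
    change r • (ey κ p * q) = ey κ (r • p) * q
    unfold ey
    rw [map_smul, smul_mul_assoc]
  | add Q Q' _ _ h h' =>
    obtain ⟨R, hR⟩ := h
    obtain ⟨R', hR'⟩ := h'
    refine ⟨R + R', fun p q hq => ?_⟩
    change (R : Module.End ℂ (MvPolynomial (σ ⊕ (κ ⊕ κ)) ℂ)) _ +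
      (R' : Module.End ℂ (MvPolynomial (σ ⊕ (κ ⊕ κ)) ℂ)) _ = _
    rw [hR p q hq, hR' p q hq, LinearMap.add_apply]
    unfold ey
    rw [map_add, add_mul]
  | mul Q Q' _ _ h h' =>
    obtain ⟨R, hR⟩ := h
    obtain ⟨R', hR'⟩ := h'
    refine ⟨R * R', fun p q hq => ?_⟩
    change (R : Module.End ℂ (MvPolynomial (σ ⊕ (κ ⊕ κ)) ℂ))
      ((R' : Module.End ℂ (MvPolynomial (σ ⊕ (κ ⊕ κ)) ℂ)) _) = _
    rw [hR' p q hq, hR _ q hq, Module.End.mul_apply]

lemma pderiv_wq (i : σ) : pderiv (Sum.inl i) (wq σ κ) = 0 := by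
  classical
  unfold wq
  rw [map_sum]
  refine Finset.sum_eq_zero fun k _ => ?_
  rw [Derivation.leibniz, pderiv_X, pderiv_X, Pi.single_eq_of_ne (by simp),
    Pi.single_eq_of_ne (by simp), smul_zero, smul_zero, add_zero]

lemma pderiv_wq_pow (i : σ) (n : ℕ) : pderiv (Sum.inl i) (wq σ κ ^ n) = 0 := by
  rw [Derivation.leibniz_pow, pderiv_wq, smul_zero, smul_zero]

lemma du_ey (k : κ ⊕ κ) (p : MvPolynomial σ ℂ) : pderiv (Sum.inr k) (ey κ p) = 0 :=
  pderiv_rename_ne _ _ (fun a h => by cases h) p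

lemma du_wq (k : κ) : pderiv (Sum.inr (Sum.inl k)) (wq σ κ) = X (Sum.inr (Sum.inr k)) := by
  classical
  unfold wq
  rw [map_sum, Finset.sum_eq_single k]
  · rw [Derivation.leibniz, pderiv_X_self, pderiv_X, Pi.single_eq_of_ne (by simp), smul_zero,
      zero_add, smul_eq_mul, mul_one]
  · intro j _ hj
    rw [Derivation.leibniz, pderiv_X, pderiv_X, Pi.single_eq_of_ne (by simp),
      Pi.single_eq_of_ne (by simpa using hj), smul_zero, smul_zero, add_zero]
  · intro h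
    exact absurd (Finset.mem_univ _) h

lemma dv_wq (k : κ) : pderiv (Sum.inr (Sum.inr k)) (wq σ κ) = X (Sum.inr (Sum.inl k)) := by
  classical
  unfold wq
  rw [map_sum, Finset.sum_eq_single k]
  · rw [Derivation.leibniz, pderiv_X_self, pderiv_X, Pi.single_eq_of_ne (by simp), smul_zero,
      add_zero, smul_eq_mul, mul_one]
  · intro j _ hj
    rw [Derivation.leibniz, pderiv_X, pderiv_X, Pi.single_eq_of_ne (by simpa using hj),
      Pi.single_eq_of_ne (by simp), smul_zero, smul_zero, add_zero]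
  · intro h
    exact absurd (Finset.mem_univ _) h

lemma eu_pow (n : ℕ) (p : MvPolynomial σ ℂ) :
    eu σ κ (ey κ p * wq σ κ ^ n) = (n : ℂ) • (ey κ p * wq σ κ ^ n) := by
  rw [eu_apply]
  have h : ∀ k : κ, X (Sum.inr (Sum.inl k)) * pderiv (Sum.inr (Sum.inl k))
      (ey κ p * wq σ κ ^ n) = (n : ℂ) • (ey κ p * wq σ κ ^ (n - 1) *
        (X (Sum.inr (Sum.inl k)) * X (Sum.inr (Sum.inr k)))) := by
    intro k
    rw [Derivation.leibniz, du_ey, smul_zero, add_zero, Derivation.leibniz_pow, du_wq,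
      ← Nat.cast_smul_eq_nsmul ℂ]
    simp only [smul_eq_mul, smul_eq_C_mul]
    ring
  rw [Finset.sum_congr rfl fun k _ => h k, ← Finset.smul_sum, ← Finset.mul_sum]
  change (n : ℂ) • (ey κ p * wq σ κ ^ (n - 1) * wq σ κ) = _
  rcases n with _ | n
  · simp
  · rw [Nat.add_sub_cancel, mul_assoc, ← pow_succ]

/-- the Euler operator and the Laplace operator -/
lemma lq_pow (f : MvPolynomial σ ℂ) (s : ℕ) : lq σ κ ((quad f κ) ^ (s + 1)) =
    ((s : ℂ) + 1) • ((Fintype.card κ : ℂ) • (quad f κ) ^ s + eu σ κ ((quad f κ) ^ s)) := by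
  classical
  set F : MvPolynomial (σ ⊕ (κ ⊕ κ)) ℂ := quad f κ with hF
  have hFe : F = ey κ f + wq σ κ := quad_eq' f
  have hv : ∀ k : κ, pderiv (Sum.inr (Sum.inr k)) F = X (Sum.inr (Sum.inl k)) := fun k => by
    rw [hFe, map_add, du_ey, dv_wq, zero_add]
  have hu : ∀ k : κ, pderiv (Sum.inr (Sum.inl k)) F = X (Sum.inr (Sum.inr k)) := fun k => by
    rw [hFe, map_add, du_ey, du_wq, zero_add]
  rw [lq_apply, eu_apply]
  have h1 : ∀ k : κ, pderiv (Sum.inr (Sum.inl k)) (pderiv (Sum.inr (Sum.inr k)) (F ^ (s + 1))) =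
      ((s : ℂ) + 1) • (F ^ s + X (Sum.inr (Sum.inl k)) * pderiv (Sum.inr (Sum.inl k)) (F ^ s)) := by
    intro k
    rw [Derivation.leibniz_pow, hv, Nat.add_sub_cancel, map_nsmul, smul_eq_mul,
      Derivation.leibniz, pderiv_X_self, ← Nat.cast_smul_eq_nsmul ℂ]
    push_cast
    congr 1
    simp only [smul_eq_mul, mul_one]
  rw [Finset.sum_congr rfl fun k _ => h1 k, ← Finset.smul_sum, Finset.sum_add_distrib,
    Finset.sum_const, Finset.card_univ, ← Nat.cast_smul_eq_nsmul ℂ]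

/-- the expansion of `F ^ n` -/
lemma pow_expand' (f : MvPolynomial σ ℂ) (n : ℕ) :
    (quad f κ) ^ n = ∑ k ∈ Finset.range (n + 1),
      (n.choose k : ℂ) • (ey κ (f ^ k) * wq σ κ ^ (n - k)) := by
  rw [quad_eq', add_pow]
  refine Finset.sum_congr rfl fun k _ => ?_
  unfold ey
  rw [map_pow, smul_eq_C_mul, map_natCast]
  ring

/-- the operator `s - ∑ u_k d/du_k` -/
noncomputable def ts (σ κ : Type) [Fintype κ] (s : ℕ) :
    Module.End ℂ (MvPolynomial (σ ⊕ (κ ⊕ κ)) ℂ) := (s : ℂ) • 1 - eu σ κ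

lemma ts_apply (s k : ℕ) (hk : k ≤ s) (p : MvPolynomial σ ℂ) :
    ts σ κ s (ey κ p * wq σ κ ^ (s - k)) = (k : ℂ) • (ey κ p * wq σ κ ^ (s - k)) := by
  unfold ts
  rw [LinearMap.sub_apply, eu_pow, LinearMap.smul_apply, Module.End.one_apply, ← sub_smul]
  congr 1
  rw [Nat.cast_sub hk]
  ring

/-- the polynomial `c(s - E)` -/
lemma c_ts (f : MvPolynomial σ ℂ) (c : Polynomial ℂ) (s : ℕ) :
    (Polynomial.aeval (ts σ κ s) c) ((quad f κ) ^ s) =
      ∑ k ∈ Finset.range (s + 1), ((s.choose k : ℂ) * c.eval (k : ℂ)) •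
        (ey κ (f ^ k) * wq σ κ ^ (s - k)) := by
  rw [pow_expand', map_sum]
  refine Finset.sum_congr rfl fun k hk => ?_
  rw [map_smul, aeval_eig _ _ _ (ts_apply s k (by
    have := Finset.mem_range.1 hk
    omega) (f ^ k)), smul_smul]

lemma good_ts {L : ℕ → Module.End ℂ (MvPolynomial (σ ⊕ (κ ⊕ κ)) ℂ)} (hL : Good L) :
    Good fun s => ts σ κ s * L s := by
  have h := good_sub (good_s hL) (good_lmul eu_mem hL)
  refine (congrArg Good (funext fun s => ?_)).mp h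
  unfold ts
  rw [sub_mul, smul_mul_assoc, one_mul]

lemma good_ts_pow (n : ℕ) {L : ℕ → Module.End ℂ (MvPolynomial (σ ⊕ (κ ⊕ κ)) ℂ)} (hL : Good L) :
    Good fun s => ts σ κ s ^ n * L s := by
  induction n with
  | zero => simpa using hL
  | succ n ih =>
    have h := good_ts ih
    refine (congrArg Good (funext fun s => ?_)).mp h
    rw [pow_succ', mul_assoc]

/-- the operator `P(s - E)` -/
lemma first_q (f : MvPolynomial σ ℂ) (hf : f ≠ 0) (c : Polynomial ℂ)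
    (hb : IsBFunction f ((Polynomial.X + 1) * c)) :
    ∃ L : ℕ → Module.End ℂ (MvPolynomial (σ ⊕ (κ ⊕ κ)) ℂ), Good L ∧ ∀ s : ℕ,
      L s ((quad f κ) ^ (s + 1)) =
      ((s : ℂ) + 1) • (Polynomial.aeval (ts σ κ s) c) ((quad f κ) ^ s) := by
  classical
  obtain ⟨P, hP⟩ := hb
  have hm1 := at_minus_one f hf _ (by simp) P hP
  choose R hR using fun Q : weylS σ => ext_q (κ := κ) Q.1 Q.2
  refine ⟨fun s => ∑ m ∈ P.support, ts σ κ s ^ m * (R (P m)).1,
    good_sum _ _ fun m _ => good_ts_pow m (good_const (R (P m)).2), fun s => ?_⟩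
  have hts : ∀ (q : MvPolynomial σ ℂ) (k m : ℕ), k ≤ s + 1 →
      (ts σ κ s ^ m) (ey κ q * wq σ κ ^ (s + 1 - k)) =
      ((k : ℂ) - 1) ^ m • (ey κ q * wq σ κ ^ (s + 1 - k)) := by
    intro q k m hk
    have h1 : ts σ κ s (ey κ q * wq σ κ ^ (s + 1 - k)) =
        ((k : ℂ) - 1) • (ey κ q * wq σ κ ^ (s + 1 - k)) := by
      unfold ts
      rw [LinearMap.sub_apply, eu_pow, LinearMap.smul_apply, Module.End.one_apply, ← sub_smul]
      congr 1
      rw [Nat.cast_sub hk]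
      push_cast
      ring
    induction m with
    | zero => simp
    | succ m ih => rw [pow_succ, Module.End.mul_apply, h1, map_smul, ih, smul_smul, pow_succ']
  have hfree : ∀ (n : ℕ) (i : σ), pderiv (Sum.inl i) (wq σ κ ^ n) = 0 := fun n i =>
    pderiv_wq_pow i n
  have hL : ∀ k : ℕ, k ≤ s + 1 → (∑ m ∈ P.support, ts σ κ s ^ m * (R (P m)).1)
      (ey κ (f ^ k) * wq σ κ ^ (s + 1 - k)) =
      ey κ (∑ m ∈ P.support, (((k : ℂ) - 1) ^ m) •
        (P m : Module.End ℂ (MvPolynomial σ ℂ)) (f ^ k)) * wq σ κ ^ (s + 1 - k) := by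
    intro k hk
    rw [LinearMap.sum_apply]
    have h2 : ∀ m ∈ P.support, (ts σ κ s ^ m * (R (P m)).1)
        (ey κ (f ^ k) * wq σ κ ^ (s + 1 - k)) = ey κ ((((k : ℂ) - 1) ^ m) •
          (P m : Module.End ℂ (MvPolynomial σ ℂ)) (f ^ k)) * wq σ κ ^ (s + 1 - k) := by
      intro m _
      rw [Module.End.mul_apply, hR (P m) _ _ (hfree _), hts _ _ _ hk]
      unfold ey
      rw [map_smul, smul_mul_assoc]
    rw [Finset.sum_congr rfl h2]
    unfold ey
    rw [map_sum, Finset.sum_mul]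
  have hLs : ∀ q, (fun s => ∑ m ∈ P.support, ts σ κ s ^ m * (R (P m)).1) s q =
      (∑ m ∈ P.support, ts σ κ s ^ m * (R (P m)).1) q := fun q => rfl
  rw [hLs, pow_expand', map_sum, Finset.sum_range_succ', c_ts, Finset.smul_sum]
  have h0 : (∑ m ∈ P.support, ts σ κ s ^ m * (R (P m)).1)
      ((((s + 1).choose 0 : ℕ) : ℂ) • (ey κ (f ^ 0) * wq σ κ ^ (s + 1 - 0))) = 0 := by
    rw [map_smul, hL 0 (Nat.zero_le _)]
    have h1 : ∑ m ∈ P.support, ((((0 : ℕ) : ℂ) - 1) ^ m) •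
        (P m : Module.End ℂ (MvPolynomial σ ℂ)) (f ^ 0) = 0 := by
      rw [← hm1]
      refine Finset.sum_congr rfl fun m _ => ?_
      rw [Nat.cast_zero, zero_sub, pow_zero]
    rw [h1]
    unfold ey
    rw [map_zero, zero_mul, smul_zero]
  rw [h0, add_zero]
  refine Finset.sum_congr rfl fun k hk => ?_
  have hk' : k + 1 ≤ s + 1 := by
    have := Finset.mem_range.1 hk
    omega
  rw [map_smul, hL (k + 1) hk', smul_smul]
  have h3 : ∑ m ∈ P.support, ((((k + 1 : ℕ) : ℂ) - 1) ^ m) •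
      (P m : Module.End ℂ (MvPolynomial σ ℂ)) (f ^ (k + 1)) =
      C (((Polynomial.X + 1) * c).eval (k : ℂ)) * f ^ k := by
    rw [hP k, Finsupp.sum]
    refine Finset.sum_congr rfl fun m _ => ?_
    congr 2
    push_cast
    ring
  rw [h3, Nat.add_sub_add_right]
  have h4 : ey κ (C (((Polynomial.X + 1) * c).eval (k : ℂ)) * f ^ k) * wq σ κ ^ (s - k) =
      (((Polynomial.X + 1) * c).eval (k : ℂ)) • (ey κ (f ^ k) * wq σ κ ^ (s - k)) := by
    unfold ey
    rw [← smul_eq_C_mul, map_smul, smul_mul_assoc]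
  rw [h4, smul_smul]
  congr 1
  have h6 : ((s : ℂ) + 1) * (s.choose k : ℂ) = ((s + 1).choose (k + 1) : ℂ) * ((k : ℂ) + 1) := by
    exact_mod_cast Nat.add_one_mul_choose_eq s k
  rw [Polynomial.eval_mul, Polynomial.eval_add, Polynomial.eval_X, Polynomial.eval_one]
  linear_combination (-(c.eval (k : ℂ))) * h6

/-- **The functional equation of `f(x) + ∑ u_k v_k`.** -/
theorem bfun_quad (f : MvPolynomial σ ℂ) (hf : f ≠ 0) (c : Polynomial ℂ)
    (hb : IsBFunction f ((Polynomial.X + 1) * c)) :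
    IsBFunction (quad f κ) ((Polynomial.X + 1) *
      c.comp (Polynomial.X + Polynomial.C (Fintype.card κ : ℂ))) := by
  classical
  obtain ⟨L1, hL1, h1⟩ := first_q (κ := κ) f hf c hb
  set a : ℂ := (Fintype.card κ : ℂ) with ha
  set L2 : ℕ → Module.End ℂ (MvPolynomial (σ ⊕ (κ ⊕ κ)) ℂ) := fun s =>
    ∑ i ∈ c.support, c.coeff i • ∑ j ∈ Finset.range i,
      ((s : ℂ) + a) ^ j • (ts σ κ s ^ (i - 1 - j) * lq σ κ) with hL2
  have hg2 : Good L2 := good_sum _ _ fun i _ => good_smul _ (good_sum _ _ fun j _ =>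
    good_pow a j (good_ts_pow _ (good_const lq_mem)))
  obtain ⟨P, hP⟩ := good_add hL1 hg2
  refine ⟨P, fun s => ?_⟩
  have h3 : (P.sum fun m Q => ((s : ℂ) ^ m) • (Q : Module.End ℂ (MvPolynomial (σ ⊕ (κ ⊕ κ)) ℂ))
      ((quad f κ) ^ (s + 1))) = (L1 s + L2 s) ((quad f κ) ^ (s + 1)) := by
    have h10 : L1 s + L2 s = P.sum fun m Q => ((s : ℂ) ^ m) •
      (Q : Module.End ℂ (MvPolynomial (σ ⊕ (κ ⊕ κ)) ℂ)) := hP s
    rw [h10, Finsupp.sum, Finsupp.sum, LinearMap.sum_apply]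
    rfl
  rw [h3, LinearMap.add_apply, h1]
  set G : MvPolynomial (σ ⊕ (κ ⊕ κ)) ℂ := (quad f κ) ^ s with hG
  set Θ : Module.End ℂ (MvPolynomial (σ ⊕ (κ ⊕ κ)) ℂ) := ts σ κ s with hΘ
  have hlap : lq σ κ ((quad f κ) ^ (s + 1)) = ((s : ℂ) + 1) • (((s : ℂ) + a) • G - Θ G) := by
    rw [lq_pow, hΘ]
    unfold ts
    rw [LinearMap.sub_apply, LinearMap.smul_apply, Module.End.one_apply]
    congr 1
    rw [add_smul]
    abel
  have h4 : L2 s ((quad f κ) ^ (s + 1)) = ((s : ℂ) + 1) •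
      (c.eval ((s : ℂ) + a) • G - (Polynomial.aeval Θ c) G) := by
    have h5 : ∀ i : ℕ, (∑ j ∈ Finset.range i, ((s : ℂ) + a) ^ j • (Θ ^ (i - 1 - j) * lq σ κ))
        ((quad f κ) ^ (s + 1)) = ((s : ℂ) + 1) •
          ((((s : ℂ) + a) ^ i) • G - (Θ ^ i) G) := by
      intro i
      have hcomm : Commute (algebraMap ℂ (Module.End ℂ (MvPolynomial (σ ⊕ (κ ⊕ κ)) ℂ))
          ((s : ℂ) + a)) Θ := Algebra.commutes _ _
      have h6 := hcomm.geom_sum₂_mul i
      have h7 := congrArg (fun A : Module.End ℂ (MvPolynomial (σ ⊕ (κ ⊕ κ)) ℂ) => A G) h6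
      simp only [Module.End.mul_apply, LinearMap.sub_apply, LinearMap.sum_apply, ← map_pow,
        Module.algebraMap_end_apply] at h7
      rw [LinearMap.sum_apply]
      rw [← h7, Finset.smul_sum]
      refine Finset.sum_congr rfl fun j _ => ?_
      rw [LinearMap.smul_apply, Module.End.mul_apply, hlap, map_smul, smul_comm]
    rw [hL2]
    simp only [LinearMap.sum_apply]
    simp only [LinearMap.smul_apply]
    have h8 : ∀ i ∈ c.support, c.coeff i • ((∑ j ∈ Finset.range i, ((s : ℂ) + a) ^ j •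
        (Θ ^ (i - 1 - j) * lq σ κ)) ((quad f κ) ^ (s + 1))) =
        ((s : ℂ) + 1) • (c.coeff i • (((s : ℂ) + a) ^ i) • G - c.coeff i • (Θ ^ i) G) := by
      intro i _
      rw [h5 i, smul_comm, smul_sub]
    rw [Finset.sum_congr rfl h8, ← Finset.smul_sum, Finset.sum_sub_distrib]
    congr 2
    · rw [Polynomial.eval_eq_sum, Polynomial.sum, Finset.sum_smul]
      refine Finset.sum_congr rfl fun i _ => ?_
      rw [smul_smul]
    · rw [Polynomial.aeval_eq_sum_range' (Nat.lt_succ_self c.natDegree), LinearMap.sum_apply]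
      have h9 : ∀ i ∈ Finset.range (c.natDegree + 1), i ∉ c.support → (c.coeff i • Θ ^ i) G = 0 := by
        intro i _ hi
        rw [Polynomial.notMem_support_iff.1 hi, zero_smul, LinearMap.zero_apply]
      rw [← Finset.sum_subset (s₁ := c.support) (fun i hi => Finset.mem_range.2
        (Nat.lt_succ_of_le (Polynomial.le_natDegree_of_mem_supp i hi))) h9]
      rfl
  rw [h4, ← smul_add, add_sub_cancel, smul_smul, ← smul_eq_C_mul]
  congr 1
  rw [Polynomial.eval_mul, Polynomial.eval_comp, Polynomial.eval_add, Polynomial.eval_add,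
    Polynomial.eval_X, Polynomial.eval_one, Polynomial.eval_C]

end main

end Pool.Agent.K6.H42.SE
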