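import Pool.Agent.K6.H42.SE.Def0

set_option autoImplicit false

/-! # The closure operations -/

namespace Pool.Agent.K6.H42.SE

open Pool.Agent.Y230.PS Pool.Agent.Y230.TH Pool.Agent.R852.PP Pool.Agent.W574.SM

/-- **The closure operations.** `Cls N o B` is the smallest pair of classes of families of polynomials
with rational coefficients, `Cls N o B false` of ideals and `Cls N o B true` of polynomials, which contains
`B` and has the following properties. Here `N` is a set of primes: the automorphisms which are allowed are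
those for which no prime `p ∈ N` occurs in a denominator, for `N = ∅` all of them. -/
inductive Cls (N : Set ℕ) (o : Bool) (B : Bool → FamQ → Prop) : Bool → FamQ → Prop
  | base (c : Bool) (A : FamQ) (h : B c A) : Cls N o B c A
  /-- the image under an automorphism of the polynomial ring -/
  | auto (c : Bool) (σ ι : Type) [Fintype σ] [Fintype ι] (f : ι → MvPolynomial σ ℚ)
      (Φ : MvPolynomial σ ℚ ≃ₐ[ℚ] MvPolynomial σ ℚ)
      (h1 : ∀ p ∈ N, ∀ i, PInt p (Φ (MvPolynomial.X i)))
      (h2 : ∀ p ∈ N, ∀ i, PInt p (Φ.symm (MvPolynomial.X i)))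
      (h : Cls N o B c ⟨σ, ι, f⟩) : Cls N o B c ⟨σ, ι, fun j => Φ (f j)⟩
  /-- the variables and the generators may be indexed differently -/
  | equiv (c : Bool) (A A' : FamQ) (i : A.σ ≃ A'.σ) (k : A.ι ≃ A'.ι)
      (h : ∀ j, A'.f (k j) = MvPolynomial.rename i (A.f j)) (hA : Cls N o B c A) : Cls N o B c A'
  /-- from the ideal `(g + ∑ y_k z_k)` to the polynomial `g` -/
  | unstab (τ κ : Type) [Fintype τ] [Fintype κ] [Nonempty κ] (g : MvPolynomial τ ℚ)
      (hg : ∀ c, g ≠ MvPolynomial.C c) (h : Cls N o B false (tsum (coordQ κ) τ g)) :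
      Cls N o B true (hypQ g)
  /-- from the polynomial `∑ y_j f_j` to the ideal `(f_j)`, the converse of `univ` -/
  | ofUniv (A : FamQ) (h : Cls N o B true A.univ) : Cls N o B false A
  /-- the unit ideal -/
  | free (A : FamQ) (g : A.ι → MvPolynomial A.σ ℚ) (h : ∑ j, g j * A.f j = 1) : Cls N o B false A
  /-- the ideal generated by the variables -/
  | coord (κ : Type) [Fintype κ] [Nonempty κ] : Cls N o B false (coordQ κ)
  /-- the nonzero constants -/
  | const (σ : Type) [Fintype σ] (a : ℚ) (ha : a ≠ 0) :
      Cls N o B true (hypQ (MvPolynomial.C a : MvPolynomial σ ℚ))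
  /-- a polynomial is a principal ideal -/
  | hyp (A : FamQ) (h : Cls N o B true A) : Cls N o B false A
  /-- the powers `g ^ k`, `k ≥ 2`, if the ideal `(g)` is in the first class -/
  | pow (σ : Type) [Fintype σ] (g : MvPolynomial σ ℚ) (k : ℕ) (hk : 2 ≤ k)
      (h : Cls N o B false (hypQ g)) : Cls N o B true (hypQ (g ^ k))
  /-- the sum of two ideals in disjoint sets of variables -/
  | sum (A A' : FamQ) (hA : Cls N o B false A) (hA' : Cls N o B false A') :
      Cls N o B false (A.sum A')
  /-- the product of two ideals, or of two polynomials, in disjoint sets of variables -/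
  | mul (c : Bool) (A A' : FamQ) (hA : Cls N o B c A) (hA' : Cls N o B c A') :
      Cls N o B c (A.mul A')
  /-- the product `F(x) G(y)` of a nonconstant polynomial `F` in the second class and a polynomial `G`
  which generates an ideal in the first class -/
  | mulT (σ τ : Type) [Fintype σ] [Fintype τ] (F : MvPolynomial σ ℚ) (G : MvPolynomial τ ℚ)
      (hF : ∀ c, F ≠ MvPolynomial.C c) (h : Cls N o B true (hypQ F))
      (h' : Cls N o B false (hypQ G)) : Cls N o B true ((hypQ F).mul (hypQ G))
  /-- the polynomial `∑ y_j f_j(x)` -/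
  | univ (A : FamQ) (hA : Cls N o B false A) : Cls N o B true A.univ
  /-- the products of powers `h(x) ∏_t (∑_j y_{t, j} f_{t, j}(x)) ^ a_t`, if the ideal
  `h ∏_t (f_{t, j})_j ^ a_t` is in the class -/
  | form (σ : Type) [Fintype σ] (m : ℕ) (r a : Fin m → ℕ) (hm : 0 < m) (ha : ∀ t, 0 < a t)
      (h : MvPolynomial σ ℚ) (f : (t : Fin m) → Fin (r t) → MvPolynomial σ ℚ)
      (hA : Cls N o B false (genQ a h f)) : Cls N o B true (formQ a h f)
  /-- the Thom-Sebastiani sum `∑ y_j f_j(x) + g(z)` -/
  | ts (A : FamQ) (τ : Type) [Fintype τ] (g : MvPolynomial τ ℚ) (hA : Cls N o B false A)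
      (hg : Cls N o B true (hypQ g)) : Cls N o B true (tsum A τ g)
  /-- variables which do not occur may be dropped -/
  | drop (σ κ : Type) [Fintype σ] [Fintype κ] (g : MvPolynomial σ ℚ)
      (h : Cls N o B true (hypQ (MvPolynomial.rename Sum.inl g : MvPolynomial (σ ⊕ κ) ℚ))) :
      Cls N o B true (hypQ g)
  /-- a polynomial `F` is in the second class if the ideal `(F)` is in the first one and `(s + 1) ^ 2`
  divides every `b` with a functional equation of `F` (only in the version without orders) -/
  | up (ho : o = false) (A : FamQ)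
      (hm : ∀ b : Polynomial ℂ, IsFunctionalEq A.toC b → (Polynomial.X + 1) ^ 2 ∣ b)
      (h : Cls N o B false A) : Cls N o B true A

end Pool.Agent.K6.H42.SE
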