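import Pool.Agent.R852.PP.Defs
import Pool.Agent.H628R4.TP.Defs
import Pool.Agent.W427.SMC.Defs

set_option autoImplicit false

/-! # Definitions -/

namespace Pool.Agent.K6.H42.SE

open Pool.Agent.Y230.PS MeasureTheory
open Pool.Agent.H628R4.TP (IsBFunction)
open Pool.Agent.W427.SMC (poincare)

/-- the ideal generated by the variables -/
@[reducible] noncomputable def coordQ (κ : Type) [Fintype κ] : FamQ :=
  ⟨κ, κ, fun k => MvPolynomial.X k⟩

/-- the ideal generated by one polynomial -/
@[reducible] noncomputable def hypQ {σ : Type} [Fintype σ] (g : MvPolynomial σ ℚ) : FamQ :=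
  ⟨σ, Fin 1, fun _ => g⟩

/-- the coefficients of the polynomial are `p`-integral -/
def PInt (p : ℕ) {σ : Type} (q : MvPolynomial σ ℚ) : Prop :=
  ∀ m, ¬ p ∣ (MvPolynomial.coeff m q).den

/-- what is required of a pole of order `k`: a root of multiplicity `k` (`o = true`), or only a root
(`o = false`) -/
def cap (o : Bool) (k : ℕ) : ℕ := if o = true then k else min k 1

/-- **The `p`-adic zeta function** `∫_{ℤ_p ^ V} |F(x)| ^ s dx` of a polynomial with rational coefficients;
`dx` is the Haar measure of total mass one. -/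
noncomputable def zetaF (p : ℕ) [Fact p.Prime] {V : Type} [Fintype V] (F : MvPolynomial V ℚ)
    (s : ℂ) : ℂ :=
  letI : MeasurableSpace (V → ℤ_[p]) := borel _
  haveI : BorelSpace (V → ℤ_[p]) := ⟨rfl⟩
  ∫ x : V → ℤ_[p], ((‖MvPolynomial.aeval (fun i => (x i : ℚ_[p])) F‖ : ℝ) : ℂ) ^ s
    ∂(Measure.addHaarMeasure (⊤ : TopologicalSpace.PositiveCompacts (V → ℤ_[p])))

/-- **The strong monodromy conjecture for `F` and `p`.** Let `Z` be the meromorphic continuation of the zeta
function, and let `b` satisfy a functional equation `b(s) F ^ s = P(s) F ^ (s + 1)`. Without orders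
(`o = false`): the real part of every pole `s₀` of `Z` is a root of `b`. With orders (`o = true`): the order
of the pole `s₀` is at most the multiplicity of the real part of `s₀` as a root of `b ≠ 0`. -/
def Conj (p : ℕ) [Fact p.Prime] (o : Bool) {V : Type} [Fintype V] (F : MvPolynomial V ℚ) : Prop :=
  ∀ Z : ℂ → ℂ, MeromorphicOn Z Set.univ → (∀ s : ℂ, 0 < s.re → Z s = zetaF p F s) →
    ∀ (s₀ : ℂ) (b : Polynomial ℂ), IsBFunction (MvPolynomial.map (algebraMap ℚ ℂ) F) b →
      if o = true then b ≠ 0 → ((-(b.rootMultiplicity (s₀.re : ℂ) : ℤ) : ℤ) : WithTop ℤ) ≤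
          meromorphicOrderAt Z s₀
        else meromorphicOrderAt Z s₀ < 0 → b.eval (s₀.re : ℂ) = 0

/-- **The zeta function is a rational function of `p ^ (-s)`** without poles in the closed unit disc
(Igusa's theorem, which is not in the library for all polynomials). -/
def Rational (p : ℕ) [Fact p.Prime] {V : Type} [Fintype V] (F : MvPolynomial V ℚ) : Prop :=
  ∃ D P : Polynomial ℂ, (∀ T : ℂ, ‖T‖ ≤ 1 → D.eval T ≠ 0) ∧
    ∀ s : ℂ, 0 < s.re → D.eval ((p : ℂ) ^ (-s)) * zetaF p F s = P.eval ((p : ℂ) ^ (-s))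

/-- **Denef's question for `F` and the prime `p`**: the Poincare series of `F` is the expansion of a
rational function `Φ` (in lowest terms), and for every pole `T₀` of `Φ` the number
`t₀ = -log |T₀| / log p` is a root of all the polynomials `b` with a functional equation
`b(s) F ^ s = P(s) F ^ (s + 1)`, hence of `b_F`; in the version with orders (`o = true`) of a multiplicity
which is at least the order of the pole. -/
def Denef (p : ℕ) (o : Bool) {V : Type} [Fintype V] (F : MvPolynomial V ℤ) : Prop :=
  ∃ Φ : RatFunc ℂ, ((Φ.denom : Polynomial ℂ) : PowerSeries ℂ) * poincare p F =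
      ((Φ.num : Polynomial ℂ) : PowerSeries ℂ) ∧
    ∀ T₀ : ℂ, Φ.denom.eval T₀ = 0 → ∀ b : Polynomial ℂ,
      IsBFunction (MvPolynomial.map (Int.castRingHom ℂ) F) b →
      (Polynomial.X - Polynomial.C ((-Real.log ‖T₀‖ / Real.log p : ℝ) : ℂ)) ^
        cap o (Φ.denom.rootMultiplicity T₀) ∣ b

end Pool.Agent.K6.H42.SE
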