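import Pool.Agent.K6.H42.SE.Def0
import Pool.Agent.TH192.MT.JDefs

set_option autoImplicit false

/-! # Determinantal ideals -/

namespace Pool.Agent.K6.H42.SE

open MvPolynomial Pool.Agent.Y230.PS Pool.Agent.TH192.DT Pool.Agent.TH192.MT

/-- The ideal `∏_t I_{p t}` of the products of the minors of the sizes `p t` (Pfaffians of the sizes
`2 (p t)`) of a generic, symmetric or skew symmetric matrix. -/
@[reducible] noncomputable def detFam (S : MSpace) {T : ℕ} (k : Fin T → ℕ) : FamQ :=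
  ⟨S.Var, (t : Fin T) → S.Idx (k t), fun J => ∏ t, map (Int.castRingHom ℚ) (minor S (k t) (J t))⟩

/-- The numbers `codim (rank ≤ d) / N_d`, `N_d = ∑ t, max (k t - d, 0)`, are different, for `N_d > 0`. -/
def DistRatios (S : MSpace) {T : ℕ} (k : Fin T → ℕ) : Prop :=
  ∀ d e : ℕ, d < S.rk → e < S.rk → 0 < ∑ t, (k t - d) → 0 < ∑ t, (k t - e) →
    S.codim d * ∑ t, (k t - e) = S.codim e * ∑ t, (k t - d) → d = e

end Pool.Agent.K6.H42.SE
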