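import Pool.Agent.Y230.TH.Inst
import Pool.Agent.K6.H39.RC.Univ
import Pool.Agent.K6.H42.SE.B
import Pool.Agent.K6.H42.SE.Def0
import Pool.Agent.N475.CU.B1

set_option autoImplicit false
set_option linter.unusedSectionVars false
set_option linter.unusedVariables false

/-! # Forced roots and stable equivalence -/

namespace Pool.Agent.K6.H42.SE

open Polynomial Pool.Agent.Y230.PT Pool.Agent.Y230.PS Pool.Agent.Y230.TH
open Pool.Agent.W574.SM Pool.Agent.W574.RO Pool.Agent.W574.CN Pool.Agent.W574.HS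
open Pool.Agent.H628R4.TP (IsBFunction weylS)
open Pool.Agent.N165.CU (quad)

theorem isB_hyp {σ : Type} [Fintype σ] (g : MvPolynomial σ ℚ) (b : ℂ[X]) :
    IsFunctionalEq (hypQ g).toC b ↔ IsBFunction (MvPolynomial.map (algebraMap ℚ ℂ) g) b :=
  ⟨fun h => Pool.Agent.Y229.isB_of_single _ b h, fun h => single_of_isB _ b h⟩

/-- the root `-1` -/
theorem minus_one_root {σ : Type} (f : MvPolynomial σ ℂ) (hf : ∀ c, f ≠ MvPolynomial.C c)
    (b : ℂ[X]) (hb : IsBFunction f b) : ∃ c : ℂ[X], b = (X + 1) * c := by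
  classical
  have hf0 : f ≠ 0 := fun h => hf 0 (by rw [h, MvPolynomial.C_0])
  obtain ⟨P, hP⟩ := hb
  -- `b(-1) = f P(-1)(1)`
  have hfr : Fr f fun N => f * (∑ m ∈ P.support, (((X - 1) ^ m : ℂ[X]).eval
      (N : ℂ)) • (P m : Module.End ℂ (MvPolynomial σ ℂ)) (f ^ N)) +
      (-b.comp (X - 1) : ℂ[X]).eval (N : ℂ) • f ^ N := by
    refine fr_add (fr_mul (Pool.Agent.R852.PP.fr_sum _ _ _ fun m _ =>
      Pool.Agent.R852.PP.fr_pol (fr_weyl _ (P m).2 _ ?_) _) _)
      (Pool.Agent.R852.PP.fr_pol ?_ _)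
    · exact ⟨0, 1, fun N => by simp⟩
    · exact ⟨0, 1, fun N => by simp⟩
  obtain ⟨M, ρ, e⟩ := hfr
  beta_reduce at e
  have hρ : ρ = 0 := by
    refine Polynomial.eq_zero_of_infinite_isRoot ρ ?_
    have hinj : Function.Injective (fun n : ℕ => ((n + 1 : ℕ) : MvPolynomial σ ℂ)) := by
      intro n n' h
      have h1 : n + 1 = n' + 1 := Nat.cast_injective (R := MvPolynomial σ ℂ) h
      omega
    refine (Set.infinite_range_of_injective hinj).mono ?_
    rintro _ ⟨n, rfl⟩
    have h1 := e (n + 1)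
    have h2 : f * (∑ m ∈ P.support, (((X - 1) ^ m : ℂ[X]).eval
      ((n + 1 : ℕ) : ℂ)) • (P m : Module.End ℂ (MvPolynomial σ ℂ)) (f ^ (n + 1))) +
      (-b.comp (X - 1) : ℂ[X]).eval ((n + 1 : ℕ) : ℂ) • f ^ (n + 1) = 0 := by
      have h3 : ∑ m ∈ P.support, (((X - 1) ^ m : ℂ[X]).eval
          ((n + 1 : ℕ) : ℂ)) • (P m : Module.End ℂ (MvPolynomial σ ℂ)) (f ^ (n + 1)) =
          MvPolynomial.C (b.eval (n : ℂ)) * f ^ n := by
        rw [hP n, Finsupp.sum]
        refine Finset.sum_congr rfl fun m _ => ?_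
        congr 1
        rw [eval_pow, eval_sub, eval_X, eval_one]
        push_cast
        ring
      rw [h3, eval_neg, eval_comp, eval_sub, eval_X, eval_one, neg_smul,
        ← MvPolynomial.C_mul', pow_succ]
      push_cast
      rw [add_sub_cancel_right]
      ring
    rw [h2, mul_zero] at h1
    exact (mul_eq_zero.1 h1.symm).resolve_right (pow_ne_zero _ hf0)
  have h1 := e 0
  rw [hρ, eval_zero, zero_mul] at h1
  have h2 := (mul_eq_zero.1 h1).resolve_left (pow_ne_zero _ hf0)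
  rw [eval_neg, eval_comp, eval_sub, eval_X, eval_one, Nat.cast_zero, zero_sub, pow_zero,
    neg_smul, ← sub_eq_add_neg, sub_eq_zero] at h2
  by_cases hb1 : b.eval (-1) = 0
  · obtain ⟨c, hc⟩ := dvd_iff_isRoot.2 (show b.IsRoot (-1) from hb1)
    refine ⟨c, ?_⟩
    rw [hc, C_neg, C_1, sub_neg_eq_add]
  · exfalso
    have hu : IsUnit f := by
      refine IsUnit.of_mul_eq_one (MvPolynomial.C (b.eval (-1))⁻¹ * (∑ m ∈ P.support,
        (((X - 1) ^ m : ℂ[X]).eval (0 : ℂ)) •
          (P m : Module.End ℂ (MvPolynomial σ ℂ)) 1)) ?_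
      rw [mul_left_comm, h2, ← MvPolynomial.smul_eq_C_mul, smul_smul, inv_mul_cancel₀ hb1,
        one_smul]
    obtain ⟨c, -, hc⟩ := MvPolynomial.isUnit_iff_eq_C_of_isReduced.1 hu
    exact hf c hc

/-- **From `g + ∑ y_k x_k` to `g`.** -/
theorem FK_unstab {κ τ : Type} [Fintype κ] [Fintype τ] (g : MvPolynomial τ ℚ)
    (hg : ∀ c, g ≠ MvPolynomial.C c) (r : ℂ) (hr : r ≠ -1) (m : ℕ)
    (h : FK (tsum (coordQ κ) τ g) r m) :
    FK (hypQ g) (r + (Fintype.card κ : ℂ)) (m + dl (r + (Fintype.card κ : ℂ))) := by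
  classical
  intro b hb
  rw [isB_hyp] at hb
  set G : MvPolynomial τ ℂ := MvPolynomial.map (algebraMap ℚ ℂ) g with hG
  have hGc : ∀ c, G ≠ MvPolynomial.C c := by
    intro c hc
    refine hg (MvPolynomial.coeff 0 g) (MvPolynomial.ext _ _ fun m => ?_)
    rw [MvPolynomial.coeff_C]
    split_ifs with h1
    · rw [h1]
    · have h2 := congrArg (MvPolynomial.coeff m) hc
      rw [hG, MvPolynomial.coeff_map, MvPolynomial.coeff_C, if_neg h1] at h2
      exact (map_eq_zero_iff _ (algebraMap ℚ ℂ).injective).1 h2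
  have hG0 : G ≠ 0 := fun h => hGc 0 (by rw [h, MvPolynomial.C_0])
  obtain ⟨c, rfl⟩ := minus_one_root G hGc b hb
  have h1 := bfun_quad (κ := κ) G hG0 c hb
  have h2 : IsFunctionalEq (tsum (coordQ κ) τ g).toC
      ((X + 1) * c.comp (X + C (Fintype.card κ : ℂ))) := by
    have h3 := single_of_isB _ _ h1
    refine functionalEq_equiv (Equiv.sumComm (κ ⊕ κ) τ) (Equiv.refl (Fin 1)) _ _
      (fun j => ?_) _ h3
    change quad G κ = MvPolynomial.rename _ (MvPolynomial.map (algebraMap ℚ ℂ)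
      (MvPolynomial.rename Sum.inl (∑ j, MvPolynomial.X (Sum.inl j) *
        MvPolynomial.rename Sum.inr (MvPolynomial.X j) : MvPolynomial (κ ⊕ κ) ℚ) +
        MvPolynomial.rename Sum.inr g))
    rw [map_add, MvPolynomial.map_rename, MvPolynomial.map_rename, map_add,
      MvPolynomial.rename_rename, MvPolynomial.rename_rename, map_sum, map_sum, add_comm]
    unfold quad
    congr 1
    refine Finset.sum_congr rfl fun j _ => ?_
    rw [map_mul, map_mul, MvPolynomial.map_X, MvPolynomial.map_rename, MvPolynomial.map_X,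
      MvPolynomial.rename_X, MvPolynomial.rename_X, MvPolynomial.rename_X]
    rfl
  have h3 := h _ h2
  have hcop : IsCoprime ((X - C r) ^ m : ℂ[X]) (X + 1) := by
    refine IsCoprime.pow_left ?_
    rw [(irreducible_X_sub_C r).coprime_iff_not_dvd, dvd_iff_isRoot, IsRoot.def, eval_add,
      eval_X, eval_one]
    exact fun h => hr (eq_neg_of_add_eq_zero_left h)
  have h4 := hcop.dvd_of_dvd_mul_left h3
  have h5 : (X - C (r + (Fintype.card κ : ℂ))) ^ m ∣ c := by
    obtain ⟨q, hq⟩ := h4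
    refine ⟨q.comp (X - C (Fintype.card κ : ℂ)), ?_⟩
    have h6 := congrArg (fun q : ℂ[X] => q.comp (X - C (Fintype.card κ : ℂ))) hq
    simp only [comp_assoc, mul_comp, pow_comp, add_comp, sub_comp, X_comp, C_comp,
      sub_add_cancel, comp_X] at h6
    rw [h6, C_add]
    congr 2
    ring
  exact dvd_dl _ m c h5

/-- **From `∑ y_j f_j` to the ideal `(f_j)`.** -/
theorem FK_ofUniv (A : FamQ) (r : ℂ) (m : ℕ) (h : FK A.univ r (m + dl r)) : FK A r m := by
  classical
  intro b hb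
  have hb' : Pool.Agent.W574.LM.IsLocEq 1 A.toC b := by
    obtain ⟨S, P, hS, hP⟩ := hb
    exact ⟨S, P, hS, fun s => by rw [one_mul]; exact hP s⟩
  obtain ⟨Q, mQ, hQ⟩ := Pool.Agent.K6.H39.RC.locU A.toC 1 b hb'
  have h1 : IsBFunction (Pool.Agent.W574.HS.univ A.toC) ((X + 1) * b) := by
    refine ⟨Finsupp.single 0 ⟨Q, mQ⟩, fun s => ?_⟩
    rw [Finsupp.sum_single_index (by
      rw [ZeroMemClass.coe_zero, LinearMap.zero_apply, smul_zero]), pow_zero, one_smul, ← hQ s,
      map_one, one_mul]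
  have h2 := h _ (by rw [toC_univ]; exact single_of_isB _ _ h1)
  by_cases hr : r = -1
  · subst hr
    rw [dl_eq, if_pos rfl, pow_succ'] at h2
    have e : (X - C (-1) : ℂ[X]) = X + 1 := by rw [C_neg, C_1, sub_neg_eq_add]
    rw [e] at h2 ⊢
    have hne : (X + 1 : ℂ[X]) ≠ 0 := by
      rw [← e]
      exact X_sub_C_ne_zero _
    exact (mul_dvd_mul_iff_left hne).1 h2
  · rw [dl_eq, if_neg hr, add_zero] at h2
    have hcop : IsCoprime ((X - C r) ^ m : ℂ[X]) (X + 1) := by
      refine IsCoprime.pow_left ?_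
      rw [(irreducible_X_sub_C r).coprime_iff_not_dvd, dvd_iff_isRoot, IsRoot.def, eval_add,
        eval_X, eval_one]
      exact fun h => hr (eq_neg_of_add_eq_zero_left h)
    exact hcop.dvd_of_dvd_mul_left h2

theorem auto_C {σ : Type} (Φ : MvPolynomial σ ℚ ≃ₐ[ℚ] MvPolynomial σ ℚ) (a : ℚ) :
    Φ (MvPolynomial.C a) = MvPolynomial.C a := by
  rw [← MvPolynomial.algebraMap_eq, AlgEquiv.commutes]

/-- base change of an automorphism -/
noncomputable def bcQ {σ : Type} (Φ : MvPolynomial σ ℚ ≃ₐ[ℚ] MvPolynomial σ ℚ) :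
    MvPolynomial σ ℂ ≃ₐ[ℂ] MvPolynomial σ ℂ :=
  AlgEquiv.ofAlgHom
    (MvPolynomial.aeval fun i => MvPolynomial.map (algebraMap ℚ ℂ) (Φ (MvPolynomial.X i)))
    (MvPolynomial.aeval fun i => MvPolynomial.map (algebraMap ℚ ℂ) (Φ.symm (MvPolynomial.X i)))
    (by
      apply MvPolynomial.algHom_ext
      intro i
      rw [AlgHom.comp_apply, MvPolynomial.aeval_X]
      have h : ∀ q : MvPolynomial σ ℚ, MvPolynomial.aeval (fun i => MvPolynomial.map
          (algebraMap ℚ ℂ) (Φ (MvPolynomial.X i))) (MvPolynomial.map (algebraMap ℚ ℂ) q) =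
          MvPolynomial.map (algebraMap ℚ ℂ) (Φ q) := by
        intro q
        induction q using MvPolynomial.induction_on with
        | C a =>
          rw [MvPolynomial.map_C, MvPolynomial.algHom_C, MvPolynomial.algebraMap_eq,
            auto_C, MvPolynomial.map_C]
        | add q r hq hr => rw [map_add, map_add, hq, hr, map_add, map_add]
        | mul_X q i hq => rw [map_mul, map_mul, hq, MvPolynomial.map_X, MvPolynomial.aeval_X,
            map_mul, map_mul]
      rw [h, AlgEquiv.apply_symm_apply, MvPolynomial.map_X, AlgHom.id_apply])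
    (by
      apply MvPolynomial.algHom_ext
      intro i
      rw [AlgHom.comp_apply, MvPolynomial.aeval_X]
      have h : ∀ q : MvPolynomial σ ℚ, MvPolynomial.aeval (fun i => MvPolynomial.map
          (algebraMap ℚ ℂ) (Φ.symm (MvPolynomial.X i))) (MvPolynomial.map (algebraMap ℚ ℂ) q) =
          MvPolynomial.map (algebraMap ℚ ℂ) (Φ.symm q) := by
        intro q
        induction q using MvPolynomial.induction_on with
        | C a =>
          rw [MvPolynomial.map_C, MvPolynomial.algHom_C, MvPolynomial.algebraMap_eq,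
            auto_C, MvPolynomial.map_C]
        | add q r hq hr => rw [map_add, map_add, hq, hr, map_add, map_add]
        | mul_X q i hq => rw [map_mul, map_mul, hq, MvPolynomial.map_X, MvPolynomial.aeval_X,
            map_mul, map_mul]
      rw [h, AlgEquiv.symm_apply_apply, MvPolynomial.map_X, AlgHom.id_apply])

theorem bcQ_map {σ : Type} (Φ : MvPolynomial σ ℚ ≃ₐ[ℚ] MvPolynomial σ ℚ)
    (q : MvPolynomial σ ℚ) : bcQ Φ (MvPolynomial.map (algebraMap ℚ ℂ) q) =
      MvPolynomial.map (algebraMap ℚ ℂ) (Φ q) := by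
  change MvPolynomial.aeval (fun i => MvPolynomial.map (algebraMap ℚ ℂ) (Φ (MvPolynomial.X i)))
    (MvPolynomial.map (algebraMap ℚ ℂ) q) = _
  induction q using MvPolynomial.induction_on with
  | C a =>
    rw [MvPolynomial.map_C, MvPolynomial.algHom_C, MvPolynomial.algebraMap_eq,
      auto_C, MvPolynomial.map_C]
  | add q r hq hr => rw [map_add, map_add, hq, hr, map_add, map_add]
  | mul_X q i hq => rw [map_mul, map_mul, hq, MvPolynomial.map_X, MvPolynomial.aeval_X,
      map_mul, map_mul]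

/-- **Invariance under automorphisms.** -/
theorem FK_auto {σ ι : Type} [Fintype σ] [Fintype ι] (Φ : MvPolynomial σ ℚ ≃ₐ[ℚ] MvPolynomial σ ℚ)
    (f : ι → MvPolynomial σ ℚ) (r : ℂ) (m : ℕ) (h : FK ⟨σ, ι, f⟩ r m) :
    FK ⟨σ, ι, fun j => Φ (f j)⟩ r m := by
  classical
  intro b hb
  refine h b (functionalEq_auto (bcQ Φ) (fun Q hQ => ?_) _ b ?_)
  · obtain ⟨R, hR⟩ := Pool.Agent.N475.CU.conj_mem (bcQ Φ).symm Q hQ
    exact ⟨⟨R.1, R.2⟩, fun q => hR q⟩
  · have e : (fun j => bcQ Φ (FamQ.toC ⟨σ, ι, f⟩ j)) = FamQ.toC ⟨σ, ι, fun j => Φ (f j)⟩ :=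
      funext fun j => bcQ_map Φ (f j)
    rw [e]
    exact hb

end Pool.Agent.K6.H42.SE
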