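import Pool.Agent.K6.H42.SE.Null
import Pool.Agent.Y230.TH.Zeta

set_option autoImplicit false
set_option linter.unusedSectionVars false
set_option linter.unusedVariables false

/-! # From `∑ y_j f_j` to `(f_j)`, and from `g(z) + ∑ y_k x_k` to `g` -/

namespace Pool.Agent.K6.H42.SE

open MeasureTheory MvPolynomial
open Pool.Agent.W427.SMC Pool.Agent.Y230.PT Pool.Agent.Y230.PS Pool.Agent.Y230.TH
open scoped ENNReal
open Filter Topology

attribute [local instance] msZ bsZ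

variable {p : ℕ} [Fact p.Prime]
variable {σ τ ι κ : Type} [Fintype σ] [Fintype τ] [Fintype ι] [Fintype κ]

theorem one_lt_norm_p : 1 < ‖(p : ℂ)‖ := by
  rw [Complex.norm_natCast]
  exact_mod_cast (Fact.out : p.Prime).one_lt

/-- **From the polynomial `∑ y_j f_j` to the ideal `(f_j)`.** -/
theorem FR_of_univK [DecidableEq ι] (hι : Nonempty ι) (f : ι → MvPolynomial σ ℚ_[p])
    (m m' : ℂ → ℕ∞) (H : ∀ T, 1 < ‖T‖ → ∀ a : ℕ,
      ((a + (if T = (p : ℂ) then 1 else 0) : ℕ) : ℕ∞) ≤ m T → (a : ℕ∞) ≤ m' T)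
    (h : FR p m (FF fun _ : Fin 1 => univK f)) : FR p m' (FF f) := by
  classical
  have hp1 : (1 - (p : ℂ)) ≠ 0 := by
    rw [sub_ne_zero]
    intro h
    have h1 := one_lt_norm_p (p := p)
    rw [← h, norm_one] at h1
    exact lt_irrefl _ h1
  have hrel : ∀ s : ℝ, 0 ≤ s → (((tr' p s : ℝ) : ℂ) - p) * FF (fun _ : Fin 1 => univK f) s =
      (1 - (p : ℂ)) * FF f s := by
    intro s hs
    rw [FF_univK hι f hs]
    have h3 := phi_eq p s hs
    have h4 := congrArg (fun x : ℝ => (x : ℂ)) h3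
    push_cast at h4
    have h6 : (((p : ℝ) ^ (-s) : ℝ) : ℂ) = ((tr' p s : ℝ) : ℂ) := rfl
    rw [h6] at h4
    linear_combination (-(FF f s)) * h4
  intro T0 hT0
  obtain ⟨M, hM, D, P, hD, hP⟩ := h T0 hT0
  by_cases hT : T0 = (p : ℂ)
  · subst hT
    have hn : ¬ ‖(p : ℂ)‖ ≤ 1 := not_le.2 one_lt_norm_p
    rcases M with _ | M
    · refine ⟨0, by simp, D * Polynomial.C (1 - (p : ℂ)),
        (Polynomial.X - Polynomial.C (p : ℂ)) * P, ?_, fun s hs => ?_⟩
      · rw [Polynomial.eval_mul, Polynomial.eval_C]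
        exact mul_ne_zero hD hp1
      · have h1 := hP s hs
        have h2 := hrel s hs
        simp only [Polynomial.eval_mul, Polynomial.eval_C, Polynomial.eval_sub,
          Polynomial.eval_X, pow_zero, one_mul] at h1 ⊢
        linear_combination (((tr' p s : ℝ) : ℂ) - p) * h1 -
          (Polynomial.eval ((tr' p s : ℝ) : ℂ) D) * h2
    · refine ⟨M, ?_, D * Polynomial.C (1 - (p : ℂ)), P, ?_, fun s hs => ?_⟩
      · rw [Pool.Agent.Y230.PS.tr, if_neg hn] at hM ⊢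
        refine H _ one_lt_norm_p M ?_
        rw [if_pos rfl]
        exact hM
      · rw [Polynomial.eval_mul, Polynomial.eval_C]
        exact mul_ne_zero hD hp1
      · have h1 := hP s hs
        have h2 := hrel s hs
        simp only [Polynomial.eval_mul, Polynomial.eval_C, Polynomial.eval_sub,
          Polynomial.eval_X, Polynomial.eval_pow] at h1 ⊢
        rw [← h1, pow_succ]
        linear_combination (-((((tr' p s : ℝ) : ℂ) - p) ^ M *
          (Polynomial.eval ((tr' p s : ℝ) : ℂ) D))) * h2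
  · refine ⟨M, ?_, D * Polynomial.C (1 - (p : ℂ)),
      (Polynomial.X - Polynomial.C (p : ℂ)) * P, ?_, fun s hs => ?_⟩
    · by_cases hn : ‖T0‖ ≤ 1
      · rw [Pool.Agent.Y230.PS.tr, if_pos hn] at hM ⊢
        exact hM
      · rw [Pool.Agent.Y230.PS.tr, if_neg hn] at hM ⊢
        refine H _ (not_le.1 hn) M ?_
        rw [if_neg hT]
        exact hM
    · rw [Polynomial.eval_mul, Polynomial.eval_C]
      exact mul_ne_zero hD hp1
    · have h1 := hP s hs
      have h2 := hrel s hs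
      simp only [Polynomial.eval_mul, Polynomial.eval_C, Polynomial.eval_sub,
        Polynomial.eval_X, Polynomial.eval_pow] at h1 ⊢
      linear_combination (((tr' p s : ℝ) : ℂ) - p) * h1 -
        ((((tr' p s : ℝ) : ℂ) - T0) ^ M * (Polynomial.eval ((tr' p s : ℝ) : ℂ) D)) * h2

/-- the volumes of the boxes -/
theorem Vo_box [Nonempty κ] (K e : ℕ) (he : K ≤ e) :
    Vo (Measure.pi fun _ : κ => mu p)
      (sz fun k : κ => C ((p : ℚ_[p]) ^ K) * (X k : MvPolynomial κ ℚ_[p])) p e =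
    (((p : ℝ)⁻¹) ^ (e - K)) ^ Fintype.card κ := by
  have hq := Pool.Agent.Y287.TH.q_pos (p := p)
  have h1 : ({x : κ → ℤ_[p] | sz (fun k : κ => C ((p : ℚ_[p]) ^ K) *
      (X k : MvPolynomial κ ℚ_[p])) x ≤ ((p : ℝ)⁻¹) ^ e} : Set _) =
      Set.pi Set.univ fun _ : κ => {t : ℤ_[p] | ‖t‖ ≤ ((p : ℝ)⁻¹) ^ (e - K)} := by
    ext x
    rw [Set.mem_univ_pi]
    have h2 := sz_scale (fun k : κ => (X k : MvPolynomial κ ℚ_[p])) K x
    have h3 : ((p : ℝ)⁻¹) ^ e = ((p : ℝ)⁻¹) ^ K * ((p : ℝ)⁻¹) ^ (e - K) := by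
      rw [← pow_add, Nat.add_sub_cancel' he]
    have h4 : sz (fun k : κ => (X k : MvPolynomial κ ℚ_[p])) x ≤ ((p : ℝ)⁻¹) ^ (e - K) ↔
        ∀ i, ‖x i‖ ≤ ((p : ℝ)⁻¹) ^ (e - K) := by
      unfold sz
      rw [pi_norm_le_iff_of_nonneg (pow_nonneg hq.le _)]
      refine forall_congr' fun i => ?_
      rw [eval_X]
      rfl
    rw [Set.mem_ofPred_eq, h2, h3]
    refine Iff.trans ?_ h4
    exact mul_le_mul_iff_right₀ (pow_pos hq K)
  unfold Vo
  rw [h1, Measure.pi_pi]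
  simp only [Pool.Agent.Y287.TH.mu_ball, Finset.prod_const, Finset.card_univ]
  rw [ENNReal.toReal_pow, ENNReal.toReal_pow, ENNReal.toReal_inv, ENNReal.toReal_natCast]

/-- **From the polynomial `g(z) + ∑ y_k x_k` to the polynomial `g`.** -/
theorem FR_unstab [DecidableEq κ] [Nonempty κ] (g : MvPolynomial τ ℚ_[p]) (hg : g ≠ 0)
    (m m' : ℂ → ℕ∞) (H : ∀ T, 1 < ‖T‖ → m ((p : ℂ) ^ Fintype.card κ * T) +
      (if T = (p : ℂ) then 1 else 0) ≤ m' T)
    (h : FR p m (FF fun _ : Fin 1 => (rename Sum.inl (univK fun k : κ => X k) + rename Sum.inr g :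
      MvPolynomial ((κ ⊕ κ) ⊕ τ) ℚ_[p]))) : FR p m' (FF fun _ : Fin 1 => g) := by
  classical
  have hp0 : (p : ℂ) ≠ 0 := by exact_mod_cast (Fact.out : p.Prime).ne_zero
  have hpR : (p : ℝ) ≠ 0 := by exact_mod_cast (Fact.out : p.Prime).ne_zero
  obtain ⟨K1, hK1⟩ := sz_int (p := p) (fun k : κ => (X k : MvPolynomial κ ℚ_[p]))
  obtain ⟨K2, hK2⟩ := sz_int (p := p) (fun _ : Fin 1 => g)
  obtain ⟨K3, hK3⟩ := sz_int (p := p) (fun _ : Fin 1 =>
    (rename Sum.inl (univK fun k : κ => X k) + rename Sum.inr g :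
      MvPolynomial ((κ ⊕ κ) ⊕ τ) ℚ_[p]))
  set K := max K1 (max K2 K3) with hK
  set fK : κ → MvPolynomial κ ℚ_[p] := fun j => C ((p : ℚ_[p]) ^ K) * X j with hfK
  set gK : MvPolynomial τ ℚ_[p] := C ((p : ℚ_[p]) ^ K) * g with hgK
  have hF : (fun _ : Fin 1 => C ((p : ℚ_[p]) ^ K) *
      (rename Sum.inl (univK fun k : κ => X k) + rename Sum.inr g :
      MvPolynomial ((κ ⊕ κ) ⊕ τ) ℚ_[p])) =
      fun _ : Fin 1 => rename Sum.inl (univK fK) + rename Sum.inr gK := by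
    funext _
    unfold univK
    rw [hgK, hfK, mul_add, map_mul, rename_C, map_sum, map_sum, Finset.mul_sum]
    congr 1
    refine Finset.sum_congr rfl fun j _ => ?_
    simp only [map_mul, rename_C]
    ring
  have hv1 : ∀ x, Val p (sz fK x) := fun x => by
    rw [hfK, sz_scale]
    exact hK1 K (le_max_left _ _) x
  have hv2 : ∀ x, Val p (sz (fun _ : Fin 1 => gK) x) := fun x => by
    have := sz_scale (fun _ : Fin 1 => g) K x
    rw [hgK, this]
    exact hK2 K ((le_max_left _ _).trans (le_max_right _ _)) x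
  have hv3 : ∀ x, Val p (sz (fun _ : Fin 1 => rename Sum.inl (univK fK) + rename Sum.inr gK) x) :=
    fun x => by
    rw [← hF]
    have := sz_scale (fun _ : Fin 1 => (rename Sum.inl (univK fun k : κ => X k) +
      rename Sum.inr g : MvPolynomial ((κ ⊕ κ) ⊕ τ) ℚ_[p])) K x
    rw [this]
    exact hK3 K ((le_max_right _ _).trans (le_max_right _ _)) x
  rw [← FR_scaleF _ K, hF] at h
  refine (FR_scaleF (fun _ : Fin 1 => g) K).1 ?_
  change FR p m' (FF fun _ : Fin 1 => gK)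
  have hgK0 : gK ≠ 0 := mul_ne_zero (by
    rw [Ne, C_eq_zero]
    exact pow_ne_zero _ (by exact_mod_cast (Fact.out : p.Prime).ne_zero)) hg
  have hW := Vc_mem _ _ (sz_meas _) hv3 h
  set W := Vc (Measure.pi fun _ : (κ ⊕ κ) ⊕ τ => mu p)
    (sz fun _ : Fin 1 => rename Sum.inl (univK fK) + rename Sum.inr gK) p with hWd
  set V := Vc (Measure.pi fun _ : τ => mu p) (sz fun _ : Fin 1 => gK) p with hVd
  set k := Fintype.card κ with hk
  have hk0 : (p : ℂ) ^ k ≠ 0 := pow_ne_zero _ hp0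
  -- the recursion
  have hrec : ∀ e, K ≤ e + 1 → op (p : ℂ)⁻¹ V e =
      ((p : ℂ) ^ k) ^ (e + 1 - K) * op (p : ℂ)⁻¹ W e := by
    intro e he
    have h3 := Pool.Agent.Y287.TH.tZ p fK gK hv1 hv2 e
    rw [Vo_box K (e + 1) he] at h3
    have h4 := congrArg (fun x : ℝ => (x : ℂ)) h3
    push_cast at h4
    have h5 : (p : ℂ) ^ (e + 1) ≠ 0 := pow_ne_zero _ hp0
    have h6 : (((p : ℂ)⁻¹) ^ (e + 1 - K)) ^ k * ((p : ℂ) ^ k) ^ (e + 1 - K) = 1 := by
      rw [← pow_mul, ← pow_mul, mul_comm k, ← mul_pow, inv_mul_cancel₀ hp0, one_pow]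
    rw [op_apply, op_apply]
    refine mul_left_cancel₀ h5 ?_
    have h7 : (p : ℂ) ^ (e + 1) * (p : ℂ)⁻¹ = (p : ℂ) ^ e := by
      rw [pow_succ, mul_assoc, mul_inv_cancel₀ hp0, mul_one]
    have h8 : (p : ℂ) ^ (e + 1) * (V (e + 1) - (p : ℂ)⁻¹ * V e) =
        (p : ℂ) ^ (e + 1) * V (e + 1) - (p : ℂ) ^ e * V e := by
      rw [← h7]; ring
    have h9 : (p : ℂ) ^ (e + 1) * (((p : ℂ) ^ k) ^ (e + 1 - K) *
        (W (e + 1) - (p : ℂ)⁻¹ * W e)) = ((p : ℂ) ^ k) ^ (e + 1 - K) *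
        ((p : ℂ) ^ (e + 1) * W (e + 1) - (p : ℂ) ^ e * W e) := by
      rw [← h7]; ring
    rw [h8, h9]
    have h10 : (p : ℂ) ^ (e + 1) * W (e + 1) - (p : ℂ) ^ e * W e =
        (((p : ℂ)⁻¹) ^ (e + 1 - K)) ^ k *
          ((p : ℂ) ^ (e + 1) * V (e + 1) - (p : ℂ) ^ e * V e) := h4
    rw [h10, ← mul_assoc, mul_comm (((p : ℂ) ^ k) ^ (e + 1 - K)), h6, one_mul]
  -- the exponential sequence
  set d : ℕ → ℂ := fun e => ((p : ℂ) ^ k) ^ (e + 1) * (((p : ℂ) ^ k) ^ K)⁻¹ with hd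
  have hdm : d ∈ EP fun T => if T = ((p : ℂ) ^ k)⁻¹ then 1 else 0 := by
    refine Submodule.subset_span ⟨((p : ℂ) ^ k)⁻¹, inv_ne_zero hk0, 1, ?_, ?_⟩
    · beta_reduce
      rw [if_pos rfl]
      exact_mod_cast le_rfl
    · rw [inv_inv]
      refine (mem_K_succ _ _ _).2 ⟨0, fun e _ => ?_⟩
      rw [op_apply, hd]
      ring
  have hprod : op (p : ℂ)⁻¹ V - d * op (p : ℂ)⁻¹ W ∈ N0 := by
    refine ⟨K, fun e he => ?_⟩
    rw [Pi.sub_apply, Pi.mul_apply, hrec e (by omega), hd]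
    have h1 : ((p : ℂ) ^ k) ^ (e + 1) * (((p : ℂ) ^ k) ^ K)⁻¹ =
        ((p : ℂ) ^ k) ^ (e + 1 - K) := by
      rw [← div_eq_mul_inv, div_eq_iff (pow_ne_zero _ hk0), ← pow_add]
      congr 1
      omega
    beta_reduce
    rw [h1, sub_self]
  have hopW : op (p : ℂ)⁻¹ W ∈ EP (Pool.Agent.Y230.PS.tr m) := by
    refine EP_mono (fun T hT => ?_) (EP_op (Pool.Agent.Y230.PS.tr m) (p : ℂ) W hW)
    split_ifs
    · exact tsub_le_self
    · exact le_rfl
  have hopV : op (p : ℂ)⁻¹ V ∈ EP fun T => Pool.Agent.Y230.PS.tr m ((p : ℂ) ^ k * T) := by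
    have h1 : op (p : ℂ)⁻¹ V = (op (p : ℂ)⁻¹ V - d * op (p : ℂ)⁻¹ W) +
        d * op (p : ℂ)⁻¹ W := by ring
    rw [h1]
    refine Submodule.add_mem _ (N0_EP _ hprod) ?_
    refine had _ _ _ (fun T1 T2 hT1 hT2 a b ha hb h5 h6 => ?_) _ _ hdm hopW
    beta_reduce at h5 ⊢
    have hT : T1 = ((p : ℂ) ^ k)⁻¹ := by
      by_contra hne
      rw [if_neg hne] at h5
      have : (a : ℕ∞) = 0 := nonpos_iff_eq_zero.1 h5
      have : a = 0 := by exact_mod_cast this
      omega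
    rw [if_pos hT] at h5
    have ha1 : a ≤ 1 := by exact_mod_cast h5
    have h7 : a + b - 1 = b := by omega
    rw [h7, hT, mul_inv_cancel_left₀ hk0]
    exact h6
  have hV := EP_of_op _ _ hp0 V hopV
  refine FR_of_EP (p := p) (Measure.pi fun _ : τ => mu p) (sz fun _ : Fin 1 => gK)
    (sz_meas _) hv2 ?_ hV fun T hT => ?_
  · have h1 := null_zero (p := p) gK hgK0
    refine measure_mono_null ?_ h1
    intro x hx
    have h2 : sz (fun _ : Fin 1 => gK) x ≤ 0 := hx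
    have h3 : ‖eval (fun i => inc p (x i)) gK‖ ≤ sz (fun _ : Fin 1 => gK) x :=
      norm_le_pi_norm (fun _ : Fin 1 => eval (fun i => inc p (x i)) gK) 0
    exact norm_le_zero_iff.1 (h3.trans h2)
  · refine le_trans ?_ (H T hT)
    beta_reduce
    refine add_le_add ?_ le_rfl
    unfold Pool.Agent.Y230.PS.tr
    split_ifs
    · exact bot_le
    · exact le_rfl

end Pool.Agent.K6.H42.SE
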