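import Pool.Agent.Y230.PS.Fam2
import Pool.Agent.K6.H42.SE.Def0

set_option autoImplicit false
set_option linter.unusedSectionVars false
set_option linter.unusedVariables false

/-! # Automorphisms of `ℤ_(p)[x]` preserve the measure of `ℤ_p ^ n` -/

namespace Pool.Agent.K6.H42.SE

open MeasureTheory MvPolynomial
open Pool.Agent.W427.SMC Pool.Agent.Y230.PT Pool.Agent.Y230.PS
open scoped ENNReal
open Filter Topology

attribute [local instance] msZ bsZ

variable {p : ℕ} [Fact p.Prime]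
variable {σ ι κ : Type} [Fintype σ] [Fintype ι] [Fintype κ]

/-- **Isometries preserve the measure.** -/
theorem mp_isom (Ψ Ψ' : (σ → ℤ_[p]) → (σ → ℤ_[p])) (h1 : ∀ x, Ψ' (Ψ x) = x)
    (h2 : ∀ x, Ψ (Ψ' x) = x) (d1 : ∀ x y, dist (Ψ x) (Ψ y) ≤ dist x y)
    (d2 : ∀ x y, dist (Ψ' x) (Ψ' y) ≤ dist x y) :
    MeasurePreserving Ψ (Measure.pi fun _ : σ => mu p) (Measure.pi fun _ : σ => mu p) := by
  classical
  have hc : Continuous Ψ := (LipschitzWith.of_dist_le_mul (K := 1) (by simpa using d1)).continuous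
  refine ⟨hc.measurable, ?_⟩
  set C : Set (Set (σ → ℤ_[p])) := {s | ∃ (y : σ → ℤ_[p]) (r : ℝ), 0 < r ∧
    s = Metric.closedBall y r} with hC
  have hbasis : TopologicalSpace.IsTopologicalBasis C := by
    refine TopologicalSpace.isTopologicalBasis_of_isOpen_of_nhds ?_ ?_
    · rintro _ ⟨y, r, hr, rfl⟩
      exact IsUltrametricDist.isOpen_closedBall y hr.ne'
    · intro a u ha hu
      obtain ⟨r, hr, h3⟩ := Metric.nhds_basis_closedBall.mem_iff.1 (hu.mem_nhds ha)
      exact ⟨_, ⟨a, r, hr, rfl⟩, Metric.mem_closedBall_self hr.le, h3⟩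
  have hgen : (MeasurableSpace.pi : MeasurableSpace (σ → ℤ_[p])) =
      MeasurableSpace.generateFrom C := by
    rw [← hbasis.borel_eq_generateFrom]
    exact BorelSpace.measurable_eq
  have hpi : IsPiSystem C := by
    rintro _ ⟨y, r, hr, rfl⟩ _ ⟨z, t, ht, rfl⟩ hne
    rcases IsUltrametricDist.closedBall_subset_trichotomy y z r t with h | h | h
    · rw [Set.inter_eq_left.2 h]
      exact ⟨y, r, hr, rfl⟩
    · rw [Set.inter_eq_right.2 h]
      exact ⟨z, t, ht, rfl⟩
    · exact absurd hne (Set.not_nonempty_iff_eq_empty.2 (Set.disjoint_iff_inter_eq_empty.1 h))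
  have htr : ∀ (y : σ → ℤ_[p]) (r : ℝ), (Measure.pi fun _ : σ => mu p) (Metric.closedBall y r) =
      (Measure.pi fun _ : σ => mu p) (Metric.closedBall 0 r) := by
    intro y r
    rw [← measure_preimage_add (Measure.pi fun _ : σ => mu p) (-y) (Metric.closedBall 0 r)]
    congr 1
    ext x
    rw [Set.mem_preimage, Metric.mem_closedBall, Metric.mem_closedBall, dist_zero_right,
      dist_eq_norm]
    congr! 2
    abel
  refine ext_of_generate_finite C hgen hpi ?_ ?_
  · rintro _ ⟨y, r, hr, rfl⟩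
    rw [Measure.map_apply hc.measurable measurableSet_closedBall]
    have h3 : Ψ ⁻¹' Metric.closedBall y r = Metric.closedBall (Ψ' y) r := by
      ext x
      rw [Set.mem_preimage, Metric.mem_closedBall, Metric.mem_closedBall]
      constructor
      · intro h
        have h4 := d2 (Ψ x) y
        rw [h1] at h4
        exact h4.trans h
      · intro h
        have h4 := d1 x (Ψ' y)
        rw [h2] at h4
        exact h4.trans h
    rw [h3, htr, htr y]
  · rw [Measure.map_apply hc.measurable MeasurableSet.univ, Set.preimage_univ]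

theorem exists_lift (q : MvPolynomial σ ℚ) (hq : PInt p q) : ∃ r : MvPolynomial σ ℤ_[p],
    map PadicInt.Coe.ringHom r = map (algebraMap ℚ ℚ_[p]) q := by
  have h := (MvPolynomial.mem_range_map_iff_coeffs_subset (f := PadicInt.Coe.ringHom (p := p))
    (x := map (algebraMap ℚ ℚ_[p]) q)).2 ?_
  · obtain ⟨r, hr⟩ := h
    exact ⟨r, hr⟩
  · intro a ha
    rw [Finset.mem_coe, MvPolynomial.mem_coeffs_iff] at ha
    obtain ⟨m, -, rfl⟩ := ha
    rw [coeff_map]
    exact ⟨⟨((coeff m q : ℚ) : ℚ_[p]), Padic.norm_rat_le_one (hq m)⟩, rfl⟩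

theorem eval_lip (r : MvPolynomial σ ℤ_[p]) (x y : σ → ℤ_[p]) :
    ‖eval x r - eval y r‖ ≤ dist x y := by
  induction r using MvPolynomial.induction_on with
  | C a => simp
  | add q r hq hr =>
    rw [map_add, map_add]
    have e : eval x q + eval x r - (eval y q + eval y r) = (eval x q - eval y q) +
        (eval x r - eval y r) := by ring
    rw [e]
    exact (PadicInt.nonarchimedean _ _).trans (max_le hq hr)
  | mul_X q i hq =>
    rw [map_mul, map_mul, eval_X, eval_X]
    have e : eval x q * x i - eval y q * y i = (eval x q - eval y q) * x i +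
        eval y q * (x i - y i) := by ring
    rw [e]
    refine (PadicInt.nonarchimedean _ _).trans (max_le ?_ ?_)
    · rw [norm_mul]
      exact (mul_le_of_le_one_right (norm_nonneg _) (PadicInt.norm_le_one _)).trans hq
    · rw [norm_mul]
      refine (mul_le_of_le_one_left (norm_nonneg _) (PadicInt.norm_le_one _)).trans ?_
      rw [← dist_eq_norm]
      exact dist_le_pi_dist x y i

theorem eval_mapQ (y : σ → ℚ_[p]) (g : MvPolynomial σ ℚ) :
    eval y (map (algebraMap ℚ ℚ_[p]) g) = aeval y g := by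
  rw [eval_map, aeval_def]

theorem eval_inc (q : MvPolynomial σ ℤ_[p]) (x : σ → ℤ_[p]) :
    eval (fun i => inc p (x i)) (map PadicInt.Coe.ringHom q) = inc p (eval x q) := by
  rw [eval_map]
  exact eval₂_comp_left PadicInt.Coe.ringHom (RingHom.id ℤ_[p]) x q ▸ rfl

/-- the map of `ℤ_p ^ n` defined by the automorphism -/
theorem exists_map (Φ : MvPolynomial σ ℚ ≃ₐ[ℚ] MvPolynomial σ ℚ) (h : ∀ i, PInt p (Φ (X i))) :
    ∃ Ψ : (σ → ℤ_[p]) → (σ → ℤ_[p]), (∀ x y, dist (Ψ x) (Ψ y) ≤ dist x y) ∧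
      ∀ (x : σ → ℤ_[p]) (g : MvPolynomial σ ℚ),
        aeval (fun i => inc p (x i)) (Φ g) = aeval (fun i => inc p (Ψ x i)) g := by
  choose q hq using fun i => exists_lift (p := p) (Φ (X i)) (h i)
  refine ⟨fun x i => eval x (q i), fun x y => ?_, fun x g => ?_⟩
  · refine (dist_pi_le_iff dist_nonneg).2 fun i => ?_
    rw [dist_eq_norm]
    exact eval_lip _ _ _
  · have e : (aeval (fun i => inc p (x i)) : MvPolynomial σ ℚ →ₐ[ℚ] ℚ_[p]).comp
        (Φ : MvPolynomial σ ℚ →ₐ[ℚ] MvPolynomial σ ℚ) =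
        aeval (fun i => inc p (eval x (q i))) := by
      apply MvPolynomial.algHom_ext
      intro i
      rw [AlgHom.comp_apply, aeval_X, ← eval_inc, hq, eval_mapQ]
      rfl
    exact DFunLike.congr_fun e g

/-- **Invariance under automorphisms.** -/
theorem FF_auto (Φ : MvPolynomial σ ℚ ≃ₐ[ℚ] MvPolynomial σ ℚ) (h1 : ∀ i, PInt p (Φ (X i)))
    (h2 : ∀ i, PInt p (Φ.symm (X i))) (f : ι → MvPolynomial σ ℚ) (s : ℝ) :
    FF (fun j => map (algebraMap ℚ ℚ_[p]) (Φ (f j))) s =
      FF (fun j => map (algebraMap ℚ ℚ_[p]) (f j)) s := by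
  obtain ⟨Ψ, d1, e1⟩ := exists_map (p := p) Φ h1
  obtain ⟨Ψ', d2, e2⟩ := exists_map (p := p) Φ.symm h2
  have i1 : ∀ x, Ψ' (Ψ x) = x := by
    intro x
    funext i
    apply (inc_emb p).injective
    have h3 := e2 (Ψ x) (X i)
    rw [← e1, AlgEquiv.apply_symm_apply, aeval_X, aeval_X] at h3
    exact h3.symm
  have i2 : ∀ x, Ψ (Ψ' x) = x := by
    intro x
    funext i
    apply (inc_emb p).injective
    have h3 := e1 (Ψ' x) (X i)
    rw [← e2, AlgEquiv.symm_apply_apply, aeval_X, aeval_X] at h3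
    exact h3.symm
  have hmp := mp_isom Ψ Ψ' i1 i2 d1 d2
  have hsz : ∀ x, sz (fun j => map (algebraMap ℚ ℚ_[p]) (Φ (f j))) x =
      sz (fun j => map (algebraMap ℚ ℚ_[p]) (f j)) (Ψ x) := by
    intro x
    unfold sz
    simp only [eval_mapQ, e1]
  unfold FF FZ
  simp only [hsz]
  have hmeas : Measurable (fun x : σ → ℤ_[p] => ENNReal.ofReal
      (sz (fun j => map (algebraMap ℚ ℚ_[p]) (f j)) x ^ s)) :=
    ENNReal.measurable_ofReal.comp ((sz_meas _).pow_const s)
  rw [hmp.lintegral_comp hmeas]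

/-- `p`-integral combinations -/
theorem sz_le_of_comb (f : ι → MvPolynomial σ ℚ) (g : κ → MvPolynomial σ ℚ)
    (M : κ → ι → MvPolynomial σ ℚ) (hM : ∀ k j, PInt p (M k j))
    (h : ∀ k, g k = ∑ j, M k j * f j) (x : σ → ℤ_[p]) :
    sz (fun k => map (algebraMap ℚ ℚ_[p]) (g k)) x ≤
      sz (fun j => map (algebraMap ℚ ℚ_[p]) (f j)) x := by
  unfold sz
  refine (pi_norm_le_iff_of_nonneg (norm_nonneg _)).2 fun k => ?_
  beta_reduce
  rw [h k, map_sum, map_sum]
  refine IsUltrametricDist.norm_sum_le_of_forall_le_of_nonneg (norm_nonneg _) fun j _ => ?_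
  rw [map_mul, map_mul, norm_mul]
  obtain ⟨q, hq⟩ := exists_lift (p := p) (M k j) (hM k j)
  have h1 : ‖eval (fun i => inc p (x i)) (map (algebraMap ℚ ℚ_[p]) (M k j))‖ ≤ 1 := by
    rw [← hq, eval_inc]
    exact (eval x q).2
  have h2 := norm_le_pi_norm (fun j => eval (fun i => inc p (x i))
    (map (algebraMap ℚ ℚ_[p]) (f j))) j
  calc _ ≤ 1 * ‖(fun j => eval (fun i => inc p (x i)) (map (algebraMap ℚ ℚ_[p]) (f j)))‖ := by
        gcongr
    _ = _ := one_mul _

/-- **Invariance under `p`-integral changes of the generators.** -/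
theorem FF_gens (f : ι → MvPolynomial σ ℚ) (g : κ → MvPolynomial σ ℚ)
    (M : κ → ι → MvPolynomial σ ℚ) (N : ι → κ → MvPolynomial σ ℚ) (hM : ∀ k j, PInt p (M k j))
    (hN : ∀ j k, PInt p (N j k)) (h : ∀ k, g k = ∑ j, M k j * f j)
    (h' : ∀ j, f j = ∑ k, N j k * g k) (s : ℝ) :
    FF (fun k => map (algebraMap ℚ ℚ_[p]) (g k)) s =
      FF (fun j => map (algebraMap ℚ ℚ_[p]) (f j)) s := by
  have h1 : sz (fun k => map (algebraMap ℚ ℚ_[p]) (g k)) =
      sz (p := p) (fun j => map (algebraMap ℚ ℚ_[p]) (f j)) := funext fun x =>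
    le_antisymm (sz_le_of_comb f g M hM h x) (sz_le_of_comb g f N hN h' x)
  unfold FF
  rw [h1]

end Pool.Agent.K6.H42.SE
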