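import Pool.Agent.K6.H42.SE.Cl
import Pool.Agent.K6.H42.SE.FK
import Pool.Agent.K6.H42.SE.Isom
import Pool.Agent.K6.H42.SE.Inv
import Pool.Agent.R852.PP.Main

set_option autoImplicit false

/-! # The monodromy properties of ideals and hypersurfaces, and the closure operations -/

namespace Pool.Agent.K6.H42.SE

open Pool.Agent.Y230.PT Pool.Agent.Y230.PS Pool.Agent.Y230.TH Pool.Agent.R852.PP
open Pool.Agent.W427.SMC Pool.Agent.W574.SM

/-- **The strong monodromy property at `p`** of the ideal `I` which is generated by the family `A`.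
`FF (A.toP p) s` is the integral `Z(s)` of `max_j |f_j(x)|_p ^ s` over `ℤ_p ^ n`, `tr' p s = p ^ (-s)`, and
`rr p T = -log |T| / log p`. The function `Z` is a rational function `P / D` of `p ^ (-s)`, the poles
`T₀ ≠ 0` satisfy `|T₀| > 1`, and `-log |T₀| / log p` is a root of all the polynomials `b` with a functional
equation, in the version with orders (`o = true`) with a multiplicity which is at least the order of the
pole. -/
def SM (p : ℕ) [Fact p.Prime] (o : Bool) (A : FamQ) : Prop :=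
  ∃ D P : Polynomial ℂ, D ≠ 0 ∧
    (∀ s : ℝ, 0 ≤ s → D.eval ((tr' p s : ℝ) : ℂ) * FF (A.toP p) s = P.eval ((tr' p s : ℝ) : ℂ)) ∧
    ∀ T₀ : ℂ, T₀ ≠ 0 → D.eval T₀ = 0 → 1 < ‖T₀‖ ∧ ∀ b : Polynomial ℂ, IsFunctionalEq A.toC b →
      (Polynomial.X - Polynomial.C ((rr p T₀ : ℝ) : ℂ)) ^ cap o (D.rootMultiplicity T₀) ∣ b

open Classical in
/-- **The reduced strong monodromy property at `p`**, for a polynomial `f` (a family with one member):
the same with the reduced polynomials `b(s) / (s + 1)`, except for the simple pole at `T₀ = p`. So a pole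
`T₀ ≠ p` of order `k` gives a root of `b(s) / (s + 1)` of multiplicity `k`, and a pole of order `k + 1` at
`T₀ = p` gives the root `-1` of `b(s) / (s + 1)` of multiplicity `k`. -/
def RSM (p : ℕ) [Fact p.Prime] (o : Bool) (A : FamQ) : Prop :=
  ∃ D P : Polynomial ℂ, D ≠ 0 ∧
    (∀ s : ℝ, 0 ≤ s → D.eval ((tr' p s : ℝ) : ℂ) * FF (A.toP p) s = P.eval ((tr' p s : ℝ) : ℂ)) ∧
    ∀ T₀ : ℂ, T₀ ≠ 0 → D.eval T₀ = 0 → 1 < ‖T₀‖ ∧ ∀ b : Polynomial ℂ, IsFunctionalEq A.toC b →
      (Polynomial.X - Polynomial.C ((rr p T₀ : ℝ) : ℂ)) ^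
        (cap o (D.rootMultiplicity T₀ - (if T₀ = (p : ℂ) then 1 else 0)) +
          (if ((rr p T₀ : ℝ) : ℂ) = -1 then 1 else 0)) ∣ b

/-- the property of the families of the two kinds: of ideals (`c = false`) and polynomials
(`c = true`) -/
def Holds (p : ℕ) [Fact p.Prime] (o c : Bool) (A : FamQ) : Prop :=
  (∃ j, A.f j ≠ 0) ∧ if c = true then RSM p o A else SM p o A

end Pool.Agent.K6.H42.SE
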