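import Pool.Agent.K6.H42.SE.Sparse
import Pool.Agent.K6.H42.SE.DefD
import Pool.Agent.R852.MX.PAdic2

set_option autoImplicit false
set_option linter.unusedSectionVars false
set_option linter.unusedVariables false

/-! # Products of determinantal ideals -/

namespace Pool.Agent.K6.H42.SE

open MeasureTheory MvPolynomial Pool.Agent.W427.SMC Pool.Agent.Y230.PT Pool.Agent.Y230.PS
open Pool.Agent.Y230.TH Pool.Agent.W574.SM Pool.Agent.W574.RO
open Pool.Agent.TH192.DT Pool.Agent.TH192.PA Pool.Agent.TH192.MT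
open scoped ENNReal NNReal
open Filter Topology

attribute [local instance] msZ bsZ

variable {p : ℕ} [Fact p.Prime]

theorem ev_Z {V : Type} [Fintype V] (f : MvPolynomial V ℤ) (x : V → ℤ_[p]) :
    eval (fun i => inc p (x i)) (map (algebraMap ℚ ℚ_[p]) (map (Int.castRingHom ℚ) f)) =
      inc p (aeval x f) := by
  rw [MvPolynomial.map_map, eval_map]
  have h : (PadicInt.Coe.ringHom (p := p)).comp
      (aeval x : MvPolynomial V ℤ →ₐ[ℤ] ℤ_[p]).toRingHom =
      eval₂Hom ((algebraMap ℚ ℚ_[p]).comp (Int.castRingHom ℚ)) (fun i => inc p (x i)) := by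
    apply MvPolynomial.ringHom_ext
    · intro a
      simp
    · intro i
      simp [inc]
  exact (congrArg (fun ψ : MvPolynomial V ℤ →+* ℚ_[p] => ψ f) h).symm

theorem sz_det (S : MSpace) {T : ℕ} (k : Fin T → ℕ) (hk : ∀ t, S.Small (k t))
    (x : S.Var → ℤ_[p]) : sz ((detFam S k).toP p) x = ((∏ t, nS S (k t) x : ℝ≥0) : ℝ) := by
  classical
  unfold sz
  rw [Pi.norm_def]
  congr 1
  have h7 := Pool.Agent.R852.MX.sup_prod (fun t : Fin T => S.idx_nonempty (k t) (hk t))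
    (fun (t : Fin T) (j : S.Idx (k t)) => ‖aeval x (S.minorsZ (k t) j)‖₊)
  refine Eq.trans ?_ h7
  refine Finset.sup_congr rfl fun J _ => ?_
  rw [← nnnorm_prod]
  change ‖eval (fun i => inc p (x i)) (map (algebraMap ℚ ℚ_[p])
    (∏ t, map (Int.castRingHom ℚ) (minor S (k t) (J t))))‖₊ = _
  rw [← map_prod, ev_Z, map_prod]
  simp only [minor_eq]
  rfl

/-- a rational function for `s > 0` -/
theorem rat_zero {Ω : Type} [MeasurableSpace Ω] (μ : Measure Ω) [IsProbabilityMeasure μ] (ρ : Ω → ℝ)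
    (hm : Measurable ρ) (h01 : ∀ x, 0 ≤ ρ x ∧ ρ x ≤ 1) (h0 : μ {x | ρ x ≤ 0} = 0)
    (D P : Polynomial ℂ) (h : ∀ s : ℝ, 0 < s →
      D.eval ((tr' p s : ℝ) : ℂ) * FZ μ ρ s = P.eval ((tr' p s : ℝ) : ℂ)) (s : ℝ) (hs : 0 ≤ s) :
    D.eval ((tr' p s : ℝ) : ℂ) * FZ μ ρ s = P.eval ((tr' p s : ℝ) : ℂ) := by
  rcases hs.eq_or_lt with rfl | hs
  swap
  · exact h s hs
  have hp : (0 : ℝ) < p := by exact_mod_cast (Fact.out : p.Prime).pos
  have hmp : Measurable fun s : ℝ => s := measurable_id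
  have h1 : Tendsto (fun s : ℝ => ∫⁻ x, ENNReal.ofReal (ρ x ^ s) ∂μ) (𝓝[>] 0)
      (𝓝 (∫⁻ x, ENNReal.ofReal (ρ x ^ (0 : ℝ)) ∂μ)) := by
    refine tendsto_lintegral_filter_of_dominated_convergence (fun _ => 1)
      (Eventually.of_forall fun s => (hm.pow_const s).ennreal_ofReal) ?_ (by simp) ?_
    · refine eventually_nhdsWithin_of_forall fun s hs => Eventually.of_forall fun x => ?_
      rw [← ENNReal.ofReal_one]
      exact ENNReal.ofReal_le_ofReal (Real.rpow_le_one (h01 x).1 (h01 x).2 (le_of_lt hs))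
    · have h2 : ∀ᵐ x ∂μ, ¬ ρ x ≤ 0 := by
        rw [ae_iff]
        simpa using h0
      filter_upwards [h2] with x hx
      refine (ENNReal.continuous_ofReal.tendsto _).comp ?_
      have h3 : ContinuousAt (fun s : ℝ => ρ x ^ s) 0 :=
        Real.continuousAt_const_rpow (ne_of_gt (not_le.1 hx))
      exact h3.tendsto.mono_left nhdsWithin_le_nhds
  have hfin : (∫⁻ x, ENNReal.ofReal (ρ x ^ (0 : ℝ)) ∂μ) ≠ ⊤ := by
    simp
  have h2 : Tendsto (fun s : ℝ => FZ μ ρ s) (𝓝[>] 0) (𝓝 (FZ μ ρ 0)) := by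
    unfold FZ
    exact (Complex.continuous_ofReal.tendsto _).comp ((ENNReal.tendsto_toReal hfin).comp h1)
  have h3 : Tendsto (fun s : ℝ => ((tr' p s : ℝ) : ℂ)) (𝓝[>] 0) (𝓝 ((tr' p 0 : ℝ) : ℂ)) := by
    have h4 : Continuous fun s : ℝ => ((tr' p s : ℝ) : ℂ) := by
      unfold tr'
      exact Complex.continuous_ofReal.comp (continuous_const.rpow continuous_neg
        fun _ => Or.inl hp.ne')
    exact (h4.tendsto 0).mono_left nhdsWithin_le_nhds
  have h5 : Tendsto (fun s : ℝ => D.eval ((tr' p s : ℝ) : ℂ) * FZ μ ρ s) (𝓝[>] 0)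
      (𝓝 (D.eval ((tr' p 0 : ℝ) : ℂ) * FZ μ ρ 0)) :=
    ((D.continuous.tendsto _).comp h3).mul h2
  have h6 : Tendsto (fun s : ℝ => P.eval ((tr' p s : ℝ) : ℂ)) (𝓝[>] 0)
      (𝓝 (P.eval ((tr' p 0 : ℝ) : ℂ))) := (P.continuous.tendsto _).comp h3
  refine tendsto_nhds_unique h5 (h6.congr' ?_)
  exact eventually_nhdsWithin_of_forall fun s hs => (h s hs).symm

theorem toC_det (S : MSpace) {T : ℕ} (k : Fin T → ℕ) :
    (detFam S k).toC = prodFam fun t => S.minors (k t) := by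
  funext J
  change map (algebraMap ℚ ℂ) (∏ t, map (Int.castRingHom ℚ) (minor S (k t) (J t))) =
    ∏ t, S.minors (k t) (J t)
  rw [map_prod]
  refine Finset.prod_congr rfl fun t _ => ?_
  rw [MvPolynomial.map_map, minor_eq, ← S.map_minorsZ]
  congr 1

theorem det_ne (S : MSpace) {T : ℕ} (k : Fin T → ℕ) (hk : ∀ t, S.Small (k t)) :
    ∃ j, (detFam S k).f j ≠ 0 := by
  choose j hj using fun t => S.minors_ne (k t) (hk t)
  refine ⟨j, fun h0 => ?_⟩
  have h1 : (detFam S k).toC j = 0 := by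
    change map (algebraMap ℚ ℂ) ((detFam S k).f j) = 0
    rw [h0, map_zero]
  rw [toC_det] at h1
  exact Finset.prod_ne_zero_iff.2 (fun t _ => hj t) h1

/-- the zeta function -/
theorem det_rat (S : MSpace) {T : ℕ} (k : Fin T → ℕ) (hk : ∀ t, S.Small (k t)) :
    ∃ P : Polynomial ℂ, ∀ s : ℝ, 0 < s →
      (Rc p (fun d : Fin S.rk => S.codim d) (fun d => ∑ t, (k t - (d : ℕ)))).eval
        ((tr' p s : ℝ) : ℂ) * Pool.Agent.Y230.PS.FF ((detFam S k).toP p) s = P.eval ((tr' p s : ℝ) : ℂ) := by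
  classical
  have hq0 : (p : ℂ) ≠ 0 := by exact_mod_cast (Fact.out : p.Prime).ne_zero
  obtain ⟨P, hP⟩ := int_norms (q := p) S T k (fun _ => 1) hk
  refine ⟨Polynomial.C (∏ d ∈ Finset.range S.rk, ((p ^ S.codim d : ℕ) : ℂ)) *
    P.map Complex.ofRealHom, fun s hs => ?_⟩
  have hG : Pool.Agent.Y230.PS.FF ((detFam S k).toP p) s = (((∫⁻ x : S.Var → ℤ_[p],
      ∏ t, ((nS S (k t) x : ℝ≥0) : ℝ≥0∞) ^ (((1 : ℕ) : ℝ) * s) ∂(Pool.Agent.TH192.PA.hm p S.Var)).toReal : ℝ) : ℂ) := by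
    unfold Pool.Agent.Y230.PS.FF FZ
    congr 2
    refine lintegral_congr fun x => ?_
    rw [sz_det S k hk x, ← NNReal.coe_rpow, ENNReal.ofReal_coe_nnreal,
      ENNReal.coe_rpow_of_nonneg _ hs.le, ENNReal.ofNNReal_finsetProd,
      ← ENNReal.prod_rpow_of_nonneg hs.le]
    simp
  rw [hG]
  set G : ℝ := (∫⁻ x : S.Var → ℤ_[p],
      ∏ t, ((nS S (k t) x : ℝ≥0) : ℝ≥0∞) ^ (((1 : ℕ) : ℝ) * s) ∂(Pool.Agent.TH192.PA.hm p S.Var)).toReal
  have h1 : (Pool.Agent.TH192.PA.Dd p S.codim (fun d => ∑ t, 1 * (k t - d)) S.rk 0).eval (tr' p s) *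
      G = P.eval (tr' p s) := hP s hs
  have h2 : ((P.eval (tr' p s) : ℝ) : ℂ) = (P.map Complex.ofRealHom).eval ((tr' p s : ℝ) : ℂ) := by
    rw [Polynomial.eval_map]
    exact (Polynomial.hom_eval₂ P (RingHom.id ℝ) Complex.ofRealHom (tr' p s)).symm ▸ rfl
  have h3 : (Rc p (fun d : Fin S.rk => S.codim d) (fun d => ∑ t, (k t - (d : ℕ)))).eval
      ((tr' p s : ℝ) : ℂ) = ∏ d ∈ Finset.range S.rk, (((p ^ S.codim d : ℕ) : ℂ) -
        (tr' p s : ℂ) ^ (∑ t, (k t - d))) := by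
    unfold Rc
    rw [Polynomial.eval_prod, Finset.prod_range]
    refine Finset.prod_congr rfl fun d _ => ?_
    rw [Polynomial.eval_sub, Polynomial.eval_C, Polynomial.eval_pow, Polynomial.eval_X]
  have h4 : (((Pool.Agent.TH192.PA.Dd p S.codim (fun d => ∑ t, 1 * (k t - d)) S.rk 0).eval (tr' p s) : ℝ) : ℂ) *
      (∏ d ∈ Finset.range S.rk, ((p ^ S.codim d : ℕ) : ℂ)) =
      ∏ d ∈ Finset.range S.rk, (((p ^ S.codim d : ℕ) : ℂ) -
        (tr' p s : ℂ) ^ (∑ t, (k t - d))) := by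
    unfold Pool.Agent.TH192.PA.Dd
    rw [Polynomial.eval_prod, Complex.ofReal_prod, Nat.Ico_zero_eq_range,
      ← Finset.prod_mul_distrib]
    refine Finset.prod_congr rfl fun d _ => ?_
    rw [Polynomial.eval_sub, Polynomial.eval_one, Polynomial.eval_mul, Polynomial.eval_C,
      Polynomial.eval_pow, Polynomial.eval_X]
    simp only [one_mul]
    push_cast
    rw [inv_pow]
    have h5 : (p : ℂ) ^ S.codim d ≠ 0 := pow_ne_zero _ hq0
    field_simp
  rw [h3, Polynomial.eval_mul, Polynomial.eval_C, ← h2, ← h1, ← h4]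
  push_cast
  ring

/-- the roots -/
theorem det_root (S : MSpace) {T : ℕ} (k : Fin T → ℕ) (hk : ∀ t, S.Small (k t)) (d : Fin S.rk)
    (hd : 0 < ∑ t, (k t - (d : ℕ))) :
    FK (detFam S k) (-((S.codim d : ℂ) / (∑ t, (k t - (d : ℕ)) : ℕ))) 1 := by
  intro b hb
  rw [toC_det] at hb
  have h1 := Pool.Agent.R852.MX.ideal_rootsF S k hk b 1
    (by rw [map_one]; exact one_ne_zero) (isLocEq_of_isFunctionalEq hb) d 0 hd
  rw [pow_one, Polynomial.dvd_iff_isRoot, Polynomial.IsRoot.def]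
  rw [Nat.cast_zero, add_zero, neg_div] at h1
  exact h1

/-- **The products of determinantal ideals.** -/
theorem hf_det {o : Bool} (S : MSpace) {T : ℕ} (k : Fin T → ℕ) (hk : ∀ t, S.Small (k t))
    (ho : o = true → DistRatios S k) : HF p o false (detFam S k) := by
  classical
  have hp1 : 1 < p := (Fact.out : p.Prime).one_lt
  have hpR : (1 : ℝ) < p := by exact_mod_cast hp1
  have hlp : 0 < Real.log p := Real.log_pos hpR
  refine ⟨det_ne S k hk, ?_⟩
  rw [if_neg Bool.false_ne_true]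
  obtain ⟨P, hP⟩ := det_rat (p := p) S k hk
  have hν : ∀ d : Fin S.rk, 0 < S.codim d := fun d => S.nu_pos 0 (Sum.inl d)
  obtain ⟨j, hj⟩ := det_ne S k hk
  have hK : map (algebraMap ℚ ℚ_[p]) ((detFam S k).f j) ≠ 0 := fun h0 =>
    hj (map_injective _ (algebraMap ℚ ℚ_[p]).injective (by rw [h0, map_zero]))
  refine FR_of_rat (Rc p (fun d : Fin S.rk => S.codim d) (fun d => ∑ t, (k t - (d : ℕ)))) P
    (Rc_ne p hp1 _ _ hν) (fun s hs => ?_) fun T hT => ?_
  · refine rat_zero (Measure.pi fun _ : S.Var => mu p) (sz ((detFam S k).toP p)) (sz_meas _)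
      (fun x => ⟨sz_nonneg _ _, ?_⟩) ?_ _ P hP s hs
    · rw [sz_det S k hk x]
      have h1 : ∀ t, nS S (k t) x ≤ 1 := fun t => by
        unfold nS
        refine Finset.sup_le fun j _ => ?_
        have := PadicInt.norm_le_one (aeval x (S.minorsZ (k t) j))
        exact_mod_cast this
      exact_mod_cast Finset.prod_le_one' fun t _ => h1 t
    · refine measure_mono_null ?_ (null_zero (p := p) _ hK)
      intro x hx
      have h2 : sz ((detFam S k).toP p) x ≤ 0 := hx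
      have h3 : ‖eval (fun i => inc p (x i)) (map (algebraMap ℚ ℚ_[p]) ((detFam S k).f j))‖ ≤
        sz ((detFam S k).toP p) x :=
          norm_le_pi_norm (fun j => eval (fun i => inc p (x i)) ((detFam S k).toP p j)) j
      exact norm_le_zero_iff.1 (h3.trans h2)
  · have h1 := Rc_rm p hp1 (fun d : Fin S.rk => S.codim d) (fun d => ∑ t, (k t - (d : ℕ))) hν T
    rcases Nat.eq_zero_or_pos ((Rc p (fun d : Fin S.rk => S.codim d)
      (fun d => ∑ t, (k t - (d : ℕ)))).rootMultiplicity T) with h0 | h0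
    · rw [h0, Nat.cast_zero]
      exact bot_le
    · have h2 := lt_of_lt_of_le h0 h1
      obtain ⟨⟨d, hd, hs⟩⟩ := (Nat.card_pos_iff.1 h2).1
      have hT1 : 1 < ‖T‖ := by
        by_contra hn
        have h3 : Real.log ‖T‖ ≤ 0 := Real.log_nonpos (norm_nonneg _) (not_lt.1 hn)
        have h4 : 0 ≤ -Real.log ‖T‖ / Real.log p := div_nonneg (by linarith) hlp.le
        have h5 : 0 < (S.codim d : ℝ) / (∑ t, (k t - (d : ℕ)) : ℕ) :=
          div_pos (by exact_mod_cast hν d) (by exact_mod_cast hd)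
        rw [hs] at h4
        linarith
      rw [Pool.Agent.Y230.PS.tr, if_neg (not_le.2 hT1)]
      have hcard : o = true → (Rc p (fun d : Fin S.rk => S.codim d)
          (fun d => ∑ t, (k t - (d : ℕ)))).rootMultiplicity T ≤ 1 := by
        intro hot
        refine h1.trans ?_
        rw [Nat.card_eq_fintype_card, Fintype.card_le_one_iff]
        rintro ⟨d1, hd1, hs1⟩ ⟨d2, hd2, hs2⟩
        rw [Subtype.mk.injEq]
        refine Fin.ext (ho hot d1 d2 d1.2 d2.2 hd1 hd2 ?_)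
        have h6 : ((S.codim d1 : ℝ) / (∑ t, (k t - (d1 : ℕ)) : ℕ)) =
            ((S.codim d2 : ℝ) / (∑ t, (k t - (d2 : ℕ)) : ℕ)) := by
          have := hs1.symm.trans hs2
          linarith
        rw [div_eq_div_iff (by exact_mod_cast hd1.ne') (by exact_mod_cast hd2.ne')] at h6
        exact_mod_cast h6
      refine (le_ml h0).2 ?_
      have h7 := det_root S k hk d hd
      have h8 : ((rr p T : ℝ) : ℂ) = -((S.codim d : ℂ) / (∑ t, (k t - (d : ℕ)) : ℕ)) := by
        have h9 : rr p T = -((S.codim d : ℝ) / (∑ t, (k t - (d : ℕ)) : ℕ)) := hs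
        rw [h9]
        push_cast
        rfl
      rw [h8]
      refine h7.mono ?_
      unfold cap
      split_ifs with hot
      · exact hcard hot
      · exact min_le_right _ _

end Pool.Agent.K6.H42.SE
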