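import Pool.Agent.K6.H42.SE.Rules

set_option autoImplicit false
set_option linter.unusedSectionVars false
set_option linter.unusedVariables false

/-! # Independence of the embedding -/

namespace Pool.Agent.K6.H42.SE

open MvPolynomial Pool.Agent.Y230.PT Pool.Agent.Y230.PS
open Pool.Agent.Y230.TH Pool.Agent.W574.SM

/-- the graph family in `ℚ[S ⊕ R]`: the generators `f_j(x)` and `y_s - q_s(x)` -/
noncomputable def gr {S R ι : Type} (f : ι → MvPolynomial R ℚ) (q : S → MvPolynomial R ℚ) :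
    ι ⊕ S → MvPolynomial (S ⊕ R) ℚ :=
  Sum.elim (fun j => rename Sum.inr (f j)) fun s => X (Sum.inl s) - rename Sum.inr (q s)

theorem gr_subst {S R ι : Type} (f : ι → MvPolynomial R ℚ) (q : S → MvPolynomial R ℚ)
    (h : MvPolynomial (S ⊕ R) ℚ) :
    h - rename Sum.inr (aeval (Sum.elim q X : S ⊕ R → MvPolynomial R ℚ) h) ∈
      Ideal.span (Set.range (gr f q)) := by
  rw [← Ideal.Quotient.mk_eq_mk_iff_sub_mem]
  set π := Ideal.Quotient.mkₐ ℚ (Ideal.span (Set.range (gr f q))) with hπ
  have e : π = (π.comp (rename Sum.inr)).comp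
      (aeval (Sum.elim q X : S ⊕ R → MvPolynomial R ℚ)) := by
    apply algHom_ext
    rintro (s | r)
    · rw [AlgHom.comp_apply, aeval_X, Sum.elim_inl, AlgHom.comp_apply, hπ,
        Ideal.Quotient.mkₐ_eq_mk, Ideal.Quotient.mk_eq_mk_iff_sub_mem]
      exact Ideal.subset_span ⟨Sum.inr s, rfl⟩
    · rw [AlgHom.comp_apply, aeval_X, Sum.elim_inr, AlgHom.comp_apply, rename_X]
  exact DFunLike.congr_fun e h

theorem gr_mem {S R ι : Type} (f : ι → MvPolynomial R ℚ) (q : S → MvPolynomial R ℚ)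
    (h : MvPolynomial (S ⊕ R) ℚ) :
    h ∈ Ideal.span (Set.range (gr f q)) ↔
      aeval (Sum.elim q X : S ⊕ R → MvPolynomial R ℚ) h ∈ Ideal.span (Set.range f) := by
  constructor
  · intro hh
    have h1 : Ideal.span (Set.range (gr f q)) ≤ (Ideal.span (Set.range f)).comap
        (aeval (Sum.elim q X : S ⊕ R → MvPolynomial R ℚ) : MvPolynomial (S ⊕ R) ℚ →ₐ[ℚ]
          MvPolynomial R ℚ) := by
      rw [Ideal.span_le]
      rintro _ ⟨j | s, rfl⟩
      · change aeval (Sum.elim q X : S ⊕ R → MvPolynomial R ℚ) (rename Sum.inr (f j)) ∈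
          Ideal.span (Set.range f)
        rw [aeval_rename, Sum.elim_comp_inr, aeval_X_left_apply]
        exact Ideal.subset_span ⟨j, rfl⟩
      · change aeval (Sum.elim q X : S ⊕ R → MvPolynomial R ℚ)
          (X (Sum.inl s) - rename Sum.inr (q s)) ∈ Ideal.span (Set.range f)
        rw [map_sub, aeval_X, Sum.elim_inl, aeval_rename, Sum.elim_comp_inr, aeval_X_left_apply,
          sub_self]
        exact Ideal.zero_mem _
    exact h1 hh
  · intro hh
    have h1 := gr_subst f q h
    have h2 : rename Sum.inr (aeval (Sum.elim q X : S ⊕ R → MvPolynomial R ℚ) h) ∈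
        Ideal.span (Set.range (gr f q)) := by
      have h3 : Ideal.span (Set.range f) ≤ (Ideal.span (Set.range (gr f q))).comap
          (rename Sum.inr : MvPolynomial R ℚ →ₐ[ℚ] MvPolynomial (S ⊕ R) ℚ) := by
        rw [Ideal.span_le]
        rintro _ ⟨j, rfl⟩
        exact Ideal.subset_span ⟨Sum.inl j, rfl⟩
      exact h3 hh
    have h4 := Ideal.add_mem _ h1 h2
    rwa [sub_add_cancel] at h4

variable {N : Set ℕ} {o : Bool} {B : Bool → FamQ → Prop}

/-- from an ideal to the ideal of the graph, and back -/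
theorem Cls.graph {S R ι : Type} [Fintype S] [Nonempty S] [Fintype R] [Fintype ι]
    (f : ι → MvPolynomial R ℚ) (hf : ∃ j, f j ≠ 0) (q : S → MvPolynomial R ℚ)
    (hN : ∀ p ∈ N, p.Prime) (hq : ∀ p ∈ N, ∀ s, PInt p (q s)) :
    Cls N o B false ⟨R, ι, f⟩ ↔ Cls N o B false ⟨S ⊕ R, ι ⊕ S, gr f q⟩ := by
  have h0 : Cls N o B false ⟨R, ι, f⟩ ↔ Cls N o B false
      ((⟨R, ι, f⟩ : FamQ).sum (coordQ S)) :=
    ⟨fun h => Cls.sum _ _ h (Cls.coord S), fun h => Cls.unsum hf h⟩
  have h1 : Cls N o B false ((⟨R, ι, f⟩ : FamQ).sum (coordQ S)) ↔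
      Cls N o B false ⟨S ⊕ R, ι ⊕ S, gr f fun _ => 0⟩ := by
    constructor
    · intro h
      refine Cls.equiv false ((⟨R, ι, f⟩ : FamQ).sum (coordQ S)) ⟨S ⊕ R, ι ⊕ S, gr f fun _ => 0⟩
        (Equiv.sumComm R S) (Equiv.refl _) (fun j => ?_) h
      rcases j with j | s
      · change rename Sum.inr (f j) = rename (Equiv.sumComm R S) (rename Sum.inl (f j))
        rw [rename_rename]
        rfl
      · change X (Sum.inl s) - rename Sum.inr 0 = rename (Equiv.sumComm R S) (rename Sum.inr (X s))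
        rw [map_zero, sub_zero, rename_X, rename_X]
        rfl
    · intro h
      refine Cls.equiv false ⟨S ⊕ R, ι ⊕ S, gr f fun _ => 0⟩ ((⟨R, ι, f⟩ : FamQ).sum (coordQ S))
        (Equiv.sumComm S R) (Equiv.refl _) (fun j => ?_) h
      rcases j with j | s
      · change rename Sum.inl (f j) = rename (Equiv.sumComm S R) (rename Sum.inr (f j))
        rw [rename_rename]
        rfl
      · change rename Sum.inr (X s) = rename (Equiv.sumComm S R) (X (Sum.inl s) - rename Sum.inr 0)
        rw [map_zero, sub_zero, rename_X, rename_X]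
        rfl
  have h2 := Cls.shift (N := N) (o := o) (B := B) (c := false) (gr f fun _ => 0) (fun s => -q s) hN
    (fun p hp s => by
      have : Fact p.Prime := ⟨hN p hp⟩
      exact (hq p hp s).neg)
  have h3 : (fun j => shiftQ (fun s => -q s) (gr f (fun _ => 0) j)) = gr f q := by
    funext j
    rcases j with j | s
    · exact shiftQ_rename _ _
    · change shiftQ (fun s => -q s) (X (Sum.inl s) - rename Sum.inr 0) = _
      rw [map_zero, sub_zero, shiftQ_inl, map_neg]
      change _ = X (Sum.inl s) - rename Sum.inr (q s)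
      ring
  rw [h3] at h2
  exact h0.trans (h1.trans h2)

/-- **Independence of the embedding.** If the quotient rings `ℚ[x] / (f_j)` and `ℚ[y] / (g_k)` are
isomorphic, then `(f_j)` is in the class if and only if `(g_k)` is. -/
theorem Cls.embed {A A' : FamQ} (hA : ∃ j, A.f j ≠ 0) (hA' : ∃ j, A'.f j ≠ 0)
    (e : (MvPolynomial A.σ ℚ ⧸ Ideal.span (Set.range A.f)) ≃ₐ[ℚ]
      (MvPolynomial A'.σ ℚ ⧸ Ideal.span (Set.range A'.f)))
    (h : Cls ∅ o B false A) : Cls ∅ o B false A' := by
  classical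
  obtain ⟨R, ι, f⟩ := A
  obtain ⟨S, κ, g⟩ := A'
  have hfree : ∀ {S κ : Type} [Fintype S] [Fintype κ] (g : κ → MvPolynomial S ℚ),
      Ideal.span (Set.range g) = ⊤ → Cls ∅ o B false ⟨S, κ, g⟩ := by
    intro S κ _ _ g hg
    have h1 : (1 : MvPolynomial S ℚ) ∈ Ideal.span (Set.range g) := by rw [hg]; trivial
    obtain ⟨a, ha⟩ := (Submodule.mem_span_range_iff_exists_fun _).1 h1
    exact Cls.free _ a (by simpa only [smul_eq_mul] using ha)
  have hempty : ∀ {S κ : Type} (g : κ → MvPolynomial S ℚ), (∃ k, g k ≠ 0) → IsEmpty S →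
      Ideal.span (Set.range g) = ⊤ := by
    intro S κ g ⟨k, hk⟩ _
    refine Ideal.eq_top_of_isUnit_mem _ (Ideal.subset_span ⟨k, rfl⟩) ?_
    obtain ⟨a, ha⟩ := (C_surjective S : Function.Surjective (C : ℚ → MvPolynomial S ℚ)) (g k)
    rw [← ha] at hk ⊢
    have ha0 : a ≠ 0 := by
      rintro rfl
      exact hk C_0
    exact (IsUnit.mk0 a ha0).map C
  change Cls ∅ o B false ⟨S, κ, g⟩
  by_cases htop : Ideal.span (Set.range g) = ⊤
  · exact hfree g htop
  have htop' : Ideal.span (Set.range f) ≠ ⊤ := by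
    intro h1
    apply htop
    have h2 : Subsingleton (MvPolynomial R ℚ ⧸ Ideal.span (Set.range f)) :=
      Ideal.Quotient.subsingleton_iff.2 h1
    have h3 : Subsingleton (MvPolynomial S ℚ ⧸ Ideal.span (Set.range g)) :=
      e.symm.toEquiv.subsingleton
    exact Ideal.Quotient.subsingleton_iff.1 h3
  have hS : Nonempty S := by
    by_contra h1
    exact htop (hempty g hA' (not_nonempty_iff.1 h1))
  have hR : Nonempty R := by
    by_contra h1
    exact htop' (hempty f hA (not_nonempty_iff.1 h1))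
  set I := Ideal.span (Set.range f) with hI
  set J := Ideal.span (Set.range g) with hJ
  change (MvPolynomial R ℚ ⧸ I) ≃ₐ[ℚ] (MvPolynomial S ℚ ⧸ J) at e
  choose q hq using fun s : S => Ideal.Quotient.mk_surjective (I := I)
    (e.symm (Ideal.Quotient.mk J (X s)))
  choose r hr using fun s : R => Ideal.Quotient.mk_surjective (I := J)
    (e (Ideal.Quotient.mk I (X s)))
  have hN : ∀ p ∈ (∅ : Set ℕ), p.Prime := fun p hp => absurd hp (Set.notMem_empty p)
  have h1 := (Cls.graph (N := ∅) (o := o) (B := B) f hA q hN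
    (fun p hp => absurd hp (Set.notMem_empty p))).1 h
  refine (Cls.graph (N := ∅) (o := o) (B := B) g hA' r hN
    (fun p hp => absurd hp (Set.notMem_empty p))).2 ?_
  -- swap the variables
  have h2 : Cls ∅ o B false ⟨R ⊕ S, ι ⊕ S, fun j => rename (Equiv.sumComm S R) (gr f q j)⟩ :=
    Cls.equiv false ⟨S ⊕ R, ι ⊕ S, gr f q⟩
      ⟨R ⊕ S, ι ⊕ S, fun j => rename (Equiv.sumComm S R) (gr f q j)⟩
      (Equiv.sumComm S R) (Equiv.refl _) (fun j => rfl) h1
  -- the two ideals are equal
  have key : ∀ H : MvPolynomial (R ⊕ S) ℚ,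
      aeval (Sum.elim r X : R ⊕ S → MvPolynomial S ℚ) H ∈ J ↔
        aeval (Sum.elim q X : S ⊕ R → MvPolynomial R ℚ) (rename (Equiv.sumComm R S) H) ∈ I := by
    intro H
    have h3 : ((Ideal.Quotient.mkₐ ℚ J).comp
        (aeval (Sum.elim r X : R ⊕ S → MvPolynomial S ℚ))) =
        ((e : _ →ₐ[ℚ] (MvPolynomial S ℚ ⧸ J)).comp ((Ideal.Quotient.mkₐ ℚ I).comp
          ((aeval (Sum.elim q X : S ⊕ R → MvPolynomial R ℚ)).comp
            (rename (Equiv.sumComm R S))))) := by
      apply algHom_ext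
      rintro (s | s)
      · rw [AlgHom.comp_apply, aeval_X, Sum.elim_inl, AlgHom.comp_apply, AlgHom.comp_apply,
          AlgHom.comp_apply, rename_X, Equiv.sumComm_apply, Sum.swap_inl, aeval_X, Sum.elim_inr,
          Ideal.Quotient.mkₐ_eq_mk, Ideal.Quotient.mkₐ_eq_mk, hr]
        rfl
      · rw [AlgHom.comp_apply, aeval_X, Sum.elim_inr, AlgHom.comp_apply, AlgHom.comp_apply,
          AlgHom.comp_apply, rename_X, Equiv.sumComm_apply, Sum.swap_inr, aeval_X, Sum.elim_inl,
          Ideal.Quotient.mkₐ_eq_mk, Ideal.Quotient.mkₐ_eq_mk, hq]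
        exact (AlgEquiv.apply_symm_apply e _).symm
    have h4 := DFunLike.congr_fun h3 H
    rw [← Ideal.Quotient.eq_zero_iff_mem, ← Ideal.Quotient.eq_zero_iff_mem]
    change (Ideal.Quotient.mk J (aeval (Sum.elim r X : R ⊕ S → MvPolynomial S ℚ) H)) =
      e (Ideal.Quotient.mk I (aeval (Sum.elim q X : S ⊕ R → MvPolynomial R ℚ)
        (rename (Equiv.sumComm R S) H))) at h4
    rw [h4]
    exact map_eq_zero_iff e e.injective
  have hsw : ∀ H : MvPolynomial (S ⊕ R) ℚ,
      rename (Equiv.sumComm R S) (rename (Equiv.sumComm S R) H) = H := by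
    intro H
    rw [rename_rename]
    have : (Equiv.sumComm R S : R ⊕ S → S ⊕ R) ∘ (Equiv.sumComm S R) = id := by
      funext i
      rcases i with s | s <;> rfl
    rw [this, rename_id_apply]
  have hsw' : ∀ H : MvPolynomial (R ⊕ S) ℚ,
      rename (Equiv.sumComm S R) (rename (Equiv.sumComm R S) H) = H := by
    intro H
    rw [rename_rename]
    have : (Equiv.sumComm S R : S ⊕ R → R ⊕ S) ∘ (Equiv.sumComm R S) = id := by
      funext i
      rcases i with s | s <;> rfl
    rw [this, rename_id_apply]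
  have hP : ∀ k, gr g r k ∈ Ideal.span (Set.range fun j =>
      rename (Equiv.sumComm S R) (gr f q j)) := by
    intro k
    have h3 : gr g r k ∈ Ideal.span (Set.range (gr g r)) := Ideal.subset_span ⟨k, rfl⟩
    rw [gr_mem, ← hJ, key, hI, ← gr_mem] at h3
    have h4 : Ideal.span (Set.range (gr f q)) ≤ (Ideal.span (Set.range fun j =>
        rename (Equiv.sumComm S R) (gr f q j))).comap
          (rename (Equiv.sumComm S R) : MvPolynomial (S ⊕ R) ℚ →ₐ[ℚ] _) := by
      rw [Ideal.span_le]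
      rintro _ ⟨j, rfl⟩
      exact Ideal.subset_span ⟨j, rfl⟩
    have h5 := h4 h3
    rw [Ideal.mem_comap] at h5
    change rename (Equiv.sumComm S R) (rename (Equiv.sumComm R S) (gr g r k)) ∈ _ at h5
    rwa [hsw'] at h5
  have hQ : ∀ j, rename (Equiv.sumComm S R) (gr f q j) ∈ Ideal.span (Set.range (gr g r)) := by
    intro j
    rw [gr_mem, ← hJ, key, hsw, hI, ← gr_mem]
    exact Ideal.subset_span ⟨j, rfl⟩
  choose P hP' using fun k => (Submodule.mem_span_range_iff_exists_fun _).1 (hP k)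
  choose Q hQ' using fun j => (Submodule.mem_span_range_iff_exists_fun _).1 (hQ j)
  exact Cls.gens (fun j => rename (Equiv.sumComm S R) (gr f q j)) (gr g r) P Q hN
    (fun p hp => absurd hp (Set.notMem_empty p)) (fun p hp => absurd hp (Set.notMem_empty p))
    (fun k => (hP' k).symm) (fun j => (hQ' j).symm) h2

end Pool.Agent.K6.H42.SE
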