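import Pool.Agent.K6.H42.SE.Main
import Pool.Agent.TH216.EP.Fin

set_option autoImplicit false
set_option linter.unusedSectionVars false
set_option linter.unusedVariables false

/-! # Affinely independent exponents -/

namespace Pool.Agent.K6.H42.SE

open MeasureTheory Pool.Agent.W427.SMC Pool.Agent.Y230.PT Pool.Agent.Y230.PS
open Pool.Agent.Y230.TH
open scoped ENNReal
open Pool.Agent.W574.SM
open Pool.Agent.TH216.MF Pool.Agent.TH216.EP
open Pool.Agent.W425.SM (Ind sparse)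

attribute [local instance] msZ bsZ

variable {p : ℕ} [Fact p.Prime]

theorem norm_evalZ {V : Type} [Fintype V] (f : MvPolynomial V ℤ) (x : V → ℤ_[p]) :
    sz (fun _ : Fin 1 => MvPolynomial.map (algebraMap ℚ ℚ_[p])
      (MvPolynomial.map (Int.castRingHom ℚ) f)) x = ‖MvPolynomial.aeval x f‖ := by
  have h1 : MvPolynomial.eval (fun i => inc p (x i)) (MvPolynomial.map (algebraMap ℚ ℚ_[p])
      (MvPolynomial.map (Int.castRingHom ℚ) f)) = inc p (MvPolynomial.aeval x f) := by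
    rw [MvPolynomial.map_map, MvPolynomial.eval_map]
    have h : (PadicInt.Coe.ringHom (p := p)).comp
        (MvPolynomial.aeval x : MvPolynomial V ℤ →ₐ[ℤ] ℤ_[p]).toRingHom =
        MvPolynomial.eval₂Hom ((algebraMap ℚ ℚ_[p]).comp (Int.castRingHom ℚ))
          (fun i => inc p (x i)) := by
      apply MvPolynomial.ringHom_ext
      · intro a
        simp
      · intro i
        simp [inc]
    exact (congrArg (fun ψ : MvPolynomial V ℤ →+* ℚ_[p] => ψ f) h).symm
  unfold sz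
  beta_reduce
  rw [h1]
  refine le_antisymm ?_ ?_
  · refine (pi_norm_le_iff_of_nonneg (norm_nonneg _)).2 fun _ => ?_
    exact le_of_eq rfl
  · exact norm_le_pi_norm (fun _ : Fin 1 => inc p (MvPolynomial.aeval x f)) 0

theorem Vc_poin {n : ℕ} (f : MvPolynomial (Fin n) ℤ) :
    ser (Vc (Measure.pi fun _ : Fin n => mu p) (sz fun _ : Fin 1 =>
      MvPolynomial.map (algebraMap ℚ ℚ_[p]) (MvPolynomial.map (Int.castRingHom ℚ) f)) p) =
      Pool.Agent.W206.CU.poincare p f := by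
  ext e
  rw [coeff_ser]
  have h1 : {x : Fin n → ℤ_[p] | sz (fun _ : Fin 1 => MvPolynomial.map (algebraMap ℚ ℚ_[p])
      (MvPolynomial.map (Int.castRingHom ℚ) f)) x ≤ ((p : ℝ)⁻¹) ^ e} =
      {z | (p : ℤ_[p]) ^ e ∣ MvPolynomial.aeval z f} := by
    ext x
    simp only [Set.mem_ofPred_eq]
    rw [norm_evalZ, dvd_iff_norm, PadicInt.norm_p_pow, inv_pow, zpow_neg, zpow_natCast]
  unfold Vc Vo
  rw [h1, cN_eq]
  unfold Pool.Agent.W206.CU.poincare cN solCount
  rw [PowerSeries.coeff_mk, Nat.card_fin, Fintype.card_fin]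
  push_cast
  rw [div_eq_mul_inv, ← pow_mul, ← inv_pow, ← inv_pow, ← pow_mul, mul_comm e n]

/-- **Affinely independent exponents have the reduced property with orders.** -/
theorem hf_sparse {n k : ℕ} (hk : 2 ≤ k) (m : Fin k → Fin n → ℕ) (hm : Ind m) (c : Fin k → ℤ)
    (hc : ∀ j, c j ≠ 0) : HF p true true (hypQ (MvPolynomial.map (Int.castRingHom ℚ)
      (∑ j, MvPolynomial.C (c j) * ∏ i, MvPolynomial.X i ^ m j i))) := by
  classical
  have hpp : p.Prime := Fact.out
  have hp0 : (p : ℂ) ≠ 0 := by exact_mod_cast hpp.ne_zero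
  set f : MvPolynomial (Fin n) ℤ := ∑ j, MvPolynomial.C (c j) * ∏ i, MvPolynomial.X i ^ m j i
    with hf
  set F : MvPolynomial (Fin n) ℚ := MvPolynomial.map (Int.castRingHom ℚ) f with hF
  have hq : (hypQ F).toC = fun _ : Fin 1 => sparse m (fun j => ((c j : ℤ) : ℂ)) := by
    funext _
    change MvPolynomial.map (algebraMap ℚ ℂ) (MvPolynomial.map (Int.castRingHom ℚ) f) = _
    rw [MvPolynomial.map_map, hf]
    unfold sparse
    rw [map_sum]
    refine Finset.sum_congr rfl fun j _ => ?_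
    rw [map_mul, MvPolynomial.map_C, map_prod]
    simp
  have hm1 : Function.Injective m := by
    intro i j hij
    exact hm.injective (by
      beta_reduce
      rw [hij])
  have hmon : ∀ v : Fin n → ℕ, ∏ i, (MvPolynomial.X i : MvPolynomial (Fin n) ℤ) ^ v i =
      MvPolynomial.monomial (Finsupp.equivFunOnFinite.symm v) 1 := by
    intro v
    rw [MvPolynomial.monomial_eq, MvPolynomial.C_1, one_mul,
      Finsupp.prod_fintype _ _ (fun i => pow_zero _)]
    rfl
  have hf0 : f ≠ 0 := by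
    intro h0
    have h1 := congrArg (MvPolynomial.coeff (Finsupp.equivFunOnFinite.symm (m ⟨0, by omega⟩))) h0
    rw [hf, MvPolynomial.coeff_sum, MvPolynomial.coeff_zero,
      Finset.sum_eq_single (⟨0, by omega⟩ : Fin k)] at h1
    · rw [MvPolynomial.coeff_C_mul, hmon, MvPolynomial.coeff_monomial, if_pos rfl, mul_one] at h1
      exact hc _ h1
    · intro j _ hj
      rw [MvPolynomial.coeff_C_mul, hmon, MvPolynomial.coeff_monomial, if_neg, mul_zero]
      intro h2
      exact hj (hm1 (Finsupp.equivFunOnFinite.symm.injective h2))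
    · intro h
      exact absurd (Finset.mem_univ _) h
  have hF0 : F ≠ 0 := fun h0 => hf0
    (MvPolynomial.map_injective _ Int.cast_injective (by rw [map_zero]; exact h0))
  have hlin : (1 - Polynomial.C ((p : ℂ)⁻¹) * Polynomial.X : Polynomial ℂ) =
      Polynomial.C (-(p : ℂ)⁻¹) * (Polynomial.X - Polynomial.C (p : ℂ)) := by
    rw [mul_sub, ← Polynomial.C_mul, neg_mul, inv_mul_cancel₀ hp0]
    simp only [map_neg, map_one]
    ring
  have hlin0 : (1 - Polynomial.C ((p : ℂ)⁻¹) * Polynomial.X : Polynomial ℂ) ≠ 0 := by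
    rw [hlin]
    exact mul_ne_zero (Polynomial.C_ne_zero.2 (neg_ne_zero.2 (inv_ne_zero hp0)))
      (Polynomial.X_sub_C_ne_zero _)
  have hlinm : ∀ T : ℂ, (1 - Polynomial.C ((p : ℂ)⁻¹) * Polynomial.X :
      Polynomial ℂ).rootMultiplicity T = dp p T := by
    intro T
    rw [dp_eq, hlin, Polynomial.rootMultiplicity_mul (by rw [← hlin]; exact hlin0),
      Polynomial.rootMultiplicity_C, zero_add, Polynomial.rootMultiplicity_X_sub_C]
  obtain ⟨κ, hκ, hκR⟩ := poincare_mul (p := p) m hm c hc f hf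
  -- the local statement
  have hloc : ∀ T₀ : ℂ, T₀ ≠ 0 → ∀ b : Polynomial ℂ, b ≠ 0 → IsFunctionalEq (hypQ F).toC b →
      ∃ (P Q R : Polynomial ℂ), b = (Polynomial.X + 1) * P ∧ P ≠ 0 ∧ Q ≠ 0 ∧
        (Q : PowerSeries ℂ) * Pool.Agent.W206.CU.poincare p f = (R : PowerSeries ℂ) ∧
        Q.rootMultiplicity T₀ ≤ P.rootMultiplicity ((rr p T₀ : ℝ) : ℂ) + dp p T₀ := by
    intro T₀ hT0 b hb0 hb
    rw [hq] at hb
    obtain ⟨P, hbP, hrel⟩ := Pool.Agent.W525.SM.taskA m _ b hk hm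
      (fun j => by exact_mod_cast hc j) (Pool.Agent.Y229.isB_of_single _ b hb)
    have hP0 : P ≠ 0 := by
      rintro rfl
      apply hb0
      rw [hbP, mul_zero]
    obtain ⟨Q1, hQ1, hZ⟩ := crMu p hpp.two_le m P (relG_of_relM m P hrel) κ hκ T₀ hT0 hP0
    obtain ⟨R, hR⟩ := hκR _ hZ
    have hQ10 : Q1 ≠ 0 := by
      rintro rfl
      simp at hQ1
    have hpow0 : (Polynomial.X - Polynomial.C T₀ : Polynomial ℂ) ^
        P.rootMultiplicity ((-Real.log ‖T₀‖ / Real.log p : ℝ) : ℂ) ≠ 0 :=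
      pow_ne_zero _ (Polynomial.X_sub_C_ne_zero _)
    refine ⟨P, _, R, hbP, hP0, mul_ne_zero (mul_ne_zero hQ10 hpow0) hlin0, hR, ?_⟩
    rw [Polynomial.rootMultiplicity_mul (mul_ne_zero (mul_ne_zero hQ10 hpow0) hlin0),
      Polynomial.rootMultiplicity_mul (mul_ne_zero hQ10 hpow0),
      Polynomial.rootMultiplicity_eq_zero hQ1, Polynomial.rootMultiplicity_X_sub_C_pow, zero_add,
      hlinm]
    exact le_rfl
  -- a reduced denominator
  obtain ⟨b0, hb00, hb0⟩ := Pool.Agent.Y229.exists_fe (hypQ F).toC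
    (toC_ne (hypQ F) ⟨(0 : Fin 1), hF0⟩)
  obtain ⟨-, Q0, R0, -, -, hQ0, hR0, -⟩ := hloc 1 one_ne_zero b0 hb00 hb0
  set g := gcd R0 Q0 with hg
  have hg0 : g ≠ 0 := gcd_ne_zero_of_right hQ0
  obtain ⟨D, N, hD, hN, hcop⟩ : ∃ D N : Polynomial ℂ, Q0 = g * D ∧ R0 = g * N ∧
      IsCoprime D N :=
    ⟨Q0 / g, R0 / g, (EuclideanDomain.mul_div_cancel' hg0 (gcd_dvd_right _ _)).symm,
      (EuclideanDomain.mul_div_cancel' hg0 (gcd_dvd_left _ _)).symm,
      (isCoprime_div_gcd_div_gcd hQ0).symm⟩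
  have hD0 : D ≠ 0 := by
    rintro rfl
    exact hQ0 (by rw [hD, mul_zero])
  have hDN : (D : PowerSeries ℂ) * Pool.Agent.W206.CU.poincare p f = (N : PowerSeries ℂ) := by
    have h1 : (g : PowerSeries ℂ) ≠ 0 := by
      rwa [Ne, Polynomial.coe_eq_zero_iff]
    refine mul_left_cancel₀ h1 ?_
    rw [← mul_assoc, ← Polynomial.coe_mul, ← Polynomial.coe_mul, ← hD, ← hN]
    exact hR0
  have hdiv : ∀ Q R : Polynomial ℂ, (Q : PowerSeries ℂ) * Pool.Agent.W206.CU.poincare p f =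
      (R : PowerSeries ℂ) → D ∣ Q := by
    intro Q R hQR
    have h1 : Q * N = R * D := by
      apply Polynomial.coe_injective ℂ
      rw [Polynomial.coe_mul, Polynomial.coe_mul, ← hDN, ← hQR]
      ring
    exact hcop.dvd_of_dvd_mul_right ⟨R, by rw [h1, mul_comm]⟩
  have hmult : ∀ T₀ : ℂ, T₀ ≠ 0 → ∀ b : Polynomial ℂ, IsFunctionalEq (hypQ F).toC b →
      (Polynomial.X - Polynomial.C ((rr p T₀ : ℝ) : ℂ)) ^
        (D.rootMultiplicity T₀ - dp p T₀ + dl ((rr p T₀ : ℝ) : ℂ)) ∣ b := by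
    intro T₀ hT0 b hb
    by_cases hb0 : b = 0
    · rw [hb0]
      exact dvd_zero _
    obtain ⟨P, Q, R, hbP, hP0, hQ0, hQR, hle⟩ := hloc T₀ hT0 b hb0 hb
    have h1 := Polynomial.rootMultiplicity_le_rootMultiplicity_of_dvd hQ0 (hdiv Q R hQR) T₀
    rw [hbP]
    refine dvd_dl _ _ _ ?_
    rw [← Polynomial.le_rootMultiplicity_iff hP0]
    omega
  refine ⟨⟨(0 : Fin 1), hF0⟩, ?_⟩
  rw [if_pos rfl]
  have hval : ∀ x, Val p (sz ((hypQ F).toP p) x) := by
    intro x
    have h1 : sz ((hypQ F).toP p) x = ‖MvPolynomial.aeval x f‖ := norm_evalZ f x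
    rw [h1]
    by_cases hz : MvPolynomial.aeval x f = 0
    · exact Or.inl (by rw [hz, norm_zero])
    · refine Or.inr ⟨(MvPolynomial.aeval x f).valuation, ?_⟩
      rw [PadicInt.norm_eq_zpow_neg_valuation hz, inv_pow, zpow_neg, zpow_natCast]
  refine FR_of_EP (p := p) (Measure.pi fun _ : Fin n => mu p) (sz ((hypQ F).toP p))
    (sz_meas _) hval ?_ (m := fun T => (D.rootMultiplicity T : ℕ∞)) ?_ fun T hT => ?_
  · have hFK : MvPolynomial.map (algebraMap ℚ ℚ_[p]) F ≠ 0 := fun h0 => hF0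
      (MvPolynomial.map_injective _ (algebraMap ℚ ℚ_[p]).injective (by rw [map_zero]; exact h0))
    refine measure_mono_null ?_ (null_zero (p := p) _ hFK)
    intro x hx
    have h2 : sz ((hypQ F).toP p) x ≤ 0 := hx
    have h3 : ‖MvPolynomial.eval (fun i => inc p (x i)) (MvPolynomial.map (algebraMap ℚ ℚ_[p]) F)‖ ≤
      sz ((hypQ F).toP p) x := norm_le_pi_norm (fun _ : Fin 1 =>
        MvPolynomial.eval (fun i => inc p (x i)) (MvPolynomial.map (algebraMap ℚ ℚ_[p]) F)) 0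
    exact norm_le_zero_iff.1 (h3.trans h2)
  · refine rat_EP _ D hD0 _ N ?_ fun T _ => le_rfl
    rw [← hDN]
    congr 1
    exact Vc_poin f
  · rcases Nat.eq_zero_or_pos (D.rootMultiplicity T) with h0 | h0
    · beta_reduce
      rw [h0, Nat.cast_zero]
      exact bot_le
    · refine (le_mr h0).2 fun b hb => ?_
      have hT0 : T ≠ 0 := by
        rintro rfl
        rw [norm_zero] at hT
        linarith
      exact hmult T hT0 b hb

end Pool.Agent.K6.H42.SE
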