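import Pool.Agent.K6.H42.SE.Rules
import Pool.Agent.K6.H42.SE.Sparse
import Pool.Agent.K6.H42.SE.Det
import Pool.Agent.N138.RF.E5
import Pool.Agent.N138.BF.Fin
import Pool.Agent.N165.CU.Poin

set_option autoImplicit false
set_option linter.unusedSectionVars false
set_option linter.unusedVariables false

/-! # The final statements -/

namespace Pool.Agent.K6.H42.SE

open MeasureTheory Pool.Agent.W427.SMC Pool.Agent.Y230.PT Pool.Agent.Y230.PS
open Pool.Agent.Y230.TH Pool.Agent.R852.PP Pool.Agent.N127.PP Pool.Agent.N138.SU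
open Pool.Agent.N138.SV Pool.Agent.N138.RF
open scoped ENNReal
open Pool.Agent.Y230.RE Pool.Agent.W574.SM Pool.Agent.W574.RO Pool.Agent.W574.CN
open Pool.Agent.N165.CU (StrongMonodromy StrongMonodromyOrders padicZeta)

attribute [local instance] msZ bsZ

/-- **The families for which the properties are proved directly.** -/
inductive Known (o : Bool) : Bool → FamQ → Prop
  /-- the classes of `Pool/Agent/N127/PP/Defs.lean` -/
  | ptp (c : Bool) (A : FamQ) (h : PTP o c A) : Known o c A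
  /-- the polynomials with at least two monomials, the exponents of which are affinely independent -/
  | sparse (n k : ℕ) (hk : 2 ≤ k) (m : Fin k → Fin n → ℕ)
      (hm : AffineIndependent ℚ fun (j : Fin k) (i : Fin n) => (m j i : ℚ)) (a : Fin k → ℤ)
      (ha : ∀ j, a j ≠ 0) : Known o true (hypQ (MvPolynomial.map (Int.castRingHom ℚ)
        (∑ j, MvPolynomial.C (a j) * ∏ i, MvPolynomial.X i ^ m j i)))
  /-- the products of determinantal ideals: of the ideals of the minors of given sizes of a generic or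
  symmetric matrix, or of the Pfaffians of a skew symmetric one, of proper submatrices (`Small`); in the
  version with orders the candidate poles have to be different -/
  | det (S : Pool.Agent.TH192.DT.MSpace) (T : ℕ) (k : Fin T → ℕ) (hk : ∀ t, S.Small (k t))
      (ho : o = true → DistRatios S k) : Known o false (detFam S k)
  /-- in the version without orders, the ideals of the class of the formulas -/
  | formulaI (ho : o = false) (A : FamQ) (h : Cl3 .ideal A) : Known o false A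
  /-- in the version without orders, the polynomials of the class of the formulas -/
  | formulaP (ho : o = false) (A : FamQ) (h : Cl3 .poly A) : Known o true A
  /-- the ideals of the class of the formulas for the version with orders -/
  | formulaOI (A : FamQ) (h : Pool.Agent.N138.BF.Cl4 .ideal A) : Known o false A
  /-- the polynomials of the class of the formulas for the version with orders -/
  | formulaOP (A : FamQ) (h : Pool.Agent.N138.BF.Cl4 .poly A) : Known o true A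

variable {p : ℕ} [Fact p.Prime]

theorem hf_of_orders {o c : Bool} {A : FamQ} (h : HF p true c A) : HF p o c A := by
  cases o
  · refine ⟨h.1, h.2.mono fun T hT => enat_le fun a ha h1 => ?_⟩
    have hcap : cap false a ≤ cap true a := by
      unfold cap
      rw [if_neg Bool.false_ne_true, if_pos rfl]
      exact min_le_left _ _
    split_ifs at h1 ⊢
    · refine (le_mr ha).2 (((le_mr ha).1 h1).mono ?_)
      unfold cap
      rw [if_neg Bool.false_ne_true, if_pos rfl]
      have := min_le_left (a - Pool.Agent.Y230.TH.dp p T) 1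
      omega
    · exact (le_ml ha).2 (((le_ml ha).1 h1).mono hcap)
  · exact h

theorem hf_known {o c : Bool} {A : FamQ} (h : Known o c A) : HF p o c A := by
  cases h with
  | ptp _ _ h => exact hf_ptp h
  | sparse n k hk m hm a ha => exact hf_of_orders (hf_sparse hk m hm a ha)
  | det S T k hk ho => exact hf_det S k hk ho
  | formulaI ho _ h =>
    subst ho
    obtain ⟨h1, h2, -⟩ := E3.cl3_main (p := p) hy3 _ _ h
    rw [if_pos rfl] at h2
    refine ⟨h1, ?_⟩
    rw [if_neg Bool.false_ne_true]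
    refine h2.mono fun T hT => ?_
    rw [mI_2]
    unfold ml
    rw [if_neg Bool.false_ne_true]
  | formulaP ho _ h =>
    subst ho
    obtain ⟨h1, h2, -⟩ := E3.cl3_main (p := p) hy3 _ _ h
    rw [if_neg (by simp)] at h2
    refine ⟨h1, ?_⟩
    rw [if_pos rfl]
    refine h2.mono fun T hT => ?_
    unfold mr
    rw [if_neg Bool.false_ne_true]
    refine iSup_mono fun k => ?_
    unfold wH w2 wR
    split_ifs
    · rw [zero_add]
    · exact le_top
  | formulaOI _ h =>
    obtain ⟨h1, h2, -⟩ := Pool.Agent.N138.BF.E3.cl4_main (p := p) Pool.Agent.N138.BF.hy4 _ _ h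
    rw [if_pos rfl] at h2
    refine hf_of_orders ⟨h1, ?_⟩
    rw [if_neg Bool.false_ne_true]
    refine h2.mono fun T hT => ?_
    rw [mI_1]
    unfold ml
    rw [if_pos rfl]
  | formulaOP _ h =>
    obtain ⟨h1, h2, -⟩ := Pool.Agent.N138.BF.E3.cl4_main (p := p) Pool.Agent.N138.BF.hy4 _ _ h
    rw [if_neg (by simp)] at h2
    refine hf_of_orders ⟨h1, ?_⟩
    rw [if_pos rfl]
    refine h2.mono fun T hT => ?_
    unfold mr
    rw [if_pos rfl, wH_1]

/-- **The properties for the closure of the known families.** -/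
theorem hf_cls {o c : Bool} {N : Set ℕ} (hp : p ∈ N) {A : FamQ}
    (h : Cls N o (Known o) c A) : HF p o c A :=
  hf_main hp (fun _ _ h => hf_known h) c A h

section almost

theorem exists_fin_pint {σ : Type} (q : MvPolynomial σ ℚ) :
    ∃ S : Finset ℕ, ∀ p : ℕ, p.Prime → p ∉ S → PInt p q := by
  classical
  refine ⟨q.support.biUnion fun m => (MvPolynomial.coeff m q).den.primeFactors,
    fun p hp hpS m hd => hpS ?_⟩
  rw [Finset.mem_biUnion]
  by_cases hm : m ∈ q.support
  · exact ⟨m, hm, Nat.mem_primeFactors.2 ⟨hp, hd, (MvPolynomial.coeff m q).den_nz⟩⟩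
  · rw [MvPolynomial.notMem_support_iff.1 hm] at hd
    exact absurd (Nat.dvd_one.1 hd) hp.one_lt.ne'

theorem exists_fin_pints {σ τ : Type} [Fintype σ] (q : σ → MvPolynomial τ ℚ) :
    ∃ S : Finset ℕ, ∀ p : ℕ, p.Prime → p ∉ S → ∀ i, PInt p (q i) := by
  classical
  choose S hS using fun i => exists_fin_pint (q i)
  refine ⟨Finset.univ.biUnion S, fun p hp hpS i => hS i p hp fun h => hpS ?_⟩
  exact Finset.mem_biUnion.2 ⟨i, Finset.mem_univ _, h⟩

/-- only the primes outside `N` matter -/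
theorem filt {N : Set ℕ} {P : ℕ → Prop} (h : ∃ S : Finset ℕ, ∀ p : ℕ, p.Prime → p ∉ S → P p)
    (hN : ∀ p ∈ N, P p) :
    ∃ S : Finset ℕ, (∀ p ∈ S, p ∉ N) ∧ ∀ p : ℕ, p.Prime → p ∉ S → P p := by
  classical
  obtain ⟨S, hS⟩ := h
  refine ⟨S.filter (· ∉ N), fun p hp => (Finset.mem_filter.1 hp).2, fun p hp hpS => ?_⟩
  by_cases h1 : p ∈ N
  · exact hN p h1
  · exact hS p hp fun h2 => hpS (Finset.mem_filter.2 ⟨h2, h1⟩)

/-- a member of the class for the set of primes `N` is in the class for `{p}`, for almost all `p`, among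
them all `p ∈ N` -/
theorem cls_almost {N : Set ℕ} {o : Bool} {B : Bool → FamQ → Prop}
    {B' : ℕ → Bool → FamQ → Prop} (hB : ∀ c A, B c A → ∃ S : Finset ℕ, (∀ p ∈ S, p ∉ N) ∧
      ∀ p : ℕ, p.Prime → p ∉ S → B' p c A) {c : Bool} {A : FamQ}
    (h : Cls N o B c A) : ∃ S : Finset ℕ, (∀ p ∈ S, p ∉ N) ∧
      ∀ p : ℕ, p.Prime → p ∉ S → Cls {p} o (B' p) c A := by
  classical
  have hE : ∀ p ∈ (∅ : Finset ℕ), p ∉ N := fun p hp => absurd hp (Finset.notMem_empty p)
  have hU : ∀ {S S' : Finset ℕ}, (∀ p ∈ S, p ∉ N) → (∀ p ∈ S', p ∉ N) → ∀ p ∈ S ∪ S', p ∉ N :=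
    fun h h' p hp => (Finset.mem_union.1 hp).elim (h p) (h' p)
  induction h with
  | base c A h =>
    obtain ⟨S, hSN, hS⟩ := hB c A h
    exact ⟨S, hSN, fun p hp hpS => Cls.base c A (hS p hp hpS)⟩
  | auto c σ ι f Φ h1 h2 h ih =>
    obtain ⟨S, hSN, hS⟩ := ih
    obtain ⟨S1, hSN1, hS1⟩ := filt (exists_fin_pints fun i => Φ (MvPolynomial.X i)) h1
    obtain ⟨S2, hSN2, hS2⟩ := filt (exists_fin_pints fun i => Φ.symm (MvPolynomial.X i)) h2
    refine ⟨S ∪ S1 ∪ S2, hU (hU hSN hSN1) hSN2, fun p hp hpS => ?_⟩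
    simp only [Finset.mem_union, not_or] at hpS
    refine Cls.auto c σ ι f Φ (fun q hq => ?_) (fun q hq => ?_) (hS p hp hpS.1.1)
    · rw [Set.mem_singleton_iff.1 hq]
      exact hS1 p hp hpS.1.2
    · rw [Set.mem_singleton_iff.1 hq]
      exact hS2 p hp hpS.2
  | equiv c A A' i k h hA ihA =>
    obtain ⟨S, hSN, hS⟩ := ihA
    exact ⟨S, hSN, fun p hp hpS => Cls.equiv c A A' i k h (hS p hp hpS)⟩
  | unstab τ κ g hg h ih =>
    obtain ⟨S, hSN, hS⟩ := ih
    exact ⟨S, hSN, fun p hp hpS => Cls.unstab τ κ g hg (hS p hp hpS)⟩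
  | ofUniv A h ih =>
    obtain ⟨S, hSN, hS⟩ := ih
    exact ⟨S, hSN, fun p hp hpS => Cls.ofUniv A (hS p hp hpS)⟩
  | free A g h => exact ⟨∅, hE, fun p _ _ => Cls.free A g h⟩
  | coord κ => exact ⟨∅, hE, fun p _ _ => Cls.coord κ⟩
  | const σ a ha => exact ⟨∅, hE, fun p _ _ => Cls.const σ a ha⟩
  | hyp A h ih =>
    obtain ⟨S, hSN, hS⟩ := ih
    exact ⟨S, hSN, fun p hp hpS => Cls.hyp A (hS p hp hpS)⟩
  | pow σ g k hk h ih =>
    obtain ⟨S, hSN, hS⟩ := ih
    exact ⟨S, hSN, fun p hp hpS => Cls.pow σ g k hk (hS p hp hpS)⟩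
  | sum A A' hA hA' ihA ihA' =>
    obtain ⟨S, hSN, hS⟩ := ihA
    obtain ⟨S', hSN', hS'⟩ := ihA'
    refine ⟨S ∪ S', hU hSN hSN', fun p hp hpS => ?_⟩
    simp only [Finset.mem_union, not_or] at hpS
    exact Cls.sum A A' (hS p hp hpS.1) (hS' p hp hpS.2)
  | mul c A A' hA hA' ihA ihA' =>
    obtain ⟨S, hSN, hS⟩ := ihA
    obtain ⟨S', hSN', hS'⟩ := ihA'
    refine ⟨S ∪ S', hU hSN hSN', fun p hp hpS => ?_⟩
    simp only [Finset.mem_union, not_or] at hpS
    exact Cls.mul c A A' (hS p hp hpS.1) (hS' p hp hpS.2)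
  | mulT σ τ F G hF h h' ih ih' =>
    obtain ⟨S, hSN, hS⟩ := ih
    obtain ⟨S', hSN', hS'⟩ := ih'
    refine ⟨S ∪ S', hU hSN hSN', fun p hp hpS => ?_⟩
    simp only [Finset.mem_union, not_or] at hpS
    exact Cls.mulT σ τ F G hF (hS p hp hpS.1) (hS' p hp hpS.2)
  | univ A hA ihA =>
    obtain ⟨S, hSN, hS⟩ := ihA
    exact ⟨S, hSN, fun p hp hpS => Cls.univ A (hS p hp hpS)⟩
  | form σ m r a hm ha h f hA ihA =>
    obtain ⟨S, hSN, hS⟩ := ihA
    exact ⟨S, hSN, fun p hp hpS => Cls.form σ m r a hm ha h f (hS p hp hpS)⟩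
  | ts A τ g hA hg ihA ihg =>
    obtain ⟨S, hSN, hS⟩ := ihA
    obtain ⟨S', hSN', hS'⟩ := ihg
    refine ⟨S ∪ S', hU hSN hSN', fun p hp hpS => ?_⟩
    simp only [Finset.mem_union, not_or] at hpS
    exact Cls.ts A τ g (hS p hp hpS.1) (hS' p hp hpS.2)
  | drop σ κ g h ih =>
    obtain ⟨S, hSN, hS⟩ := ih
    exact ⟨S, hSN, fun p hp hpS => Cls.drop σ κ g (hS p hp hpS)⟩
  | up ho A hm h ih =>
    obtain ⟨S, hSN, hS⟩ := ih
    exact ⟨S, hSN, fun p hp hpS => Cls.up ho A hm (hS p hp hpS)⟩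

theorem holds_iff' {p : ℕ} [Fact p.Prime] {o c : Bool} {A : FamQ} :
    Holds p o c A ↔ HF p o c A := holds_iff o c A

/-- **The theorem for the closure.** -/
theorem holds_cls {N : Set ℕ} {o : Bool} {B : Bool → FamQ → Prop}
    (hB : ∀ c A, B c A → Known o c A ∨ ∃ S : Finset ℕ, (∀ p ∈ S, p ∉ N) ∧
      ∀ (p : ℕ) [Fact p.Prime], p ∉ S → Holds p o c A) {c : Bool} {A : FamQ}
    (h : Cls N o B c A) : ∃ S : Finset ℕ, (∀ p ∈ S, p ∉ N) ∧
      ∀ (p : ℕ) [Fact p.Prime], p ∉ S → Holds p o c A := by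
  classical
  obtain ⟨S, hSN, hS⟩ := cls_almost (B' := fun p c A => ∀ [Fact p.Prime], HF p o c A)
    (fun c A h => by
      rcases hB c A h with h1 | ⟨S, hSN, hS⟩
      · exact ⟨∅, fun p hp => absurd hp (Finset.notMem_empty p), fun p _ _ _ => hf_known h1⟩
      · refine ⟨S, hSN, fun p hp hpS => ?_⟩
        intro h3
        exact holds_iff'.1 (hS p hpS)) h
  refine ⟨S, hSN, fun p hp hpS => holds_iff'.2 ?_⟩
  exact hf_main (N := {p}) rfl (fun c A h => @h hp) c A (hS p hp.out hpS)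

end almost

section poles

variable {V : Type} [Fintype V]

theorem sm_core {o : Bool} (F : MvPolynomial V ℚ) (h : SM p o (hypQ F)) :
    ∃ D P : Polynomial ℂ, D ≠ 0 ∧ (∀ s : ℝ, 0 ≤ s →
      D.eval ((tr' p s : ℝ) : ℂ) * ((∫⁻ x : V → ℤ_[p], N p s (MvPolynomial.eval₂ (algebraMap ℚ ℚ_[p])
        (fun i => inc p (x i)) F) ∂(Measure.pi fun _ : V => mu p)).toReal : ℂ) =
          P.eval ((tr' p s : ℝ) : ℂ)) ∧
      ∀ T₀, T₀ ≠ 0 → ∀ b : Polynomial ℂ,
        Pool.Agent.H628R4.TP.IsBFunction (MvPolynomial.map (algebraMap ℚ ℂ) F) b →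
        (Polynomial.X - Polynomial.C ((rr p T₀ : ℝ) : ℂ)) ^ cap o (D.rootMultiplicity T₀) ∣ b := by
  obtain ⟨D, P, hD, h1, h2⟩ := h
  refine ⟨D, P, hD, fun s hs => ?_, fun T hT b hb => ?_⟩
  · rw [← FF_hyp]
    exact h1 s hs
  · by_cases h0 : D.eval T = 0
    · exact (h2 T hT h0).2 b ((isB_hyp F b).2 hb)
    · rw [Polynomial.rootMultiplicity_eq_zero h0]
      unfold cap
      split_ifs <;> simp

theorem padicZeta_eq (F : MvPolynomial V ℚ) (s : ℂ) : padicZeta p F s = zetaQ p F s := rfl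

theorem sm_strong (F : MvPolynomial V ℚ) (h : SM p false (hypQ F)) : StrongMonodromy p F := by
  intro Z hZ hZp s₀ hs b hb
  obtain ⟨D, P, hD0, h1, h2⟩ := sm_core F h
  have h3 := mero_bound p D P hD0 Z hZ (fun s hs => by
    rw [pw_real, hZp s (by simpa using hs), padicZeta_eq, zetaQ_eq, h1 s hs.le]) s₀
  have h5 : rr p (pw p s₀) = s₀.re := pw_norm p s₀
  have h6 := h2 (pw p s₀) (pw_ne_zero p s₀) b hb
  have h7 : cap false (D.rootMultiplicity (pw p s₀)) = 1 := by
    unfold cap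
    rw [if_neg Bool.false_ne_true]
    have : D.rootMultiplicity (pw p s₀) ≠ 0 := by
      intro h0
      rw [h0] at h3
      exact absurd (lt_of_le_of_lt h3 hs) (by simp)
    omega
  rw [h7, pow_one, Polynomial.dvd_iff_isRoot, h5] at h6
  exact h6

theorem sm_strongO (F : MvPolynomial V ℚ) (h : SM p true (hypQ F)) :
    StrongMonodromyOrders p F := by
  intro Z hZ hZp s₀ b hb0 hb
  obtain ⟨D, P, hD0, h1, h2⟩ := sm_core F h
  have h3 := mero_bound p D P hD0 Z hZ (fun s hs => by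
    rw [pw_real, hZp s (by simpa using hs), padicZeta_eq, zetaQ_eq, h1 s hs.le]) s₀
  refine le_trans ?_ h3
  have h5 : rr p (pw p s₀) = s₀.re := pw_norm p s₀
  have h6 := h2 (pw p s₀) (pw_ne_zero p s₀) b hb
  have h7 : cap true (D.rootMultiplicity (pw p s₀)) = D.rootMultiplicity (pw p s₀) := if_pos rfl
  rw [h7, ← Polynomial.le_rootMultiplicity_iff hb0, h5] at h6
  exact_mod_cast neg_le_neg (Int.ofNat_le.2 h6)

end poles

end Pool.Agent.K6.H42.SE
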