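import Pool.Agent.K6.H42.SE.Fin

set_option autoImplicit false
set_option linter.unusedSectionVars false
set_option linter.unusedVariables false

/-! # The Poincare series; the equivalences -/

namespace Pool.Agent.K6.H42.SE

open MeasureTheory Pool.Agent.W427.SMC Pool.Agent.Y230.PT Pool.Agent.Y230.PS
open Pool.Agent.Y230.TH Pool.Agent.W574.SM
open scoped ENNReal
open Pool.Agent.H628R4.TP (IsBFunction)

attribute [local instance] msZ bsZ

variable {p : ℕ} [Fact p.Prime] {V : Type} [Fintype V]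

theorem cap_mono (o : Bool) {a b : ℕ} (h : a ≤ b) : cap o a ≤ cap o b := by
  unfold cap
  split_ifs
  · exact h
  · exact min_le_min_right _ h

theorem map_ZC (F : MvPolynomial V ℤ) : MvPolynomial.map (algebraMap ℚ ℂ)
    (MvPolynomial.map (Int.castRingHom ℚ) F) = MvPolynomial.map (Int.castRingHom ℂ) F := by
  rw [MvPolynomial.map_map]
  congr 1

theorem ser_Vc (F : MvPolynomial V ℤ) :
    ser (Vc (Measure.pi fun _ : V => mu p) (sz fun _ : Fin 1 =>
      MvPolynomial.map (algebraMap ℚ ℚ_[p]) (MvPolynomial.map (Int.castRingHom ℚ) F)) p) =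
      poincare p F := by
  ext e
  rw [coeff_ser, Pool.Agent.N165.CU.coeff_poin]
  have h1 : {x : V → ℤ_[p] | sz (fun _ : Fin 1 => MvPolynomial.map (algebraMap ℚ ℚ_[p])
      (MvPolynomial.map (Int.castRingHom ℚ) F)) x ≤ ((p : ℝ)⁻¹) ^ e} =
      {z | (p : ℤ_[p]) ^ e ∣ MvPolynomial.aeval z F} := by
    ext x
    simp only [Set.mem_ofPred_eq]
    rw [norm_evalZ, dvd_iff_norm, PadicInt.norm_p_pow, inv_pow, zpow_neg, zpow_natCast]
  unfold Vc Vo
  rw [h1, cN_eq]

theorem denef_of_sm {o : Bool} (F : MvPolynomial V ℤ)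
    (h : SM p o (hypQ (MvPolynomial.map (Int.castRingHom ℚ) F))) : Denef p o F := by
  obtain ⟨D, P, hD0, h1', h2⟩ := sm_core (p := p) _ h
  have h1 : ∀ s : ℝ, 0 ≤ s →
      D.eval ((tr' p s : ℝ) : ℂ) * ((∫⁻ x : V → ℤ_[p], tau p s (MvPolynomial.aeval x F)
        ∂(Measure.pi fun _ : V => mu p)).toReal : ℂ) = P.eval ((tr' p s : ℝ) : ℂ) := by
    intro s hs
    rw [← h1' s hs]
    simp only [tau_N]
  obtain ⟨Φ, h3, h4, h5⟩ := poincare_of p _ D P hD0 h1
  refine ⟨Φ, h3, fun T hT0 b hb => ?_⟩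
  have hd : Φ.denom ≠ 0 := Φ.denom_ne_zero
  have hT : T ≠ 0 := by
    rintro rfl
    have h6 : Φ.denom.rootMultiplicity 0 ≠ 0 := by
      rw [Ne, Polynomial.rootMultiplicity_eq_zero_iff]
      intro h
      exact hd (h hT0)
    exact h6 h4
  refine (pow_dvd_pow _ (cap_mono o (h5 T))).trans (h2 T hT b ?_)
  rw [map_ZC]
  exact hb

theorem sm_of_denef {o : Bool} (F : MvPolynomial V ℤ) (hF : F ≠ 0) (h : Denef p o F) :
    SM p o (hypQ (MvPolynomial.map (Int.castRingHom ℚ) F)) := by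
  classical
  obtain ⟨Φ, h1, h2⟩ := h
  have hF0 : MvPolynomial.map (Int.castRingHom ℚ) F ≠ 0 := fun h0 => hF
    (MvPolynomial.map_injective _ Int.cast_injective (by rw [map_zero]; exact h0))
  have hval : ∀ x, Val p (sz ((hypQ (MvPolynomial.map (Int.castRingHom ℚ) F)).toP p) x) := by
    intro x
    have h1 : sz ((hypQ (MvPolynomial.map (Int.castRingHom ℚ) F)).toP p) x =
      ‖MvPolynomial.aeval x F‖ := norm_evalZ F x
    rw [h1]
    by_cases hz : MvPolynomial.aeval x F = 0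
    · exact Or.inl (by rw [hz, norm_zero])
    · refine Or.inr ⟨(MvPolynomial.aeval x F).valuation, ?_⟩
      rw [PadicInt.norm_eq_zpow_neg_valuation hz, inv_pow, zpow_neg, zpow_natCast]
  rw [SM_iff]
  refine FR_of_EP (p := p) (Measure.pi fun _ : V => mu p)
    (sz ((hypQ (MvPolynomial.map (Int.castRingHom ℚ) F)).toP p))
    (sz_meas _) hval ?_ (m := fun T => (Φ.denom.rootMultiplicity T : ℕ∞)) ?_ fun T hT => ?_
  · have hFK : MvPolynomial.map (algebraMap ℚ ℚ_[p]) (MvPolynomial.map (Int.castRingHom ℚ) F) ≠ 0 :=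
      fun h0 => hF0 (MvPolynomial.map_injective _ (algebraMap ℚ ℚ_[p]).injective
        (by rw [map_zero]; exact h0))
    refine measure_mono_null ?_ (null_zero (p := p) _ hFK)
    intro x hx
    have h2 : sz ((hypQ (MvPolynomial.map (Int.castRingHom ℚ) F)).toP p) x ≤ 0 := hx
    have h3 : ‖MvPolynomial.eval (fun i => inc p (x i)) (MvPolynomial.map (algebraMap ℚ ℚ_[p])
        (MvPolynomial.map (Int.castRingHom ℚ) F))‖ ≤
      sz ((hypQ (MvPolynomial.map (Int.castRingHom ℚ) F)).toP p) x :=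
        norm_le_pi_norm (fun _ : Fin 1 => MvPolynomial.eval (fun i => inc p (x i))
          (MvPolynomial.map (algebraMap ℚ ℚ_[p]) (MvPolynomial.map (Int.castRingHom ℚ) F))) 0
    exact norm_le_zero_iff.1 (h3.trans h2)
  · refine rat_EP _ Φ.denom Φ.denom_ne_zero _ Φ.num ?_ fun T _ => le_rfl
    rw [← h1]
    congr 1
    exact ser_Vc F
  · rcases Nat.eq_zero_or_pos (Φ.denom.rootMultiplicity T) with h0 | h0
    · beta_reduce
      rw [h0, Nat.cast_zero]
      exact bot_le
    · refine (le_ml h0).2 fun b hb => ?_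
      have h3 := h2 T ((Polynomial.rootMultiplicity_pos Φ.denom_ne_zero).1 h0) b (by
        rw [← map_ZC]
        exact (isB_hyp _ b).1 hb)
      exact h3

/-- base consisting of one family -/
def One (c : Bool) (A : FamQ) : Bool → FamQ → Prop := fun c' A' => c' = c ∧ A' = A

theorem of_one {o c c' : Bool} {A A' : FamQ} {N : Set ℕ} (hp : p ∈ N)
    (hA : HF p o c A) (h : Cls N o (One c A) c' A') : HF p o c' A' :=
  hf_main hp (fun c1 A1 h1 => by
    obtain ⟨rfl, rfl⟩ := h1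
    exact hA) c' A' h

/-- **The ideal `(f_j)` and the polynomial `∑ y_j f_j`.** -/
theorem sm_univ {o : Bool} (A : FamQ) (hA : ∃ j, A.f j ≠ 0) : SM p o A ↔ RSM p o A.univ := by
  rw [SM_iff, RSM_iff]
  constructor
  · intro h
    have h1 : HF p o false A := ⟨hA, by rwa [if_neg Bool.false_ne_true]⟩
    have h2 := of_one (N := {p}) rfl h1 (Cls.univ A (Cls.base false A ⟨rfl, rfl⟩))
    have h3 := h2.2
    rwa [if_pos rfl] at h3
  · intro h
    have h1 : HF p o true A.univ := ⟨univ_ne A hA, by rwa [if_pos rfl]⟩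
    have h2 := of_one (N := {p}) rfl h1 (Cls.ofUniv A (Cls.base true A.univ ⟨rfl, rfl⟩))
    have h3 := h2.2
    rwa [if_neg Bool.false_ne_true] at h3

/-- **The polynomials `g` and `g + ∑ y_k z_k`.** -/
theorem rsm_stab {o : Bool} {τ κ : Type} [Fintype τ] [Fintype κ] [Nonempty κ]
    (g : MvPolynomial τ ℚ) (hg : ∀ c, g ≠ MvPolynomial.C c) :
    RSM p o (hypQ g) ↔ SM p o (tsum (coordQ κ) τ g) := by
  have hg0 : g ≠ 0 := fun h => hg 0 (by rw [h, MvPolynomial.C_0])
  rw [SM_iff, RSM_iff]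
  constructor
  · intro h
    have h1 : HF p o true (hypQ g) := ⟨⟨(0 : Fin 1), hg0⟩, by rwa [if_pos rfl]⟩
    have h2 := of_one (N := {p}) rfl h1 (Cls.stab (κ := κ) g (Cls.base true (hypQ g) ⟨rfl, rfl⟩))
    have h3 := h2.2
    rwa [if_neg Bool.false_ne_true] at h3
  · intro h
    have h1 : HF p o false (tsum (coordQ κ) τ g) := ⟨ts_ne (coordQ κ) τ g hg0, by
      rwa [if_neg Bool.false_ne_true]⟩
    have h2 := of_one (N := {p}) rfl h1 (Cls.unstab τ κ g hg (Cls.base false _ ⟨rfl, rfl⟩))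
    have h3 := h2.2
    rwa [if_pos rfl] at h3

/-- **The ideals `I` and `I + (z)`.** -/
theorem sm_sum {o : Bool} (A : FamQ) (hA : ∃ j, A.f j ≠ 0) (κ : Type) [Fintype κ] [Nonempty κ] :
    SM p o A ↔ SM p o (A.sum (coordQ κ)) := by
  rw [SM_iff, SM_iff]
  constructor
  · intro h
    have h1 : HF p o false A := ⟨hA, by rwa [if_neg Bool.false_ne_true]⟩
    have h2 := of_one (N := {p}) rfl h1
      (Cls.sum A (coordQ κ) (Cls.base false A ⟨rfl, rfl⟩) (Cls.coord κ))
    have h3 := h2.2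
    rwa [if_neg Bool.false_ne_true] at h3
  · intro h
    have h1 : HF p o false (A.sum (coordQ κ)) := ⟨sum_ne A _ hA, by
      rwa [if_neg Bool.false_ne_true]⟩
    have h2 := of_one (N := {p}) rfl h1 (Cls.unsum hA (Cls.base false _ ⟨rfl, rfl⟩))
    have h3 := h2.2
    rwa [if_neg Bool.false_ne_true] at h3

/-- multiplication of a polynomial with a constant -/
theorem Cls.scale {N : Set ℕ} {o c : Bool} {B : Bool → FamQ → Prop} {σ : Type} [Fintype σ]
    (g : MvPolynomial σ ℚ) (a : ℚ) (ha : a ≠ 0) (h : Cls N o B c (hypQ g)) :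
    Cls N o B c (hypQ (MvPolynomial.C a * g)) := by
  have hc : Cls N o B c (hypQ (MvPolynomial.C a : MvPolynomial Empty ℚ)) := by
    cases c
    · exact Cls.hyp _ (Cls.const Empty a ha)
    · exact Cls.const Empty a ha
  refine Cls.equiv c ((hypQ g).mul (hypQ (MvPolynomial.C a : MvPolynomial Empty ℚ)))
    (hypQ (MvPolynomial.C a * g)) (Equiv.sumEmpty σ Empty)
    (Equiv.prodUnique (Fin 1) (Fin 1)) (fun j => ?_) (Cls.mul c _ _ h hc)
  change MvPolynomial.C a * g = MvPolynomial.rename (Equiv.sumEmpty σ Empty)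
    (MvPolynomial.rename Sum.inl g * MvPolynomial.rename Sum.inr
      (MvPolynomial.C a : MvPolynomial Empty ℚ))
  rw [map_mul, MvPolynomial.rename_rename, MvPolynomial.rename_C, MvPolynomial.rename_C, mul_comm]
  congr 1
  have e : (Equiv.sumEmpty σ Empty) ∘ (Sum.inl : σ → σ ⊕ Empty) = id := rfl
  rw [e, MvPolynomial.rename_id_apply]

theorem sm_scale {o : Bool} {σ : Type} [Fintype σ] (g : MvPolynomial σ ℚ) (hg : g ≠ 0) (a : ℚ)
    (ha : a ≠ 0) (h : SM p o (hypQ g)) : SM p o (hypQ (MvPolynomial.C a * g)) := by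
  rw [SM_iff] at h ⊢
  have h1 : HF p o false (hypQ g) := ⟨⟨(0 : Fin 1), hg⟩, by rwa [if_neg Bool.false_ne_true]⟩
  have h2 := of_one (N := {p}) rfl h1 (Cls.scale g a ha (Cls.base false (hypQ g) ⟨rfl, rfl⟩))
  have h3 := h2.2
  rwa [if_neg Bool.false_ne_true] at h3

/-- **Polynomials, ideals and the reduced form.** -/
theorem tfae_all {o : Bool} :
    ((∀ (V : Type) [Fintype V] (F : MvPolynomial V ℚ), F ≠ 0 → SM p o (hypQ F)) ↔
      ∀ A : FamQ, (∃ j, A.f j ≠ 0) → SM p o A) ∧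
    ((∀ (V : Type) [Fintype V] (F : MvPolynomial V ℚ), F ≠ 0 → SM p o (hypQ F)) ↔
      ∀ (V : Type) [Fintype V] (F : MvPolynomial V ℚ), (∀ c, F ≠ MvPolynomial.C c) →
        RSM p o (hypQ F)) ∧
    ((∀ (V : Type) [Fintype V] (F : MvPolynomial V ℚ), F ≠ 0 → SM p o (hypQ F)) ↔
      ∀ (V : Type) [Fintype V] (F : MvPolynomial V ℤ), (∀ c, F ≠ MvPolynomial.C c) →
        Denef p o F) := by
  classical
  have hR : (∀ (V : Type) [Fintype V] (F : MvPolynomial V ℚ), F ≠ 0 → SM p o (hypQ F)) →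
      ∀ (V : Type) [Fintype V] (F : MvPolynomial V ℚ), (∀ c, F ≠ MvPolynomial.C c) →
        RSM p o (hypQ F) := by
    intro h V _ F hF
    have hF0 : F ≠ 0 := fun h => hF 0 (by rw [h, MvPolynomial.C_0])
    refine (rsm_stab (κ := Unit) F hF).2 (h _ _ ?_)
    obtain ⟨j, hj⟩ := ts_ne (coordQ Unit) V F hF0
    exact hj
  refine ⟨⟨fun h A hA => ?_, fun h V _ F hF => h (hypQ F) ⟨(0 : Fin 1), hF⟩⟩,
    ⟨hR, fun h V _ F hF => ?_⟩, ⟨fun h V _ F hF => ?_, fun h V _ F hF => ?_⟩⟩
  · exact (sm_univ A hA).2 (hR h _ _ (univ_nc A hA))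
  · rw [SM_iff]
    by_cases hc : ∃ c, F = MvPolynomial.C c
    · obtain ⟨c, rfl⟩ := hc
      have h1 := (isMltP_o (p := p) o).base.hyp (hypQ (MvPolynomial.C c : MvPolynomial V ℚ))
      have h2 := (hf_const (p := p) (o := o) (σ := V) c (by
        rintro rfl
        exact hF MvPolynomial.C_0)).2
      rw [if_pos rfl] at h2
      exact h2.mono h1
    · push Not at hc
      exact ((RSM_iff o _).1 (h V F hc)).mono ((isMltP_o (p := p) o).base.hyp (hypQ F))
  · refine denef_of_sm F (h V _ fun h0 => ?_)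
    refine hF 0 (MvPolynomial.map_injective (Int.castRingHom ℚ) Int.cast_injective ?_)
    rw [MvPolynomial.C_0, map_zero]
    exact h0
  · by_cases hc : ∃ c, F = MvPolynomial.C c
    · obtain ⟨c, rfl⟩ := hc
      rw [SM_iff]
      have h1 := (isMltP_o (p := p) o).base.hyp (hypQ (MvPolynomial.C c : MvPolynomial V ℚ))
      have h2 := (hf_const (p := p) (o := o) (σ := V) c (by
        rintro rfl
        exact hF MvPolynomial.C_0)).2
      rw [if_pos rfl] at h2
      exact h2.mono h1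
    · push Not at hc
      obtain ⟨n, g, hn, hg⟩ := Pool.Agent.N165.CU.exists_int F
      have hn' : (n : ℚ) ≠ 0 := by exact_mod_cast hn
      have hgF : MvPolynomial.map (Int.castRingHom ℚ) g = MvPolynomial.C (n : ℚ) * F := hg
      have hg0 : g ≠ 0 := by
        rintro rfl
        rw [map_zero] at hgF
        exact (mul_ne_zero (MvPolynomial.C_ne_zero.2 hn') hF) hgF.symm
      have hgc : ∀ c, g ≠ MvPolynomial.C c := by
        rintro c rfl
        rw [MvPolynomial.map_C] at hgF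
        refine hc ((n : ℚ)⁻¹ * c) ?_
        rw [MvPolynomial.C_mul]
        have h4 : (MvPolynomial.C ((Int.castRingHom ℚ) c) : MvPolynomial V ℚ) =
          MvPolynomial.C (c : ℚ) := rfl
        rw [← h4, hgF, ← mul_assoc, ← MvPolynomial.C_mul, inv_mul_cancel₀ hn', MvPolynomial.C_1,
          one_mul]
      have h3 := sm_of_denef g hg0 (h V g hgc)
      rw [hgF] at h3
      have h4 := sm_scale _ (mul_ne_zero (MvPolynomial.C_ne_zero.2 hn') hF) (n : ℚ)⁻¹
        (inv_ne_zero hn') h3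
      rwa [← mul_assoc, ← MvPolynomial.C_mul, inv_mul_cancel₀ hn', MvPolynomial.C_1,
        one_mul] at h4

end Pool.Agent.K6.H42.SE
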