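import Pool.Agent.K6.H42.SE.DefD
import Pool.Agent.N138.RF.Cl3

set_option autoImplicit false

/-! # The families from which the classes are built -/

namespace Pool.Agent.K6.H42.SE

open MvPolynomial Pool.Agent.Y230.PS Pool.Agent.N138.SU Pool.Agent.N138.RF

/-- **The families from which the classes are built**: ideals (`c = false`) and polynomials (`c = true`). In
the version `o = true` the orders of the poles are controlled as well, and `N` is a set of primes. -/
inductive Base (N : Set ℕ) (o : Bool) : Bool → FamQ → Prop
  /-- the ideals which are obtained by sums and products in disjoint sets of variables and by cones from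
  the nonzero ideals of `ℚ[x, y]` and the unit ideals -/
  | good (A : FamQ) (h : Good o A) : Base N o false A
  /-- the monomial ideals, in any number of variables -/
  | mono (σ ι : Type) [Fintype σ] [Fintype ι] [Nonempty ι] (v : ι → σ →₀ ℕ) :
      Base N o false ⟨σ, ι, fun j => monomial (v j) 1⟩
  /-- the polynomials with at least two monomials, the exponents of which are affinely independent -/
  | sparse (n k : ℕ) (hk : 2 ≤ k) (m : Fin k → Fin n → ℕ)
      (hm : AffineIndependent ℚ fun (j : Fin k) (i : Fin n) => (m j i : ℚ)) (a : Fin k → ℤ)
      (ha : ∀ j, a j ≠ 0) : Base N o true (hypQ (map (Int.castRingHom ℚ)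
        (∑ j, C (a j) * ∏ i, X i ^ m j i)))
  /-- the formulas over all nonconstant polynomials in two variables and all weighted homogeneous
  polynomials with an isolated critical point: they are obtained from these polynomials by sums
  `F(x) + G(y)` and products `F(x) G(y)` in disjoint sets of variables, and compositions `P(F(x))` with
  nonconstant polynomials `P` in one variable -/
  | formula (V : Type) [Fintype V] (F : MvPolynomial V ℚ) (h : RO V F) : Base N o true (hypQ F)
  /-- in the version without orders, the polynomials
  `h(x) (f_0(x) + ∑_j y_j f_j(x)) ^ a`, `x = (x_0, x_1)` -/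
  | affine (ho : o = false) (κ : Type) [Fintype κ] (h : MvPolynomial (Fin 2) ℚ)
      (f : Option κ → MvPolynomial (Fin 2) ℚ) (a : ℕ) (hh : h ≠ 0) (hf : ∃ j, f (some j) ≠ 0)
      (ha : 1 ≤ a) : Base N o false (hypQ (affF h f a))
  /-- the products of determinantal ideals: of the ideals of the minors of given sizes of a generic or
  symmetric matrix, or of the Pfaffians of a skew symmetric one, of proper submatrices (`Small`); in the
  version with orders the candidate poles have to be different -/
  | det (S : Pool.Agent.TH192.DT.MSpace) (T : ℕ) (k : Fin T → ℕ) (hk : ∀ t, S.Small (k t))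
      (ho : o = true → DistRatios S k) : Base N o false (detFam S k)
  /-- the principal ideals `(F)`, such that for all primes `p` outside a finite set, which does not meet
  `N`, the zeta function of `F` is a rational function of `p ^ (-s)` (this is Igusa's theorem) and
  `F` satisfies the strong monodromy conjecture -/
  | prin (V : Type) [Fintype V] (F : MvPolynomial V ℚ) (hF : F ≠ 0)
      (h : ∃ S : Finset ℕ, (∀ p ∈ S, p ∉ N) ∧ ∀ (p : ℕ) [Fact p.Prime], p ∉ S →
        Rational p F ∧ Conj p o F) : Base N o false (hypQ F)

end Pool.Agent.K6.H42.SE
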