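import Pool.Agent.K6.H42.SE.Det
import Pool.Agent.N165.CU.Rat

set_option autoImplicit false
set_option linter.unusedSectionVars false
set_option linter.unusedVariables false

/-! # From the meromorphic formulation to rational functions -/

namespace Pool.Agent.K6.H42.SE

open MeasureTheory Pool.Agent.W427.SMC Pool.Agent.Y230.PT Pool.Agent.Y230.PS
open Pool.Agent.Y230.TH Pool.Agent.W574.SM
open Pool.Agent.N165.CU (StrongMonodromy StrongMonodromyOrders padicZeta)
open scoped ENNReal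
open Filter Topology

attribute [local instance] msZ bsZ

/-- a rational function for `s > 0`, for bounded functions -/
theorem rat_zeroB {p : ℕ} [Fact p.Prime] {Ω : Type} [MeasurableSpace Ω] (μ : Measure Ω)
    [IsProbabilityMeasure μ] (ρ : Ω → ℝ)
    (hm : Measurable ρ) (B : ℝ) (hB : 1 ≤ B) (h01 : ∀ x, 0 ≤ ρ x ∧ ρ x ≤ B)
    (h0 : μ {x | ρ x ≤ 0} = 0)
    (D P : Polynomial ℂ) (h : ∀ s : ℝ, 0 < s →
      D.eval ((tr' p s : ℝ) : ℂ) * FZ μ ρ s = P.eval ((tr' p s : ℝ) : ℂ)) (s : ℝ) (hs : 0 ≤ s) :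
    D.eval ((tr' p s : ℝ) : ℂ) * FZ μ ρ s = P.eval ((tr' p s : ℝ) : ℂ) := by
  rcases hs.eq_or_lt with rfl | hs
  swap
  · exact h s hs
  have hp : (0 : ℝ) < p := by exact_mod_cast (Fact.out : p.Prime).pos
  have h1 : Tendsto (fun s : ℝ => ∫⁻ x, ENNReal.ofReal (ρ x ^ s) ∂μ) (𝓝[>] 0)
      (𝓝 (∫⁻ x, ENNReal.ofReal (ρ x ^ (0 : ℝ)) ∂μ)) := by
    refine tendsto_lintegral_filter_of_dominated_convergence (fun _ => ENNReal.ofReal B)
      (Eventually.of_forall fun s => (hm.pow_const s).ennreal_ofReal) ?_ (by simp) ?_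
    · have h2 : ∀ᶠ s : ℝ in 𝓝[>] 0, s < 1 :=
        nhdsWithin_le_nhds (gt_mem_nhds one_pos)
      filter_upwards [h2, self_mem_nhdsWithin] with s hs1 hs0
      refine Eventually.of_forall fun x => ENNReal.ofReal_le_ofReal ?_
      calc ρ x ^ s ≤ B ^ s := Real.rpow_le_rpow (h01 x).1 (h01 x).2 (le_of_lt hs0)
        _ ≤ B ^ (1 : ℝ) := Real.rpow_le_rpow_of_exponent_le hB hs1.le
        _ = B := Real.rpow_one B
    · have h2 : ∀ᵐ x ∂μ, ¬ ρ x ≤ 0 := by
        rw [ae_iff]
        simpa using h0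
      filter_upwards [h2] with x hx
      refine (ENNReal.continuous_ofReal.tendsto _).comp ?_
      have h3 : ContinuousAt (fun s : ℝ => ρ x ^ s) 0 :=
        Real.continuousAt_const_rpow (ne_of_gt (not_le.1 hx))
      exact h3.tendsto.mono_left nhdsWithin_le_nhds
  have hfin : (∫⁻ x, ENNReal.ofReal (ρ x ^ (0 : ℝ)) ∂μ) ≠ ⊤ := by
    simp
  have h2 : Tendsto (fun s : ℝ => FZ μ ρ s) (𝓝[>] 0) (𝓝 (FZ μ ρ 0)) := by
    unfold FZ
    exact (Complex.continuous_ofReal.tendsto _).comp ((ENNReal.tendsto_toReal hfin).comp h1)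
  have h3 : Tendsto (fun s : ℝ => ((tr' p s : ℝ) : ℂ)) (𝓝[>] 0) (𝓝 ((tr' p 0 : ℝ) : ℂ)) := by
    have h4 : Continuous fun s : ℝ => ((tr' p s : ℝ) : ℂ) := by
      unfold tr'
      exact Complex.continuous_ofReal.comp (continuous_const.rpow continuous_neg
        fun _ => Or.inl hp.ne')
    exact (h4.tendsto 0).mono_left nhdsWithin_le_nhds
  have h5 : Tendsto (fun s : ℝ => D.eval ((tr' p s : ℝ) : ℂ) * FZ μ ρ s) (𝓝[>] 0)
      (𝓝 (D.eval ((tr' p 0 : ℝ) : ℂ) * FZ μ ρ 0)) :=
    ((D.continuous.tendsto _).comp h3).mul h2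
  have h6 : Tendsto (fun s : ℝ => P.eval ((tr' p s : ℝ) : ℂ)) (𝓝[>] 0)
      (𝓝 (P.eval ((tr' p 0 : ℝ) : ℂ))) := (P.continuous.tendsto _).comp h3
  refine tendsto_nhds_unique h5 (h6.congr' ?_)
  exact eventually_nhdsWithin_of_forall fun s hs => (h s hs).symm

variable {p : ℕ} [Fact p.Prime]

theorem ord_comp (R : Polynomial ℂ) (hR : R ≠ 0) (s0 : ℂ) :
    meromorphicOrderAt (fun s => R.eval (pw p s)) s0 = (R.rootMultiplicity (pw p s0) : ℤ) := by
  have := meromorphicOrderAt_comp_of_deriv_ne_zero (f := fun z => R.eval z) (pw_analytic p s0)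
    (pw_deriv p s0)
  rw [order_poly R hR] at this
  exact this

theorem pw_lt {s : ℂ} (hs : 0 < s.re) : ‖pw p s‖ < 1 := by
  unfold pw
  rw [Complex.norm_exp]
  have h1 : (-(s * ((Real.log p : ℝ) : ℂ))).re = -(s.re * Real.log p) := by
    rw [Complex.neg_re, Complex.re_mul_ofReal]
  rw [h1, Real.exp_lt_one_iff]
  have := log_p_pos p
  nlinarith [mul_pos hs this]

theorem tr'_norm {s : ℝ} (hs : 0 ≤ s) : ‖((tr' p s : ℝ) : ℂ)‖ ≤ 1 := by
  rw [Complex.norm_real, Real.norm_of_nonneg (tr'_pos p s).le]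
  exact tr'_le p s hs

/-- **The rational formulation follows from the meromorphic one**, if the zeta function is known to be
rational without poles in the closed unit disc. -/
theorem sm_of_strong {o : Bool} {V : Type} [Fintype V] (F : MvPolynomial V ℚ) (hF : F ≠ 0)
    (D P : Polynomial ℂ) (hD : ∀ T : ℂ, ‖T‖ ≤ 1 → D.eval T ≠ 0)
    (h : ∀ s : ℂ, 0 < s.re → D.eval (pw p s) * padicZeta p F s = P.eval (pw p s))
    (hs : if o = true then StrongMonodromyOrders p F else StrongMonodromy p F) :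
    SM p o (hypQ F) := by
  classical
  have hD0 : D ≠ 0 := by
    rintro rfl
    exact hD 0 (by simp) (by simp)
  have hFK : MvPolynomial.map (algebraMap ℚ ℚ_[p]) F ≠ 0 := fun h0 => hF
    (MvPolynomial.map_injective _ (algebraMap ℚ ℚ_[p]).injective (by rw [h0, map_zero]))
  -- real `s`
  have hR : ∀ s : ℝ, 0 ≤ s → D.eval ((tr' p s : ℝ) : ℂ) *
      Pool.Agent.Y230.PS.FF ((hypQ F).toP p) s = P.eval ((tr' p s : ℝ) : ℂ) := by
    obtain ⟨B, hB⟩ := (isCompact_range (sz_cont ((hypQ F).toP p))).bddAbove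
    intro s hs
    refine rat_zeroB (Measure.pi fun _ : V => mu p) (sz ((hypQ F).toP p)) (sz_meas _) (max B 1)
      (le_max_right _ _) (fun x => ⟨sz_nonneg _ _, (hB ⟨x, rfl⟩).trans (le_max_left _ _)⟩) ?_ D P
      (fun s hs => ?_) s hs
    · refine measure_mono_null ?_ (null_zero (p := p) _ hFK)
      intro x hx
      have h2 : sz ((hypQ F).toP p) x ≤ 0 := hx
      have h3 : ‖MvPolynomial.eval (fun i => inc p (x i))
          (MvPolynomial.map (algebraMap ℚ ℚ_[p]) F)‖ ≤ sz ((hypQ F).toP p) x :=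
        norm_le_pi_norm (fun _ : Fin 1 => MvPolynomial.eval (fun i => inc p (x i))
          (MvPolynomial.map (algebraMap ℚ ℚ_[p]) F)) 0
      exact norm_le_zero_iff.1 (h3.trans h2)
    · have h1 := h (s : ℂ) (by simpa using hs)
      rw [pw_real] at h1
      rw [← h1]
      congr 1
      have h4 : padicZeta p F (s : ℂ) = zetaQ p F (s : ℂ) := rfl
      rw [h4, zetaQ_eq, ← FF_hyp]
      rfl
  rw [SM_iff]
  intro T0 hT0
  by_cases hT1 : ‖T0‖ ≤ 1
  · refine ⟨0, bot_le, D, P, hD T0 hT1, fun s hs => ?_⟩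
    rw [pow_zero, one_mul]
    exact hR s hs
  have hT1' : 1 < ‖T0‖ := not_le.1 hT1
  by_cases hP0 : P = 0
  · refine ⟨0, bot_le, 1, 0, by simp, fun s hs => ?_⟩
    have h1 := hR s hs
    rw [hP0, Polynomial.eval_zero] at h1
    rw [(mul_eq_zero.1 h1).resolve_left (hD _ (tr'_norm hs)), mul_zero, Polynomial.eval_zero]
  obtain ⟨D1, hD1, hnD⟩ := Polynomial.exists_eq_pow_rootMultiplicity_mul_and_not_dvd D hD0 T0
  obtain ⟨P1, hP1, hnP⟩ := Polynomial.exists_eq_pow_rootMultiplicity_mul_and_not_dvd P hP0 T0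
  set b := D.rootMultiplicity T0 with hb
  set a := P.rootMultiplicity T0 with ha
  have hD1e : D1.eval T0 ≠ 0 := fun h0 => hnD (Polynomial.dvd_iff_isRoot.2 h0)
  have hne : ∀ s : ℝ, 0 ≤ s → ((tr' p s : ℝ) : ℂ) - T0 ≠ 0 := by
    intro s hs h0
    have h1 := tr'_norm (p := p) hs
    rw [sub_eq_zero.1 h0] at h1
    exact hT1 h1
  have hid : ∀ s : ℝ, 0 ≤ s → (((tr' p s : ℝ) : ℂ) - T0) ^ b * D1.eval ((tr' p s : ℝ) : ℂ) *
      Pool.Agent.Y230.PS.FF ((hypQ F).toP p) s =
        (((tr' p s : ℝ) : ℂ) - T0) ^ a * P1.eval ((tr' p s : ℝ) : ℂ) := by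
    intro s hs
    have h1 := hR s hs
    rw [hD1, hP1] at h1
    simpa only [Polynomial.eval_mul, Polynomial.eval_pow, Polynomial.eval_sub, Polynomial.eval_X,
      Polynomial.eval_C] using h1
  rcases Nat.lt_or_ge a b with hab | hab
  · -- a pole of order `b - a`
    refine ⟨b - a, ?_, D1, P1, hD1e, fun s hs => ?_⟩
    · rw [Pool.Agent.Y230.PS.tr, if_neg hT1]
      refine (le_ml (by omega)).2 ?_
      obtain ⟨s0, hs0⟩ : ∃ s0 : ℂ, pw p s0 = T0 := by
        refine ⟨-(Complex.log T0) / (Real.log p : ℝ), ?_⟩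
        unfold pw
        have h1 : ((Real.log p : ℝ) : ℂ) ≠ 0 := by exact_mod_cast (log_p_pos p).ne'
        rw [div_mul_cancel₀ _ h1, neg_neg, Complex.exp_log hT0]
      set Z : ℂ → ℂ := fun s => P.eval (pw p s) / D.eval (pw p s) with hZ
      have hPa : ∀ s, MeromorphicAt (fun s => P.eval (pw p s)) s := fun s =>
        ((P.differentiable.analyticAt (pw p s)).comp (pw_analytic p s)).meromorphicAt
      have hDa : ∀ s, MeromorphicAt (fun s => D.eval (pw p s)) s := fun s =>
        ((D.differentiable.analyticAt (pw p s)).comp (pw_analytic p s)).meromorphicAt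
      have hZm : MeromorphicOn Z Set.univ := fun s _ => (hPa s).div (hDa s)
      have hZp : ∀ s : ℂ, 0 < s.re → Z s = padicZeta p F s := by
        intro s hs
        rw [hZ]
        beta_reduce
        rw [div_eq_iff (hD _ (pw_lt hs).le), mul_comm]
        exact (h s hs).symm
      have hord : meromorphicOrderAt Z s0 = (((a : ℤ) - b : ℤ) : WithTop ℤ) := by
        have e : Z = (fun s => P.eval (pw p s)) * (fun s => D.eval (pw p s))⁻¹ := by
          funext s
          rw [hZ, Pi.mul_apply, Pi.inv_apply]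
          exact div_eq_mul_inv _ _
        rw [e, meromorphicOrderAt_mul (hPa s0) (hDa s0).inv, meromorphicOrderAt_inv,
          ord_comp P hP0, ord_comp D hD0, hs0, ← hb, ← ha]
        rw [sub_eq_add_neg]
        rfl
      have hre : ((rr p T0 : ℝ) : ℂ) = (s0.re : ℂ) := by
        rw [← hs0]
        have : rr p (pw p s0) = s0.re := pw_norm p s0
        rw [this]
      intro β hβ
      rw [isB_hyp] at hβ
      rw [hre]
      cases o
      · rw [if_neg Bool.false_ne_true] at hs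
        have h2 := hs Z hZm hZp s0 (by
          rw [hord]
          exact_mod_cast (by omega : (a : ℤ) - b < 0)) β hβ
        have h3 : cap false (b - a) = 1 := by
          unfold cap
          rw [if_neg Bool.false_ne_true]
          omega
        rw [h3, pow_one]
        exact Polynomial.dvd_iff_isRoot.2 h2
      · rw [if_pos rfl] at hs
        by_cases hβ0 : β = 0
        · rw [hβ0]
          exact dvd_zero _
        have h2 := hs Z hZm hZp s0 β hβ0 hβ
        rw [hord] at h2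
        have h3 : (-(β.rootMultiplicity (s0.re : ℂ) : ℤ)) ≤ (a : ℤ) - b := by exact_mod_cast h2
        have h4 : cap true (b - a) = b - a := if_pos rfl
        rw [h4]
        exact (Polynomial.le_rootMultiplicity_iff hβ0).1 (by omega)
    · have h1 := hid s hs
      have h2 : (((tr' p s : ℝ) : ℂ) - T0) ^ b = (((tr' p s : ℝ) : ℂ) - T0) ^ a *
          (((tr' p s : ℝ) : ℂ) - T0) ^ (b - a) := by
        rw [← pow_add]
        congr 1
        omega
      rw [h2, mul_assoc, mul_assoc] at h1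
      have h3 := mul_left_cancel₀ (pow_ne_zero a (hne s hs)) h1
      rw [Polynomial.eval_mul, Polynomial.eval_pow, Polynomial.eval_sub, Polynomial.eval_X,
        Polynomial.eval_C, mul_assoc]
      exact h3
  · refine ⟨0, bot_le, D1, (Polynomial.X - Polynomial.C T0) ^ (a - b) * P1, hD1e,
      fun s hs => ?_⟩
    have h1 := hid s hs
    have h2 : (((tr' p s : ℝ) : ℂ) - T0) ^ a = (((tr' p s : ℝ) : ℂ) - T0) ^ b *
        (((tr' p s : ℝ) : ℂ) - T0) ^ (a - b) := by
      rw [← pow_add]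
      congr 1
      omega
    rw [h2, mul_assoc, mul_assoc] at h1
    have h3 := mul_left_cancel₀ (pow_ne_zero b (hne s hs)) h1
    rw [pow_zero, one_mul, Polynomial.eval_mul, Polynomial.eval_pow, Polynomial.eval_sub,
      Polynomial.eval_X, Polynomial.eval_C]
    exact h3

end Pool.Agent.K6.H42.SE
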