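import Pool.Agent.K6.H42.SE.Kn
import Pool.Agent.K6.H42.SE.Fin2
import Pool.Agent.K6.H42.SE.Strong
import Pool.Agent.K6.H42.SE.Embed

set_option autoImplicit false
set_option linter.unusedSectionVars false
set_option linter.unusedVariables false

/-! # The final statements -/

namespace Pool.Agent.K6.H42.SE

open Pool.Agent.W427.SMC Pool.Agent.Y230.PT Pool.Agent.Y230.PS
open Pool.Agent.Y230.TH Pool.Agent.W574.SM Pool.Agent.N138.SU Pool.Agent.N138.RF
open Pool.Agent.N165.CU (StrongMonodromy StrongMonodromyOrders padicZeta)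

theorem zetaF_eq (p : ℕ) [Fact p.Prime] {V : Type} [Fintype V] (F : MvPolynomial V ℚ) (s : ℂ) :
    zetaF p F s = padicZeta p F s := rfl

theorem conj_iff (p : ℕ) [Fact p.Prime] (o : Bool) {V : Type} [Fintype V]
    (F : MvPolynomial V ℚ) : Conj p o F ↔
      if o = true then StrongMonodromyOrders p F else StrongMonodromy p F := by
  cases o
  · rw [if_neg Bool.false_ne_true]
    constructor
    · intro h Z hZ hZp s₀ hs b hb
      have h1 := h Z hZ hZp s₀ b hb
      rw [if_neg Bool.false_ne_true] at h1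
      exact h1 hs
    · intro h Z hZ hZp s₀ b hb
      rw [if_neg Bool.false_ne_true]
      intro hs
      exact h Z hZ hZp s₀ hs b hb
  · rw [if_pos rfl]
    constructor
    · intro h Z hZ hZp s₀ b hb0 hb
      have h1 := h Z hZ hZp s₀ b hb
      rw [if_pos rfl] at h1
      exact h1 hb0
    · intro h Z hZ hZp s₀ b hb
      rw [if_pos rfl]
      intro hb0
      exact h Z hZ hZp s₀ b hb0 hb

theorem pw_cpow' {p : ℕ} [Fact p.Prime] (s : ℂ) : pw p s = (p : ℂ) ^ (-s) := by
  have hp0 : (p : ℂ) ≠ 0 := by exact_mod_cast (Fact.out : p.Prime).ne_zero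
  unfold pw
  rw [Complex.cpow_def_of_ne_zero hp0, ← Complex.natCast_log]
  congr 1
  ring

theorem base_holds {N : Set ℕ} {o c : Bool} {A : FamQ} (h : Base N o c A) :
    Known o c A ∨ ∃ S : Finset ℕ, (∀ p ∈ S, p ∉ N) ∧
      ∀ (p : ℕ) [Fact p.Prime], p ∉ S → Holds p o c A := by
  cases h with
  | good _ h =>
    left
    cases o
    · exact Known.formulaI rfl A (Cl3.cl _ A (Pool.Agent.N138.SV.Cl2.cl _ A (Cl.good A h)))
    · exact Known.formulaOI A (Pool.Agent.N138.BF.Cl4.cl _ A (Cl.good A h))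
  | mono σ ι v => exact Or.inl (Known.ptp _ _ (Pool.Agent.N127.PP.PTP.mono σ ι v))
  | sparse n k hk m hm a ha => exact Or.inl (Known.sparse n k hk m hm a ha)
  | formula V F h =>
    exact Or.inl (Known.formulaOP _ (Pool.Agent.N138.BF.Cl4.poly _
      (Pool.Agent.N138.BF.Cl4.ro V F h)))
  | affine ho κ h f a hh hf ha =>
    exact Or.inl (Known.formulaI ho _ (Cl3.cl _ _ (Pool.Agent.N138.SV.Cl2.cl _ _
      (Cl.affine rfl κ h f a hh hf ha))))
  | det S T k hk ho => exact Or.inl (Known.det S T k hk ho)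
  | prin V F hF h =>
    right
    obtain ⟨S, hSN, hS⟩ := h
    refine ⟨S, hSN, fun p _ hp => ⟨⟨(0 : Fin 1), hF⟩, ?_⟩⟩
    rw [if_neg Bool.false_ne_true]
    obtain ⟨⟨D, P, hD, h1⟩, h2⟩ := hS p hp
    exact sm_of_strong F hF D P hD (fun s hs => by
      rw [pw_cpow']
      exact h1 s hs) ((conj_iff p o F).1 h2)

theorem sm_last {N : Set ℕ} {o : Bool} {V : Type} [Fintype V] (F : MvPolynomial V ℚ)
    (h : Cls N o (Base N o) false (hypQ F)) :
    ∃ S : Finset ℕ, (∀ p ∈ S, p ∉ N) ∧ ∀ (p : ℕ) [Fact p.Prime], p ∉ S → SM p o (hypQ F) := by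
  obtain ⟨S, hSN, hS⟩ := holds_cls (fun c A hA => base_holds hA) h
  refine ⟨S, hSN, fun p _ hpS => ?_⟩
  have h1 := (hS p hpS).2
  rwa [if_neg Bool.false_ne_true] at h1

/-- **The conjecture for the class.** -/
theorem conj_last {N : Set ℕ} {o : Bool} {V : Type} [Fintype V] (F : MvPolynomial V ℚ)
    (h : Cls N o (Base N o) false (hypQ F)) :
    ∃ S : Finset ℕ, (∀ p ∈ S, p ∉ N) ∧ ∀ (p : ℕ) [Fact p.Prime], p ∉ S → Conj p o F := by
  obtain ⟨S, hSN, hS⟩ := sm_last F h
  refine ⟨S, hSN, fun p _ hpS => (conj_iff p o F).2 ?_⟩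
  have h1 := hS p hpS
  cases o
  · rw [if_neg Bool.false_ne_true]
    exact sm_strong F h1
  · rw [if_pos rfl]
    exact sm_strongO F h1

/-- **Poincare series.** -/
theorem denef_last {N : Set ℕ} {o : Bool} {V : Type} [Fintype V] (F : MvPolynomial V ℤ)
    (h : Cls N o (Base N o) false (hypQ (MvPolynomial.map (Int.castRingHom ℚ) F))) :
    ∃ S : Finset ℕ, (∀ p ∈ S, p ∉ N) ∧ ∀ (p : ℕ) [Fact p.Prime], p ∉ S → Denef p o F := by
  obtain ⟨S, hSN, hS⟩ := sm_last _ h
  exact ⟨S, hSN, fun p _ hpS => denef_of_sm F (hS p hpS)⟩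

end Pool.Agent.K6.H42.SE
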