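import Pool.Agent.K6.H42.SE.PowC

set_option autoImplicit false
set_option linter.unusedSectionVars false
set_option linter.unusedVariables false

/-! # The closure theorem -/

namespace Pool.Agent.K6.H42.SE

open MeasureTheory Pool.Agent.W427.SMC Pool.Agent.Y230.PT Pool.Agent.Y230.PS
open Pool.Agent.Y230.TH Pool.Agent.R852.PP Pool.Agent.N127.PP
open scoped ENNReal
open Pool.Agent.Y230.RE Pool.Agent.W574.SM Pool.Agent.W574.RO Pool.Agent.W574.CN

attribute [local instance] msZ bsZ

variable {p : ℕ} [Fact p.Prime]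

/-- **The closure theorem.** -/
theorem hf_main {o : Bool} {N : Set ℕ} (hp : p ∈ N) {B : Bool → FamQ → Prop}
    (hB : ∀ c A, B c A → HF p o c A) (c : Bool) (A : FamQ) (h : Cls N o B c A) : HF p o c A := by
  classical
  have hM := isMltP_o (p := p) o
  induction h with
  | base c A h => exact hB c A h
  | auto c σ ι f Φ h1 h2 h ih => exact hf_auto f Φ (h1 p hp) (h2 p hp) ih
  | equiv c A A' i k h hA ihA =>
    refine ⟨equiv_ne A A' i k h ihA.1, ?_⟩
    have h3 : ∀ s : ℝ, 0 ≤ s → FF (A.toP p) s = FF (A'.toP p) s := fun s _ => by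
      rw [FF_equiv i k (A.toP p) (A'.toP p) (fun j => ?_) s]
      change MvPolynomial.map (algebraMap ℚ ℚ_[p]) (A'.f (k j)) = _
      rw [h, MvPolynomial.map_rename]
      rfl
    refine (ihA.2.mono fun T hT => ?_).congr h3
    split_ifs
    · exact mr_le fun m hm => FK_equiv A A' i k h _ m hm
    · exact ml_le fun m hm => FK_equiv A A' i k h _ m hm
  | unstab τ κ g hg h ih => exact hf_unstab g hg ih
  | ofUniv A h ih => exact hf_ofUniv A ih
  | free A g h => exact hf_ptp (PTP.good A (GoodP.free A g h))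
  | coord κ => exact hf_ptp (PTP.mono κ κ fun k => Finsupp.single k 1)
  | const σ a ha => exact hf_const a ha
  | hyp A h ih =>
    refine ⟨ih.1, ?_⟩
    have h1 := ih.2
    simp only [if_true] at h1
    rw [if_neg Bool.false_ne_true]
    exact h1.mono (hM.base.hyp A)
  | pow σ g k hk h ih => exact hf_powR g k hk ih
  | mulT σ τ F G hF h h' ih ih' => exact hf_mulT F G hF ih ih'
  | sum A A' hA hA' ihA ihA' =>
    refine ⟨sum_ne A A' ihA.1, ?_⟩
    rw [toP_sum]
    have h1 := ihA.2
    have h2 := ihA'.2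
    simp only [Bool.false_eq_true, if_false] at h1 h2 ⊢
    exact FR_sumK _ _ _ _ _ (hM.base.base.sum A A') h1 h2
  | mul c A A' hA hA' ihA ihA' =>
    refine ⟨mul_ne A A' ihA.1 ihA'.1, ?_⟩
    rw [toP_mul]
    have h1 := ihA.2
    have h2 := ihA'.2
    cases c
    · simp only [Bool.false_eq_true, if_false] at h1 h2 ⊢
      refine (FR.mul h1 h2 (fun T hT => hM.base.base.mul A A' T hT ihA.1 ihA'.1)).congr
        fun s hs => ?_
      rw [FF_mulK]
    · simp only [if_true] at h1 h2 ⊢
      refine (FR.mul h1 h2 (fun T hT => hM.base.mul A A' T hT ihA.1 ihA'.1)).congr fun s hs => ?_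
      rw [FF_mulK]
  | univ A hA ihA =>
    refine ⟨univ_ne A ihA.1, ?_⟩
    rw [toP_univ]
    have hι : Nonempty A.ι := ⟨ihA.1.choose⟩
    have h1 := ihA.2
    simp only [Bool.false_eq_true, if_false, if_true] at h1 ⊢
    exact FR_univK hι _ _ _ (fun T hT => hM.base.univ A T hT ihA.1) h1
  | form σ m r a hm ha h f hA ihA =>
    have hne : ∃ J, genP a h f J ≠ 0 := ihA.1
    obtain ⟨hh, hf⟩ := genQ_ne a h f ha hne
    refine ⟨⟨(0 : Fin 1), formP_ne a h f hne ha⟩, ?_⟩
    have h1 := ihA.2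
    simp only [Bool.false_eq_true, if_false, if_true] at h1 ⊢
    rw [genQ_toP] at h1
    rw [formQ_toP]
    exact FR_formK a (fun t => ⟨(hf t).choose⟩) _ _ _ _
      (fun T hT => hM.form σ m r a h f hm ha hne T hT) h1
  | ts A τ g hA hg ihA ihg =>
    have hg0 : g ≠ 0 := by
      obtain ⟨j, hj⟩ := ihg.1
      exact hj
    refine ⟨ts_ne A τ g hg0, ?_⟩
    rw [toP_ts]
    have hι : Nonempty A.ι := ⟨ihA.1.choose⟩
    have h1 := ihA.2
    have h2 := ihg.2
    simp only [Bool.false_eq_true, if_false, if_true] at h1 h2 ⊢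
    exact FR_ts Pool.Agent.Y287.TH.tZ _ _ _ _ _ (hM.base.ts A τ g ihA.1 hg0)
      (hM.base.one A τ g ihA.1 hg0) h1 h2
  | drop σ κ g h ih =>
    refine ⟨⟨(0 : Fin 1), fun h0 => ?_⟩, ?_⟩
    · obtain ⟨j, hj⟩ := ih.1
      apply hj
      have h1 : g = 0 := h0
      change MvPolynomial.rename Sum.inl g = 0
      rw [h1, map_zero]
    · have h1 := ih.2
      simp only [if_true] at h1 ⊢
      refine (h1.mono (hM.base.drop σ κ g)).congr fun s hs => ?_
      have h2 := FF_drop (κ := κ) (MvPolynomial.map (algebraMap ℚ ℚ_[p]) g) s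
      refine Eq.trans ?_ h2
      congr 1
      funext j
      exact MvPolynomial.map_rename _ _ _
  | up ho A hm h ih =>
    subst ho
    exact hf_up hm ih

end Pool.Agent.K6.H42.SE
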