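import Mathlib

set_option autoImplicit false

/-! # Rational power series whose coefficients decrease to zero have no poles in the closed unit
disc -/

namespace Pool.Agent.K6.H42.SE

open Polynomial Filter Topology

theorem hasSum_poly_mul (D : ℂ[X]) (ψ : PowerSeries ℂ) (T S : ℂ)
    (h : HasSum (fun e => PowerSeries.coeff e ψ * T ^ e) S) :
    HasSum (fun e => PowerSeries.coeff e ((D : PowerSeries ℂ) * ψ) * T ^ e) (D.eval T * S) := by
  induction D using Polynomial.induction_on with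
  | C a =>
    have h1 := h.mul_left a
    rw [eval_C]
    refine h1.congr_fun fun e => ?_
    rw [Polynomial.coe_C, PowerSeries.coeff_C_mul]
    ring
  | add D E hD hE =>
    have h1 := hD.add hE
    rw [eval_add, add_mul]
    refine h1.congr_fun fun e => ?_
    rw [Polynomial.coe_add, add_mul, map_add]
    ring
  | monomial n a hn =>
    have e1 : ((C a * X ^ (n + 1) : ℂ[X]) : PowerSeries ℂ) * ψ =
        PowerSeries.X * (((C a * X ^ n : ℂ[X]) : PowerSeries ℂ) * ψ) := by
      rw [pow_succ, ← mul_assoc, Polynomial.coe_mul, Polynomial.coe_X]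
      ring
    rw [e1]
    have h1 := hn.mul_left T
    have e2 : T * ((C a * X ^ n : ℂ[X]).eval T * S) = (C a * X ^ (n + 1) : ℂ[X]).eval T * S := by
      rw [eval_mul, eval_mul, eval_pow, eval_pow, eval_X, eval_C]
      ring
    rw [e2] at h1
    have h2 : HasSum (fun e => PowerSeries.coeff (e + 1)
        (PowerSeries.X * (((C a * X ^ n : ℂ[X]) : PowerSeries ℂ) * ψ)) * T ^ (e + 1))
        ((C a * X ^ (n + 1) : ℂ[X]).eval T * S) := by
      refine h1.congr_fun fun e => ?_
      rw [PowerSeries.coeff_succ_X_mul]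
      ring
    have h3 := (hasSum_nat_add_iff (f := fun e => PowerSeries.coeff e
        (PowerSeries.X * (((C a * X ^ n : ℂ[X]) : PowerSeries ℂ) * ψ)) * T ^ e) 1).1 h2
    simpa using h3

theorem hasSum_poly (Q : ℂ[X]) (T : ℂ) :
    HasSum (fun e => PowerSeries.coeff e (Q : PowerSeries ℂ) * T ^ e) (Q.eval T) := by
  have h : HasSum (fun e => PowerSeries.coeff e (1 : PowerSeries ℂ) * T ^ e) 1 := by
    have h1 := hasSum_single (f := fun e => PowerSeries.coeff e (1 : PowerSeries ℂ) * T ^ e) 0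
      (fun e he => by rw [PowerSeries.coeff_one, if_neg he, zero_mul])
    simpa using h1
  have h2 := hasSum_poly_mul Q 1 T 1 h
  rwa [mul_one, mul_one] at h2

variable {V : ℕ → ℝ}

/-- `(1 - X) ∑ V_e X ^ e` -/
theorem coeff_one_sub (V : ℕ → ℝ) (e : ℕ) :
    PowerSeries.coeff (e + 1) ((1 - PowerSeries.X) * PowerSeries.mk fun e => ((V e : ℝ) : ℂ)) =
      (V (e + 1) : ℂ) - V e := by
  rw [sub_mul, one_mul, map_sub, PowerSeries.coeff_succ_X_mul, PowerSeries.coeff_mk,
    PowerSeries.coeff_mk]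

theorem coeff_one_sub0 (V : ℕ → ℝ) :
    PowerSeries.coeff 0 ((1 - PowerSeries.X) * PowerSeries.mk fun e => ((V e : ℝ) : ℂ)) =
      (V 0 : ℂ) := by
  rw [sub_mul, one_mul, map_sub, PowerSeries.coeff_zero_X_mul, PowerSeries.coeff_mk, sub_zero]

theorem partial_sum (V : ℕ → ℝ) (n : ℕ) : ∑ e ∈ Finset.range (n + 1),
    PowerSeries.coeff e ((1 - PowerSeries.X) * PowerSeries.mk fun e => ((V e : ℝ) : ℂ)) =
      (V n : ℂ) := by
  induction n with
  | zero => rw [zero_add, Finset.sum_range_one, coeff_one_sub0]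
  | succ n ih =>
    rw [Finset.sum_range_succ, ih, coeff_one_sub]
    ring

theorem summable_diff (hV : Antitone V) (h0 : ∀ e, 0 ≤ V e) : Summable fun e =>
    ‖PowerSeries.coeff e ((1 - PowerSeries.X) * PowerSeries.mk fun e => ((V e : ℝ) : ℂ))‖ := by
  rw [← summable_nat_add_iff 1]
  have h1 : ∀ e, ‖PowerSeries.coeff (e + 1)
      ((1 - PowerSeries.X) * PowerSeries.mk fun e => ((V e : ℝ) : ℂ))‖ = V e - V (e + 1) := by
    intro e
    rw [coeff_one_sub, ← Complex.ofReal_sub, Complex.norm_real, Real.norm_eq_abs,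
      abs_of_nonpos (sub_nonpos.2 (hV (Nat.le_succ e)))]
    ring
  simp only [h1]
  refine summable_of_sum_range_le (c := V 0) (fun e => sub_nonneg.2 (hV (Nat.le_succ e)))
    fun n => ?_
  rw [Finset.sum_range_sub']
  linarith [h0 n]

/-- at a zero of the denominator in the closed unit disc the numerator vanishes -/
theorem num_zero (hV : Antitone V) (h0 : ∀ e, 0 ≤ V e) (hl : Tendsto V atTop (𝓝 0)) (D P : ℂ[X])
    (h : (D : PowerSeries ℂ) * PowerSeries.mk (fun e => ((V e : ℝ) : ℂ)) = (P : PowerSeries ℂ))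
    (T : ℂ) (hT : ‖T‖ ≤ 1) (hD : D.eval T = 0) : P.eval T = 0 := by
  set ψ : PowerSeries ℂ := (1 - PowerSeries.X) * PowerSeries.mk fun e => ((V e : ℝ) : ℂ) with hψ
  have hs := summable_diff hV h0
  have hsT : Summable fun e => PowerSeries.coeff e ψ * T ^ e := by
    refine Summable.of_norm (hs.of_nonneg_of_le (fun e => norm_nonneg _) fun e => ?_)
    rw [norm_mul, norm_pow]
    exact mul_le_of_le_one_right (norm_nonneg _) (pow_le_one₀ (norm_nonneg _) hT)
  by_cases hT1 : T = 1
  · subst hT1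
    have hsum := hsT.hasSum
    simp only [one_pow, mul_one] at hsum
    have hS : ∑' e, PowerSeries.coeff e ψ = 0 := by
      have h1 := hsum.tendsto_sum_nat
      have h2 : Tendsto (fun n => ∑ e ∈ Finset.range (n + 1), PowerSeries.coeff e ψ) atTop
          (𝓝 (∑' e, PowerSeries.coeff e ψ)) := h1.comp (tendsto_add_atTop_nat 1)
      have h3 : (fun n => ∑ e ∈ Finset.range (n + 1), PowerSeries.coeff e ψ) =
          fun n => ((V n : ℝ) : ℂ) := funext fun n => partial_sum V n
      rw [h3] at h2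
      have h4 : Tendsto (fun n => ((V n : ℝ) : ℂ)) atTop (𝓝 ((0 : ℝ) : ℂ)) :=
        (Complex.continuous_ofReal.tendsto 0).comp hl
      rw [Complex.ofReal_zero] at h4
      exact tendsto_nhds_unique h2 h4
    rw [hS] at hsum
    obtain ⟨D1, hD1⟩ := dvd_iff_isRoot.2 (show D.IsRoot 1 from hD)
    have h1 : (D1 : PowerSeries ℂ) * ψ = ((-P : ℂ[X]) : PowerSeries ℂ) := by
      rw [Polynomial.coe_neg, ← h, hD1, hψ, Polynomial.coe_mul, Polynomial.coe_sub,
        Polynomial.coe_X, Polynomial.coe_C, map_one]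
      ring
    have h2 := hasSum_poly_mul D1 ψ 1 0 (by simpa using hsum)
    rw [h1, mul_zero] at h2
    have h3 := (hasSum_poly (-P) 1).unique h2
    rw [eval_neg, neg_eq_zero] at h3
    exact h3
  · have h1 : (D : PowerSeries ℂ) * ψ = (((1 - X) * P : ℂ[X]) : PowerSeries ℂ) := by
      rw [Polynomial.coe_mul, ← h, hψ, Polynomial.coe_sub, Polynomial.coe_X, Polynomial.coe_one]
      ring
    have h2 := hasSum_poly_mul D ψ T _ hsT.hasSum
    rw [h1, hD, zero_mul] at h2
    have h3 := (hasSum_poly ((1 - X) * P) T).unique h2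
    rw [eval_mul, eval_sub, eval_one, eval_X] at h3
    exact (mul_eq_zero.1 h3).resolve_left (sub_ne_zero.2 fun h => hT1 h.symm)

/-- the poles in the closed unit disc can be removed -/
theorem exists_red (hV : Antitone V) (h0 : ∀ e, 0 ≤ V e) (hl : Tendsto V atTop (𝓝 0)) :
    ∀ (n : ℕ) (D P : ℂ[X]), D.natDegree = n → D ≠ 0 →
    (D : PowerSeries ℂ) * PowerSeries.mk (fun e => ((V e : ℝ) : ℂ)) = (P : PowerSeries ℂ) →
    ∃ D1 P1 : ℂ[X], D1 ≠ 0 ∧
      (D1 : PowerSeries ℂ) * PowerSeries.mk (fun e => ((V e : ℝ) : ℂ)) = (P1 : PowerSeries ℂ) ∧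
      (∀ T, D1.rootMultiplicity T ≤ D.rootMultiplicity T) ∧ ∀ T : ℂ, ‖T‖ ≤ 1 → D1.eval T ≠ 0 := by
  intro n
  induction n with
  | zero =>
    intro D P hn hD h
    refine ⟨D, P, hD, h, fun T => le_rfl, fun T _ h1 => hD ?_⟩
    rw [natDegree_eq_zero] at hn
    obtain ⟨a, rfl⟩ := hn
    rw [eval_C] at h1
    rw [h1, C_0]
  | succ n ih =>
    intro D P hn hD h
    by_cases hr : ∀ T : ℂ, ‖T‖ ≤ 1 → D.eval T ≠ 0
    · exact ⟨D, P, hD, h, fun T => le_rfl, hr⟩
    · push Not at hr
      obtain ⟨T, hT, h1⟩ := hr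
      have h2 := num_zero hV h0 hl D P h T hT h1
      obtain ⟨D1, hD1⟩ := dvd_iff_isRoot.2 (show D.IsRoot T from h1)
      obtain ⟨P1, hP1⟩ := dvd_iff_isRoot.2 (show P.IsRoot T from h2)
      have hD10 : D1 ≠ 0 := by
        rintro rfl
        exact hD (by rw [hD1, mul_zero])
      have h3 : (D1 : PowerSeries ℂ) * PowerSeries.mk (fun e => ((V e : ℝ) : ℂ)) =
          (P1 : PowerSeries ℂ) := by
        have hX : ((X - C T : ℂ[X]) : PowerSeries ℂ) ≠ 0 := by
          rw [Ne, Polynomial.coe_eq_zero_iff]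
          exact X_sub_C_ne_zero T
        apply mul_left_cancel₀ hX
        rw [← mul_assoc, ← Polynomial.coe_mul, ← hD1, h, hP1, Polynomial.coe_mul]
      have h4 : D1.natDegree = n := by
        have h5 := congrArg natDegree hD1
        rw [hn, natDegree_mul (X_sub_C_ne_zero T) hD10, natDegree_X_sub_C] at h5
        omega
      obtain ⟨D2, P2, h5, h6, h7, h8⟩ := ih D1 P1 h4 hD10 h3
      refine ⟨D2, P2, h5, h6, fun S => (h7 S).trans ?_, h8⟩
      exact rootMultiplicity_le_rootMultiplicity_of_dvd hD ⟨X - C T, by rw [hD1, mul_comm]⟩ S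

end Pool.Agent.K6.H42.SE
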