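import Pool.Agent.Y287.TH.Z
import Pool.Agent.K6.H42.SE.Ser

set_option autoImplicit false
set_option linter.unusedSectionVars false
set_option linter.unusedVariables false

/-! # The zero set of a polynomial over `ℚ_p` has measure zero; poles outside of the closed unit disc -/

namespace Pool.Agent.K6.H42.SE

open MeasureTheory MvPolynomial
open Pool.Agent.W427.SMC Pool.Agent.Y230.PT Pool.Agent.Y230.PS Pool.Agent.Y230.TH
open scoped ENNReal
open Filter Topology

attribute [local instance] msZ bsZ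

variable {p : ℕ} [Fact p.Prime]

/-- points have measure zero -/
theorem mu_point (c : ℤ_[p]) : mu p {c} = 0 := by
  have h1 : ∀ k : ℕ, mu p {c} ≤ ((p : ℝ≥0∞)⁻¹) ^ k := by
    intro k
    rw [← Pool.Agent.Y287.TH.mu_ball_shift k (-c)]
    refine measure_mono ?_
    intro t ht
    rw [Set.mem_singleton_iff] at ht
    subst ht
    change ‖t + -t‖ ≤ _
    rw [add_neg_cancel, norm_zero]
    exact pow_nonneg (inv_nonneg.2 (Nat.cast_nonneg _)) _
  have h2 : Tendsto (fun k : ℕ => ((p : ℝ≥0∞)⁻¹) ^ k) atTop (𝓝 0) := by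
    apply ENNReal.tendsto_pow_atTop_nhds_zero_of_lt_one
    rw [ENNReal.inv_lt_one]
    exact_mod_cast (Fact.out : p.Prime).one_lt
  exact le_antisymm (ge_of_tendsto' h2 h1) bot_le

theorem mu_finite {S : Set ℤ_[p]} (hS : S.Finite) : mu p S = 0 := by
  rw [← Set.biUnion_of_singleton S]
  exact (measure_biUnion_null_iff hS.countable).2 fun c _ => mu_point c

theorem cont_ev {σ : Type} [Fintype σ] (g : MvPolynomial σ ℚ_[p]) :
    Continuous fun x : σ → ℤ_[p] => eval (fun i => inc p (x i)) g :=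
  (MvPolynomial.continuous_eval _).comp (continuous_pi fun i =>
    (inc_emb p).continuous.comp (continuous_apply i))

theorem null_fin : ∀ (n : ℕ) (g : MvPolynomial (Fin n) ℚ_[p]), g ≠ 0 →
    (Measure.pi fun _ : Fin n => mu p) {x | eval (fun i => inc p (x i)) g = 0} = 0 := by
  classical
  intro n
  induction n with
  | zero =>
    intro g hg
    have h : ({x : Fin 0 → ℤ_[p] | eval (fun i => inc p (x i)) g = 0} : Set _) = ∅ := by
      rw [Set.eq_empty_iff_forall_notMem]
      intro x hx
      apply hg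
      have h1 : eval (fun i => inc p (x i)) g = 0 := hx
      rw [eq_C_of_isEmpty g, eval_C] at h1
      rw [eq_C_of_isEmpty g, h1, C_0]
    rw [h, measure_empty]
  | succ n ih =>
    intro g hg
    set G := finSuccEquiv ℚ_[p] n g with hG
    have hG0 : G ≠ 0 := by
      intro h
      exact hg ((finSuccEquiv ℚ_[p] n).injective (by rw [map_zero]; exact h))
    obtain ⟨k, hk⟩ : ∃ k, G.coeff k ≠ 0 := by
      by_contra h
      push Not at h
      exact hG0 (Polynomial.ext fun k => by rw [h k, Polynomial.coeff_zero])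
    have hN := ih (G.coeff k) hk
    set A : Set (Fin (n + 1) → ℤ_[p]) := {x | eval (fun i => inc p (x i)) g = 0} with hA
    have hAm : MeasurableSet A := (isClosed_singleton.preimage (cont_ev g)).measurableSet
    have hmp := measurePreserving_piFinSuccAbove (fun _ : Fin (n + 1) => mu p) 0
    have hmp2 := hmp.symm
    have e1 : (Measure.pi fun _ : Fin (n + 1) => mu p) A =
        ((mu p).prod (Measure.pi fun _ : Fin n => mu p))
          ((MeasurableEquiv.piFinSuccAbove (fun _ : Fin (n + 1) => ℤ_[p]) 0).symm ⁻¹' A) :=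
      (hmp2.measure_preimage hAm.nullMeasurableSet).symm
    rw [e1, ← Measure.prod_swap, Measure.map_apply measurable_swap
      (MeasurableEquiv.measurable _ hAm),
      Measure.measure_prod_null (measurable_swap (MeasurableEquiv.measurable _ hAm))]
    have h2 : ∀ᵐ x ∂(Measure.pi fun _ : Fin n => mu p),
        eval (fun i => inc p (x i)) (G.coeff k) ≠ 0 := by
      rw [ae_iff]
      simpa using hN
    filter_upwards [h2] with x hx
    have h3 : Polynomial.map (eval fun i => inc p (x i)) G ≠ 0 := by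
      intro h
      apply hx
      have h4 := congrArg (fun q => Polynomial.coeff q k) h
      simpa using h4
    have h5 : (Prod.mk x ⁻¹' (Prod.swap ⁻¹' ((MeasurableEquiv.piFinSuccAbove
        (fun _ : Fin (n + 1) => ℤ_[p]) 0).symm ⁻¹' A)) : Set ℤ_[p]).Finite := by
      refine Set.Finite.subset (Set.Finite.preimage
        (f := fun t : ℤ_[p] => inc p t) (fun a _ b _ h => (inc_emb p).injective h)
        (Polynomial.map (eval fun i => inc p (x i)) G).roots.toFinset.finite_toSet) ?_
      intro t ht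
      rw [Set.mem_preimage, Finset.mem_coe, Multiset.mem_toFinset, Polynomial.mem_roots h3]
      have h6 : eval (fun i => inc p ((Fin.insertNth 0 t x : Fin (n + 1) → ℤ_[p]) i)) g = 0 := ht
      have h7 : (fun i => inc p ((Fin.insertNth 0 t x : Fin (n + 1) → ℤ_[p]) i)) =
          Fin.cons (inc p t) fun i => inc p (x i) := by
        funext i
        refine Fin.cases ?_ (fun j => ?_) i
        · rfl
        · rfl
      rw [h7, eval_eq_eval_mv_eval'] at h6
      exact h6
    exact mu_finite h5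

/-- **The zero set of a nonzero polynomial has measure zero.** -/
theorem null_zero {σ : Type} [Fintype σ] (g : MvPolynomial σ ℚ_[p]) (hg : g ≠ 0) :
    (Measure.pi fun _ : σ => mu p) {x | eval (fun i => inc p (x i)) g = 0} = 0 := by
  set e := Fintype.equivFin σ with he
  have h1 := null_fin (p := p) _ (rename e g) (fun h => hg (rename_injective _ e.injective (by
    rw [h, map_zero])))
  have hmp := measurePreserving_piCongrLeft (fun _ : Fin (Fintype.card σ) => mu p) e
  have hm : MeasurableSet {x : Fin (Fintype.card σ) → ℤ_[p] |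
      eval (fun i => inc p (x i)) (rename e g) = 0} :=
    (isClosed_singleton.preimage (cont_ev (rename e g))).measurableSet
  rw [← hmp.measure_preimage hm.nullMeasurableSet] at h1
  refine Eq.trans ?_ h1
  congr 1
  ext x
  simp only [Set.mem_ofPred_eq, Set.mem_preimage, eval_rename]
  have h3 : ((fun i => inc p ((MeasurableEquiv.piCongrLeft
      (fun _ : Fin (Fintype.card σ) => ℤ_[p]) e) x i)) ∘ e) = fun i => inc p (x i) := by
    funext i
    rw [Function.comp_apply]
    congr 1
    exact Equiv.piCongrLeft_apply_apply (fun _ : Fin (Fintype.card σ) => ℤ_[p]) e x i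
  rw [h3]

section vol

variable {Ω : Type} [MeasurableSpace Ω] (μ : Measure Ω) [IsProbabilityMeasure μ] (ρ : Ω → ℝ)

theorem Vo_anti : Antitone (Vo μ ρ p) := by
  refine antitone_nat_of_succ_le fun e => ?_
  unfold Vo
  refine ENNReal.toReal_mono (measure_ne_top _ _) (measure_mono ?_)
  intro x hx
  have h1 : ρ x ≤ ((p : ℝ)⁻¹) ^ (e + 1) := hx
  refine h1.trans (pow_le_pow_of_le_one Pool.Agent.Y287.TH.q_pos.le Pool.Agent.Y287.TH.q_lt.le
    (Nat.le_succ e))

theorem Vo_lim (hm : Measurable ρ) (h0 : μ {x | ρ x ≤ 0} = 0) :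
    Tendsto (Vo μ ρ p) atTop (𝓝 0) := by
  have hq := Pool.Agent.Y287.TH.q_pos (p := p)
  have hq1 := Pool.Agent.Y287.TH.q_lt (p := p)
  have h1 : Tendsto (fun e : ℕ => μ {x | ρ x ≤ ((p : ℝ)⁻¹) ^ e}) atTop
      (𝓝 (μ (⋂ e : ℕ, {x | ρ x ≤ ((p : ℝ)⁻¹) ^ e}))) := by
    refine tendsto_measure_iInter_atTop
      (fun e => (measurableSet_le hm measurable_const).nullMeasurableSet) ?_
      ⟨0, measure_ne_top _ _⟩
    refine antitone_nat_of_succ_le fun e x hx => ?_
    have h1 : ρ x ≤ ((p : ℝ)⁻¹) ^ (e + 1) := hx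
    exact h1.trans (pow_le_pow_of_le_one hq.le hq1.le (Nat.le_succ e))
  have h2 : (⋂ e : ℕ, {x | ρ x ≤ ((p : ℝ)⁻¹) ^ e}) = {x | ρ x ≤ 0} := by
    ext x
    rw [Set.mem_iInter]
    constructor
    · intro h
      exact ge_of_tendsto' (tendsto_pow_atTop_nhds_zero_of_lt_one hq.le hq1) h
    · intro h e
      exact le_trans h (pow_nonneg hq.le e)
  rw [h2, h0] at h1
  have h3 : Tendsto (fun e : ℕ => (μ {x | ρ x ≤ ((p : ℝ)⁻¹) ^ e}).toReal) atTop
      (𝓝 (0 : ℝ≥0∞).toReal) := (ENNReal.tendsto_toReal ENNReal.zero_ne_top).comp h1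
  rwa [ENNReal.toReal_zero] at h3

/-- volumes which tend to zero have no poles in the closed unit disc -/
theorem FR_of_EP (hm : Measurable ρ) (hv : ∀ x, Val p (ρ x)) (h0 : μ {x | ρ x ≤ 0} = 0)
    {m m' : ℂ → ℕ∞} (h : Vc μ ρ p ∈ EP m) (hmm : ∀ T, 1 < ‖T‖ → m T ≤ m' T) :
    FR p m' (FZ μ ρ) := by
  refine FR_of_Vc μ ρ hm hv ?_
  obtain ⟨D, P, hD, h1, h2⟩ := EP_rat m _ h
  obtain ⟨D1, P1, h3, h4, h5, h6⟩ := exists_red (Vo_anti (p := p) μ ρ)
    (fun e => Vo_nonneg μ ρ e) (Vo_lim (p := p) μ ρ hm h0) _ D P rfl hD h1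
  refine rat_EP (Pool.Agent.Y230.PS.tr m') D1 h3 _ P1 h4 fun T hT => ?_
  by_cases hT1 : ‖T‖ ≤ 1
  · rw [Polynomial.rootMultiplicity_eq_zero (h6 T hT1), Nat.cast_zero]
    exact bot_le
  · rw [Pool.Agent.Y230.PS.tr, if_neg hT1]
    refine le_trans ?_ (hmm T (not_le.1 hT1))
    exact le_trans (by exact_mod_cast h5 T) (h2 T hT)

end vol

end Pool.Agent.K6.H42.SE
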