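import Pool.Agent.K6.H42.SE.Props
import Pool.Agent.K6.H39.RC.Pow

set_option autoImplicit false
set_option linter.unusedSectionVars false
set_option linter.unusedVariables false

/-! # Powers are reduced -/

namespace Pool.Agent.K6.H42.SE

open MvPolynomial Pool.Agent.W574.SM Pool.Agent.W574.RO Pool.Agent.Y229
open Pool.Agent.Y230.TL (RE RF)
open Pool.Agent.R852.TP (hmul)
open Pool.Agent.R852.PP (fr_pol fr_sum)
open Pool.Agent.K6.H39.RC (dec_weyl v_mem fr_zero_of)

/-- an equation `(s + 1) B(x, s) (g ^ k) ^ s = P(s) (g ^ k) ^ (s + 1)` gives one of `g` with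
`B(x, s / k)`; the proof is the one of `Pool.Agent.K6.H39.RC.rf_pow` -/
theorem pow_mem {σ : Type} [Fintype σ] [DecidableEq σ] (g : MvPolynomial σ ℂ) (hg : g ≠ 0)
    (k : ℕ) (hk : 2 ≤ k) (B : Polynomial (MvPolynomial σ ℂ)) (P : ℕ →₀ weyl σ)
    (hRE : RE (g ^ k) B P) :
    mulB (Polynomial.C (C ((k : ℂ)⁻¹)) * B.comp ((Polynomial.C ((k : ℂ)⁻¹) *
      Polynomial.X).map C)) (G0 (fun _ : Fin 1 => g)) ∈ V (fun _ : Fin 1 => g) 1 := by
  have hk0 : k ≠ 0 := by omega
  have hkC : (k : ℂ) ≠ 0 := by exact_mod_cast hk0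
  choose c R hcR using fun m => dec_weyl (P m : Module.End ℂ (MvPolynomial σ ℂ)) (P m).2
  set w : Polynomial ℂ := Polynomial.C ((k : ℂ)⁻¹) * Polynomial.X with hw
  set W : Polynomial (MvPolynomial σ ℂ) := w.map C with hW
  set B' : Polynomial (MvPolynomial σ ℂ) := B.comp W with hB'
  have hWev : ∀ u : ℕ, W.eval (u : MvPolynomial σ ℂ) = C (w.eval (u : ℂ)) := fun u => by
    rw [hW, Polynomial.eval_natCast_map]
  have hwk : ∀ n : ℕ, w.eval ((k * n : ℕ) : ℂ) = n := fun n => by
    rw [hw, Polynomial.eval_mul, Polynomial.eval_C, Polynomial.eval_X]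
    push_cast
    rw [inv_mul_cancel_left₀ hkC]
  have hB'ev : ∀ u : ℕ, B'.eval (u : MvPolynomial σ ℂ) = B.eval (C (w.eval (u : ℂ))) := fun u => by
    rw [hB', Polynomial.eval_comp, hWev]
  set a : Polynomial ℂ := Polynomial.C ((k : ℂ)⁻¹) * (Polynomial.X + Polynomial.C (k : ℂ)) with ha
  have haev : ∀ u : ℕ, a.eval (u : ℂ) = (k : ℂ)⁻¹ * ((u : ℂ) + k) := fun u => by
    rw [ha, Polynomial.eval_mul, Polynomial.eval_C, Polynomial.eval_add, Polynomial.eval_X,
      Polynomial.eval_C]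
  -- the equation for all exponents
  have hfrk : ∀ j : ℕ, ∀ x : MvPolynomial σ ℂ, Fr g (fun n => x * g ^ (n + j)) := fun j x =>
    ⟨0, Polynomial.C (x * g ^ j), fun n => by rw [Polynomial.eval_C]; ring⟩
  have hfrB : Fr g (fun n => B'.eval (n : MvPolynomial σ ℂ) * g ^ n) :=
    ⟨0, B', fun n => by ring⟩
  have star : ∀ u : ℕ, a.eval (u : ℂ) • (B'.eval (u : MvPolynomial σ ℂ) * g ^ u) =
      ∑ m ∈ P.support, ((w ^ m).eval (u : ℂ)) •
        (P m : Module.End ℂ (MvPolynomial σ ℂ)) (1 * g ^ (u + k)) := by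
    have hz := fr_zero_of g hg k hk0 (fun u => (∑ m ∈ P.support, ((w ^ m).eval (u : ℂ)) •
        (P m : Module.End ℂ (MvPolynomial σ ℂ)) (1 * g ^ (u + k))) +
        (Polynomial.C (-1) * a).eval (u : ℂ) • (B'.eval (u : MvPolynomial σ ℂ) * g ^ u)) ?_ ?_
    · intro u
      have h1 := hz u
      rw [Polynomial.eval_mul, Polynomial.eval_C, neg_one_mul, neg_smul, ← sub_eq_add_neg,
        sub_eq_zero] at h1
      exact h1.symm
    · refine fr_add (fr_sum _ _ _ fun m _ => ?_) (fr_pol hfrB _)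
      exact fr_pol (fr_weyl (P m : Module.End ℂ (MvPolynomial σ ℂ)) (P m).2 _ (hfrk k 1)) _
    · intro n
      have h1 := hRE n
      have h2 : a.eval ((k * n : ℕ) : ℂ) = (n : ℂ) + 1 := by
        rw [haev]
        push_cast
        field_simp
      rw [Polynomial.eval_mul, Polynomial.eval_C, h2, hB'ev, hwk]
      have h3 : (C (n : ℂ) : MvPolynomial σ ℂ) = (n : MvPolynomial σ ℂ) := map_natCast _ _
      rw [h3, neg_one_mul, neg_smul, pow_mul, h1, Finsupp.sum, ← sub_eq_add_neg, sub_eq_zero]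
      refine Finset.sum_congr rfl fun m _ => ?_
      rw [Polynomial.eval_pow, hwk, one_mul, ← pow_mul]
      congr 3
  -- the derivatives
  set T : ℕ → MvPolynomial σ ℂ := fun u => ∑ m ∈ P.support, ((w ^ m).eval (u : ℂ)) •
    ∑ i, (R m i : Module.End ℂ (MvPolynomial σ ℂ)) (pderiv i g * g ^ (u + (k - 1))) with hT
  set cP : Polynomial (MvPolynomial σ ℂ) := ∑ m ∈ P.support, W ^ m * Polynomial.C (c m) with hcP
  have hcPev : ∀ u : ℕ, cP.eval (u : MvPolynomial σ ℂ) =
      ∑ m ∈ P.support, (w ^ m).eval (u : ℂ) • c m := fun u => by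
    rw [hcP, Polynomial.eval_finsetSum]
    refine Finset.sum_congr rfl fun m _ => ?_
    rw [Polynomial.eval_mul, Polynomial.eval_pow, Polynomial.eval_C, hWev, Polynomial.eval_pow,
      smul_eq_C_mul, C_pow]
  set D : ℕ → MvPolynomial σ ℂ := fun u => (k : ℂ)⁻¹ • (B'.eval (u : MvPolynomial σ ℂ) * g ^ u) +
    (-1 : ℂ) • T u with hD
  have hstar2 : ∀ u : ℕ, ((u : ℂ) + k) • D u =
      cP.eval (u : MvPolynomial σ ℂ) * g ^ (u + k) := by
    intro u
    have h1 := star u
    rw [haev, mul_comm, mul_smul] at h1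
    have h2 : ∑ m ∈ P.support, ((w ^ m).eval (u : ℂ)) •
        (P m : Module.End ℂ (MvPolynomial σ ℂ)) (1 * g ^ (u + k)) =
        cP.eval (u : MvPolynomial σ ℂ) * g ^ (u + k) + ((u : ℂ) + k) • T u := by
      rw [hcPev, hT, Finset.smul_sum, Finset.sum_mul, ← Finset.sum_add_distrib]
      refine Finset.sum_congr rfl fun m _ => ?_
      rw [one_mul, hcR m, smul_add, smul_mul_assoc, smul_comm ((u : ℂ) + k), Finset.smul_sum
        (r := ((u : ℂ) + k))]
      congr 2
      refine Finset.sum_congr rfl fun i _ => ?_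
      rw [← map_smul]
      congr 1
      rw [Derivation.leibniz_pow]
      have h3 : u + k - 1 = u + (k - 1) := by omega
      rw [h3, smul_eq_mul, nsmul_eq_mul, smul_eq_C_mul, map_add, map_natCast, map_natCast]
      push_cast
      ring
    rw [h2] at h1
    rw [hD]
    beta_reduce
    rw [smul_add, h1, smul_smul, mul_neg_one, neg_smul]
    ring
  have hfrD : Fr g D := by
    refine fr_add ?_ ?_
    · have h1 := fr_pol hfrB (Polynomial.C ((k : ℂ)⁻¹))
      simp only [Polynomial.eval_C] at h1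
      exact h1
    · have h1 : Fr g T := by
        refine fr_sum _ _ _ fun m _ => ?_
        refine fr_pol (fr_sum _ _ _ fun i _ => ?_) _
        exact fr_weyl (R m i : Module.End ℂ (MvPolynomial σ ℂ)) (R m i).2 _ (hfrk (k - 1) _)
      have h2 := fr_pol h1 (Polynomial.C (-1 : ℂ))
      simp only [Polynomial.eval_C] at h2
      exact h2
  have hroot : cP.eval (C (-(k : ℂ))) = 0 := by
    obtain ⟨N, ρ, e⟩ := hfrD
    have h1 : (Polynomial.X + Polynomial.C (C (k : ℂ) : MvPolynomial σ ℂ)) * ρ =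
        Polynomial.C (g ^ (N + k)) * cP := by
      refine Polynomial.eq_of_infinite_eval_eq _ _ ?_
      refine (Set.infinite_range_of_injective
        (Nat.cast_injective (R := MvPolynomial σ ℂ))).mono ?_
      rintro _ ⟨u, rfl⟩
      change Polynomial.eval _ _ = Polynomial.eval _ _
      apply mul_right_cancel₀ (pow_ne_zero u hg)
      rw [Polynomial.eval_mul, Polynomial.eval_mul, Polynomial.eval_add, Polynomial.eval_X,
        Polynomial.eval_C, Polynomial.eval_C, mul_assoc, ← e u]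
      have h2 := hstar2 u
      rw [smul_eq_C_mul, map_add, map_natCast C u] at h2
      rw [mul_left_comm, h2]
      ring
    have h2 := congrArg (Polynomial.eval (C (-(k : ℂ)))) h1
    rw [Polynomial.eval_mul, Polynomial.eval_mul, Polynomial.eval_add, Polynomial.eval_X,
      Polynomial.eval_C, Polynomial.eval_C, ← map_add, neg_add_cancel, map_zero, zero_mul] at h2
    exact (mul_eq_zero.1 h2.symm).resolve_left (pow_ne_zero _ hg)
  obtain ⟨c', hc'⟩ := Polynomial.dvd_iff_isRoot.2 hroot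
  have hfin : ∀ u : ℕ, (k : ℂ)⁻¹ • (B'.eval (u : MvPolynomial σ ℂ) * g ^ u) =
      c'.eval (u : MvPolynomial σ ℂ) * g ^ (u + k) + T u := by
    intro u
    have h1 := hstar2 u
    have hne : ((u : ℂ) + k) ≠ 0 := by
      have : ((u + k : ℕ) : ℂ) ≠ 0 := by exact_mod_cast (by omega : u + k ≠ 0)
      push_cast at this
      exact this
    rw [hc', Polynomial.eval_mul, Polynomial.eval_sub, Polynomial.eval_X, Polynomial.eval_C] at h1
    have h2 : (u : MvPolynomial σ ℂ) - C (-(k : ℂ)) = C ((u : ℂ) + k) := by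
      rw [map_neg, map_add, map_natCast C u]
      ring
    rw [h2, mul_assoc, C_mul', ] at h1
    have h3 := smul_right_injective _ hne h1
    rw [hD] at h3
    beta_reduce at h3
    rw [← h3, neg_one_smul]
    ring
  -- the functional equation of `g`
  have hmem : mulB (Polynomial.C (C ((k : ℂ)⁻¹)) * B') (G0 (fun _ : Fin 1 => g)) ∈
      V (fun _ : Fin 1 => g) 1 := by
    have hsum : ∀ s : Fin 1 → ℕ, (C ((∑ j, s j : ℕ) : ℂ) : MvPolynomial σ ℂ) =
        ((s 0 : ℕ) : MvPolynomial σ ℂ) := fun s => by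
      rw [Fin.sum_univ_one, map_natCast]
    have h1 : mulB (Polynomial.C (C ((k : ℂ)⁻¹)) * B') (G0 (fun _ : Fin 1 => g)) =
        mulB (c' * Polynomial.C (g ^ (k - 1))) (fun s : Fin 1 → ℕ =>
          (1 : Module.End ℂ (MvPolynomial σ ℂ)) (g ^ (s 0 + 1))) +
        ∑ m ∈ P.support, ∑ i, mulB (W ^ m) (fun s : Fin 1 → ℕ =>
          ((R m i : Module.End ℂ (MvPolynomial σ ℂ)) *
            LinearMap.mulLeft ℂ (pderiv i g * g ^ (k - 2))) (g ^ (s 0 + 1))) := by
      funext s
      rw [Pi.add_apply, Finset.sum_apply]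
      simp only [Finset.sum_apply, mulB, hsum]
      have h2 := hfin (s 0)
      rw [smul_eq_C_mul] at h2
      rw [Polynomial.eval_mul, Polynomial.eval_C]
      have h3 : G0 (fun _ : Fin 1 => g) s = g ^ (s 0) := by
        rw [G0, Fin.prod_univ_one]
      rw [h3, mul_assoc, h2]
      congr 1
      · rw [Polynomial.eval_mul, Polynomial.eval_C]
        change _ = _ * g ^ (s 0 + 1)
        rw [mul_assoc, ← pow_add]
        congr 2
        omega
      · rw [hT]
        refine Finset.sum_congr rfl fun m _ => ?_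
        rw [Finset.smul_sum]
        refine Finset.sum_congr rfl fun i _ => ?_
        rw [Polynomial.eval_pow, Polynomial.eval_pow, hWev, ← C_pow, smul_eq_C_mul]
        congr 1
        change _ = (R m i : Module.End ℂ (MvPolynomial σ ℂ))
          (pderiv i g * g ^ (k - 2) * g ^ (s 0 + 1))
        rw [mul_assoc, ← pow_add]
        congr 3
        omega
    rw [h1]
    refine Submodule.add_mem _ (mulB_mem _ 1 _ _ (v_mem g 1 (Subalgebra.one_mem _)))
      (Submodule.sum_mem _ fun m _ => Submodule.sum_mem _ fun i _ => mulB_mem _ 1 _ _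
        (v_mem g _ (Subalgebra.mul_mem _ (R m i).2 (hmul _))))
  exact hmem

/-- **The Bernstein-Sato polynomial of a power.** If `(s + 1) c(s)` satisfies a functional equation of
`g ^ k`, `k ≥ 2`, then `c(s / k)` satisfies one of `g`. -/
theorem bfun_pow {σ : Type} [Fintype σ] [DecidableEq σ] (g : MvPolynomial σ ℂ) (hg : g ≠ 0)
    (k : ℕ) (hk : 2 ≤ k) (c : Polynomial ℂ)
    (hb : Pool.Agent.H628R4.TP.IsBFunction (g ^ k) ((Polynomial.X + 1) * c)) :
    IsFunctionalEq (fun _ : Fin 1 => g) (c.comp (Polynomial.C ((k : ℂ)⁻¹) * Polynomial.X)) := by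
  have hb' : ∃ P : ℕ →₀ Pool.Agent.W574.SM.weyl σ, ∀ s : ℕ,
      C (((Polynomial.X + 1) * c).eval (s : ℂ)) * (g ^ k) ^ s =
        P.sum fun m Q => ((s : ℂ) ^ m) • (Q : Module.End ℂ (MvPolynomial σ ℂ))
          ((g ^ k) ^ (s + 1)) := hb
  obtain ⟨P, hP⟩ := hb'
  have hRE : RE (g ^ k) (c.map C) P := by
    intro n
    rw [← hP n]
    have h1 : (c.map (C : ℂ →+* MvPolynomial σ ℂ)).eval (n : MvPolynomial σ ℂ) =
        C (c.eval (n : ℂ)) := by
      rw [← map_natCast (C : ℂ →+* MvPolynomial σ ℂ) n, eval_mapC]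
    rw [h1, Polynomial.eval_mul, Polynomial.eval_add, Polynomial.eval_X, Polynomial.eval_one,
      C_mul, smul_eq_C_mul, mul_assoc]
  have h1 := pow_mem g hg k hk (c.map C) P hRE
  have hkC : (k : ℂ) ≠ 0 := by exact_mod_cast (by omega : k ≠ 0)
  rw [functionalEq_iff', Polynomial.map_comp]
  have h2 : mulB ((c.map C).comp ((Polynomial.C ((k : ℂ)⁻¹) * Polynomial.X).map C))
      (G0 (fun _ : Fin 1 => g)) = (k : ℂ) • mulB (Polynomial.C (C ((k : ℂ)⁻¹)) *
        (c.map C).comp ((Polynomial.C ((k : ℂ)⁻¹) * Polynomial.X).map C))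
          (G0 (fun _ : Fin 1 => g)) := by
    funext s
    rw [Pi.smul_apply]
    unfold mulB
    rw [Polynomial.eval_mul, Polynomial.eval_C, smul_eq_C_mul, ← mul_assoc, ← mul_assoc,
      ← C_mul, mul_inv_cancel₀ hkC, C_1, one_mul]
  rw [h2]
  exact Submodule.smul_mem _ _ h1

end Pool.Agent.K6.H42.SE
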