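import Pool.Agent.K6.H42.SE.PowB

set_option autoImplicit false
set_option linter.unusedSectionVars false
set_option linter.unusedVariables false

/-! # The reduced property of the powers -/

namespace Pool.Agent.K6.H42.SE

open MeasureTheory Pool.Agent.W427.SMC Pool.Agent.Y230.PT Pool.Agent.Y230.PS
open Pool.Agent.Y230.TH Pool.Agent.R852.PP Pool.Agent.N127.PP
open scoped ENNReal
open Pool.Agent.Y230.RE Pool.Agent.W574.SM Pool.Agent.W574.RO Pool.Agent.W574.CN

attribute [local instance] msZ bsZ

theorem FK_powR {σ : Type} [Fintype σ] (g : MvPolynomial σ ℚ) (hg : ∀ c, g ≠ MvPolynomial.C c)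
    (k : ℕ) (hk : 2 ≤ k) (m : ℕ) (h : FK (hypQ g) (-(k : ℂ)) m) :
    FK (hypQ (g ^ k)) (-1) (m + 1) := by
  classical
  intro b hb
  rw [isB_hyp, map_pow] at hb
  set G : MvPolynomial σ ℂ := MvPolynomial.map (algebraMap ℚ ℂ) g with hG
  have hGc : ∀ c, G ≠ MvPolynomial.C c := by
    intro c hc
    refine hg (MvPolynomial.coeff 0 g) (MvPolynomial.ext _ _ fun m => ?_)
    rw [MvPolynomial.coeff_C]
    split_ifs with h1
    · rw [h1]
    · have h2 := congrArg (MvPolynomial.coeff m) hc
      rw [hG, MvPolynomial.coeff_map, MvPolynomial.coeff_C, if_neg h1] at h2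
      exact (map_eq_zero_iff _ (algebraMap ℚ ℂ).injective).1 h2
  have hG0 : G ≠ 0 := fun h => hGc 0 (by rw [h, MvPolynomial.C_0])
  have hGk : ∀ c, G ^ k ≠ MvPolynomial.C c := by
    intro c hc
    have hc0 : c ≠ 0 := by
      rintro rfl
      rw [MvPolynomial.C_0] at hc
      exact pow_ne_zero k hG0 hc
    have hu : IsUnit (G ^ k) := by
      rw [hc]
      exact (isUnit_iff_ne_zero.2 hc0).map MvPolynomial.C
    have hu' : IsUnit G := (isUnit_pow_iff (by omega : k ≠ 0)).1 hu
    obtain ⟨c', -, hc'⟩ := MvPolynomial.isUnit_iff_eq_C_of_isReduced.1 hu'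
    exact hGc c' hc'
  obtain ⟨c, rfl⟩ := minus_one_root _ hGk b hb
  have h1 := bfun_pow G hG0 k hk c hb
  have h2 := h _ h1
  have hkC : (k : ℂ) ≠ 0 := by exact_mod_cast (by omega : k ≠ 0)
  have e : (Polynomial.X - Polynomial.C (-1) : Polynomial ℂ) = Polynomial.X + 1 := by
    rw [Polynomial.C_neg, Polynomial.C_1, sub_neg_eq_add]
  rw [e, pow_succ']
  refine mul_dvd_mul_left _ ?_
  obtain ⟨q, hq⟩ := h2
  have h3 := congrArg (fun r : Polynomial ℂ => r.comp (Polynomial.C (k : ℂ) * Polynomial.X)) hq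
  simp only [Polynomial.comp_assoc, Polynomial.mul_comp, Polynomial.pow_comp,
    Polynomial.sub_comp, Polynomial.C_comp, Polynomial.X_comp] at h3
  rw [← mul_assoc, ← Polynomial.C_mul, inv_mul_cancel₀ hkC, Polynomial.C_1, one_mul,
    Polynomial.comp_X] at h3
  have h4 : (Polynomial.C (k : ℂ) * Polynomial.X - Polynomial.C (-(k : ℂ)) : Polynomial ℂ) =
      Polynomial.C (k : ℂ) * (Polynomial.X + 1) := by
    rw [Polynomial.C_neg]
    ring
  rw [h4, mul_pow, mul_assoc] at h3
  rw [h3]
  refine Dvd.dvd.mul_left ?_ _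
  exact dvd_mul_right _ _

variable {p : ℕ} [Fact p.Prime]

theorem rr_pow {T : ℂ} (k : ℕ) : ((rr p (T ^ k) : ℝ) : ℂ) = k * ((rr p T : ℝ) : ℂ) := by
  unfold rr
  rw [norm_pow, Real.log_pow, ← Complex.ofReal_natCast, ← Complex.ofReal_mul]
  congr 1
  ring

/-- **The powers `g ^ k`, `k ≥ 2`, have the reduced property.** -/
theorem hf_powR {o : Bool} {σ : Type} [Fintype σ] (g : MvPolynomial σ ℚ) (k : ℕ) (hk : 2 ≤ k)
    (h : HF p o false (hypQ g)) : HF p o true (hypQ (g ^ k)) := by
  classical
  have hg : g ≠ 0 := by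
    obtain ⟨j, hj⟩ := h.1
    exact hj
  have hk0 : k ≠ 0 := by omega
  refine ⟨⟨(0 : Fin 1), pow_ne_zero k hg⟩, ?_⟩
  have h1 := h.2
  rw [if_neg Bool.false_ne_true] at h1
  rw [if_pos rfl]
  -- only `|T| > 1` matters
  have h1' : FR p (fun T => if 1 < ‖T‖ then ml p o (hypQ g) T else 0)
      (FF ((hypQ g).toP p)) := h1.mono fun T hT => by
    rw [if_pos hT]
  refine pow_case hk0 (fun T => ?_) h1'
  beta_reduce
  split_ifs with hTk
  · have hT : 1 < ‖T‖ := by
      rw [norm_pow] at hTk
      by_contra hn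
      have := pow_le_one₀ (norm_nonneg T) (not_lt.1 hn) (n := k)
      linarith
    refine enat_le fun a ha h2 => (le_mr ha).2 ?_
    have h3 := (le_ml ha).1 h2
    by_cases hr : ((rr p T : ℝ) : ℂ) = -1
    · rw [hr, dl_eq, if_pos rfl]
      rw [rr_pow, hr, mul_neg_one] at h3
      have hnc : ∀ c, g ≠ MvPolynomial.C c := by
        rintro c rfl
        have h4 : IsFunctionalEq (hypQ (MvPolynomial.C c : MvPolynomial σ ℚ)).toC 1 := by
          rw [isB_hyp]
          have hc : c ≠ 0 := by
            rintro rfl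
            exact hg MvPolynomial.C_0
          have hc' : ((algebraMap ℚ ℂ) c) ≠ 0 := (map_ne_zero _).2 hc
          refine ⟨Finsupp.single 0 ⟨LinearMap.mulLeft ℂ
            (MvPolynomial.C (((algebraMap ℚ ℂ) c)⁻¹)), Pool.Agent.R852.TP.hmul _⟩, fun s => ?_⟩
          rw [Finsupp.sum_single_index (by
            rw [ZeroMemClass.coe_zero, LinearMap.zero_apply, smul_zero]), pow_zero, one_smul,
            Polynomial.eval_one, MvPolynomial.C_1, one_mul, MvPolynomial.map_C]
          change _ = MvPolynomial.C (((algebraMap ℚ ℂ) c)⁻¹) *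
            MvPolynomial.C ((algebraMap ℚ ℂ) c) ^ (s + 1)
          rw [pow_succ', ← mul_assoc, ← MvPolynomial.C_mul, inv_mul_cancel₀ hc',
            MvPolynomial.C_1, one_mul]
        have h5 := h3 _ h4
        have h0 : cap o a ≠ 0 := by
          unfold cap
          split_ifs <;> omega
        have h6 := (dvd_pow_self (Polynomial.X - Polynomial.C (-(k : ℂ))) h0).trans h5
        exact Polynomial.not_isUnit_X_sub_C _ (isUnit_of_dvd_one h6)
      refine (FK_powR g hnc k hk _ h3).mono ?_
      have : cap o (a - dp p T) ≤ cap o a := by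
        unfold cap
        split_ifs
        · omega
        · exact min_le_min_right _ (by omega)
      omega
    · rw [dl_eq, if_neg hr, Nat.add_zero]
      have h4 : (((cap o a : ℕ) : ℕ∞)) ≤ ml p true (hypQ g) (T ^ k) := by
        have h0 : 1 ≤ cap o a := by
          unfold cap
          split_ifs <;> omega
        refine (le_ml h0).2 ?_
        have : cap true (cap o a) = cap o a := if_pos rfl
        rw [this]
        exact h3
      have h5 := h4.trans ((isMltP_o (p := p) true).pow σ g hg k hk0 T)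
      have h0 : 1 ≤ cap o a := by
        unfold cap
        split_ifs <;> omega
      have h6 := (le_ml h0).1 h5
      have h7 : cap true (cap o a) = cap o a := if_pos rfl
      rw [h7] at h6
      refine h6.mono ?_
      unfold cap
      split_ifs
      · omega
      · exact min_le_min_right _ (by omega)
  · exact bot_le

end Pool.Agent.K6.H42.SE
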