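import Pool.Agent.K6.H42.SE.Defs
import Pool.Agent.N127.PP.Main

set_option autoImplicit false
set_option linter.unusedSectionVars false
set_option linter.unusedVariables false

/-! # The closure properties -/

namespace Pool.Agent.K6.H42.SE

open MeasureTheory Pool.Agent.W427.SMC Pool.Agent.Y230.PT Pool.Agent.Y230.PS
open Pool.Agent.Y230.TH Pool.Agent.R852.PP Pool.Agent.N127.PP
open scoped ENNReal
open Pool.Agent.Y230.RE Pool.Agent.W574.SM Pool.Agent.W574.RO Pool.Agent.W574.CN

attribute [local instance] msZ bsZ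

variable {p : ℕ} [Fact p.Prime]

/-- the multiplicities for ideals -/
noncomputable def ml (p : ℕ) [Fact p.Prime] (o : Bool) (A : FamQ) (T : ℂ) : ℕ∞ :=
  if o = true then mM p A T else mR p A T

/-- the multiplicities for polynomials -/
noncomputable def mr (p : ℕ) [Fact p.Prime] (o : Bool) (A : FamQ) (T : ℂ) : ℕ∞ :=
  if o = true then rG p (wM p) A T else rG p (wR p) A T

theorem isMltP_o (o : Bool) : IsMltP p o (ml p o) (mr p o) := by
  cases o
  · exact isMltP_R
  · exact isMltP_M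

theorem isPen_o (o : Bool) : IsPen p o (ml p o) := by
  cases o
  · exact isPen_R
  · exact isPen_M

theorem le_ml {o : Bool} {A : FamQ} {T : ℂ} {a : ℕ} (ha : 1 ≤ a) :
    (a : ℕ∞) ≤ ml p o A T ↔ FK A ((rr p T : ℝ) : ℂ) (cap o a) := by
  classical
  cases o
  · have h1 : cap false a = 1 := by
      unfold cap
      rw [if_neg Bool.false_ne_true]
      omega
    unfold ml
    rw [if_neg Bool.false_ne_true, h1]
    constructor
    · intro h
      exact forced_FK (mR_forced ha h)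
    · intro h
      rw [mR_top (FK_forced le_rfl h)]
      exact le_top
  · have h1 : cap true a = a := if_pos rfl
    unfold ml
    rw [if_pos rfl, h1, le_mM]
    exact ⟨fun h b hb => h b hb, fun h b hb => h b hb⟩

theorem le_mr {o : Bool} {A : FamQ} {T : ℂ} {a : ℕ} (ha : 1 ≤ a) :
    (a : ℕ∞) ≤ mr p o A T ↔
      FK A ((rr p T : ℝ) : ℂ) (cap o (a - dp p T) + dl ((rr p T : ℝ) : ℂ)) := by
  classical
  have hd : dp p T ≤ 1 := by
    rw [dp_eq]
    split_ifs <;> omega
  constructor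
  · intro h
    rcases Nat.lt_or_ge (dp p T) a with h1 | h1
    · have e : ((a - dp p T + dp p T : ℕ) : ℕ∞) = a := by
        congr 1
        omega
      cases o
      · have h2 : cap false (a - dp p T) = 1 := by
          unfold cap
          rw [if_neg Bool.false_ne_true]
          omega
        rw [h2]
        unfold mr at h
        rw [if_neg Bool.false_ne_true, ← e] at h
        exact FK_of_le_R (by omega) h
      · have h2 : cap true (a - dp p T) = a - dp p T := if_pos rfl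
        rw [h2]
        unfold mr at h
        rw [if_pos rfl, ← e] at h
        exact FK_of_le_M (by omega) h
    · have h2 : cap o (a - dp p T) = 0 := by
        have : a - dp p T = 0 := by omega
        rw [this]
        unfold cap
        split_ifs <;> rfl
      rw [h2]
      by_contra hn
      have h3 : mr p o A T = 0 := by
        unfold mr
        split_ifs
        all_goals
          refine nonpos_iff_eq_zero.1 (iSup_le fun k => ?_)
          exact absurd (k.2.mono (by omega)) hn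
      rw [h3] at h
      have : a ≤ 0 := by exact_mod_cast h
      omega
  · intro h
    cases o
    · unfold mr
      rw [if_neg Bool.false_ne_true]
      refine le_trans ?_ (le_rG (w := wR p) h)
      unfold wR cap
      rw [if_neg Bool.false_ne_true]
      split_ifs with h3
      · have h4 : a ≤ dp p T := by omega
        exact_mod_cast h4
      · exact le_top
    · unfold mr
      rw [if_pos rfl]
      refine le_trans ?_ (le_rG (w := wM p) h)
      unfold wM cap
      rw [if_pos rfl]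
      have h4 : a ≤ a - dp p T + dp p T := by omega
      exact_mod_cast h4

theorem enat_le {x y : ℕ∞} (h : ∀ a : ℕ, 1 ≤ a → (a : ℕ∞) ≤ x → (a : ℕ∞) ≤ y) : x ≤ y := by
  refine ENat.forall_natCast_le_iff_le.1 fun a ha => ?_
  rcases Nat.eq_zero_or_pos a with h0 | h0
  · rw [h0, Nat.cast_zero]
    exact bot_le
  · exact h a h0 ha

theorem enat_add_le {x y : ℕ∞} {n : ℕ} (h : ∀ a : ℕ, (a : ℕ∞) ≤ x → 1 ≤ a + n →
    ((a + n : ℕ) : ℕ∞) ≤ y) : x + (n : ℕ∞) ≤ y := by
  refine enat_le fun b hb h1 => ?_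
  rcases eq_or_ne x ⊤ with h2 | h2
  · refine le_trans ?_ (h b (by rw [h2]; exact le_top) (by omega))
    exact_mod_cast Nat.le_add_right b n
  · obtain ⟨a, rfl⟩ := ENat.ne_top_iff_exists.1 h2
    have h3 : b ≤ a + n := by exact_mod_cast h1
    refine le_trans ?_ (h a le_rfl (by omega))
    exact_mod_cast h3

theorem ml_le {o : Bool} {A A' : FamQ} {T : ℂ}
    (h : ∀ m, FK A ((rr p T : ℝ) : ℂ) m → FK A' ((rr p T : ℝ) : ℂ) m) :
    ml p o A T ≤ ml p o A' T :=
  enat_le fun a ha h1 => (le_ml ha).2 (h _ ((le_ml ha).1 h1))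

theorem mr_le {o : Bool} {A A' : FamQ} {T : ℂ}
    (h : ∀ m, FK A ((rr p T : ℝ) : ℂ) m → FK A' ((rr p T : ℝ) : ℂ) m) :
    mr p o A T ≤ mr p o A' T :=
  enat_le fun a ha h1 => (le_mr ha).2 (h _ ((le_mr ha).1 h1))

theorem SM_iff (o : Bool) (A : FamQ) : SM p o A ↔ FR p (ml p o A) (FF (A.toP p)) := by
  constructor
  · rintro ⟨D, P, hD, h1, h2⟩
    refine FR_of_rat D P hD h1 fun T hT => ?_
    rcases Nat.eq_zero_or_pos (D.rootMultiplicity T) with h0 | h0
    · rw [h0, Nat.cast_zero]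
      exact bot_le
    · obtain ⟨h3, h4⟩ := h2 T hT ((Polynomial.rootMultiplicity_pos hD).1 h0)
      unfold Pool.Agent.Y230.PS.tr
      rw [if_neg (not_le.2 h3)]
      exact (le_ml h0).2 fun b hb => h4 b hb
  · intro h
    obtain ⟨D, P, hD, h1, h2⟩ := h.rat
    refine ⟨D, P, hD, h1, fun T hT h0 => ?_⟩
    have h3 : 1 ≤ D.rootMultiplicity T := (Polynomial.rootMultiplicity_pos hD).2 h0
    have h4 := h2 T hT
    unfold Pool.Agent.Y230.PS.tr at h4
    split_ifs at h4 with h5
    · exfalso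
      have : D.rootMultiplicity T ≤ 0 := by exact_mod_cast h4
      omega
    · exact ⟨not_le.1 h5, fun b hb => (le_ml h3).1 h4 b hb⟩

theorem RSM_iff (o : Bool) (A : FamQ) : RSM p o A ↔ FR p (mr p o A) (FF (A.toP p)) := by
  classical
  constructor
  · rintro ⟨D, P, hD, h1, h2⟩
    refine FR_of_rat D P hD h1 fun T hT => ?_
    rcases Nat.eq_zero_or_pos (D.rootMultiplicity T) with h0 | h0
    · rw [h0, Nat.cast_zero]
      exact bot_le
    · obtain ⟨h3, h4⟩ := h2 T hT ((Polynomial.rootMultiplicity_pos hD).1 h0)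
      unfold Pool.Agent.Y230.PS.tr
      rw [if_neg (not_le.2 h3)]
      refine (le_mr h0).2 fun b hb => ?_
      have h5 := h4 b hb
      rw [dp_eq, dl_eq]
      convert h5 using 3
  · intro h
    obtain ⟨D, P, hD, h1, h2⟩ := h.rat
    refine ⟨D, P, hD, h1, fun T hT h0 => ?_⟩
    have h3 : 1 ≤ D.rootMultiplicity T := (Polynomial.rootMultiplicity_pos hD).2 h0
    have h4 := h2 T hT
    unfold Pool.Agent.Y230.PS.tr at h4
    split_ifs at h4 with h5
    · exfalso
      have : D.rootMultiplicity T ≤ 0 := by exact_mod_cast h4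
      omega
    · refine ⟨not_le.1 h5, fun b hb => ?_⟩
      have h6 := (le_mr h3).1 h4 b hb
      rw [dp_eq, dl_eq] at h6
      convert h6 using 3

/-- the statement of the induction -/
def HF (p : ℕ) [Fact p.Prime] (o c : Bool) (A : FamQ) : Prop :=
  (∃ j, A.f j ≠ 0) ∧ FR p (if c = true then mr p o A else ml p o A) (FF (A.toP p))

theorem holds_iff (o c : Bool) (A : FamQ) : Holds p o c A ↔ HF p o c A := by
  unfold Holds HF
  cases c
  · simp only [Bool.false_eq_true, if_false]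
    rw [SM_iff]
  · simp only [if_true]
    rw [RSM_iff]

theorem hf_ptp {o c : Bool} {A : FamQ} (h : PTP o c A) : HF p o c A :=
  ptp_main (isMltP_o o) (isPen_o o) c A h

theorem toP_coord (κ τ : Type) [Fintype κ] [Fintype τ] (g : MvPolynomial τ ℚ) :
    (tsum (coordQ κ) τ g).toP p = fun _ : Fin 1 => (MvPolynomial.rename Sum.inl
      (univK fun k : κ => MvPolynomial.X k) + MvPolynomial.rename Sum.inr
      (MvPolynomial.map (algebraMap ℚ ℚ_[p]) g) : MvPolynomial ((κ ⊕ κ) ⊕ τ) ℚ_[p]) := by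
  have e : (coordQ κ).toP p = fun k : κ => MvPolynomial.X k :=
    funext fun k => MvPolynomial.map_X _ _
  rw [toP_ts]
  exact congrArg (fun q : κ → MvPolynomial κ ℚ_[p] => fun _ : Fin 1 => (MvPolynomial.rename Sum.inl
      (univK q) + MvPolynomial.rename Sum.inr
      (MvPolynomial.map (algebraMap ℚ ℚ_[p]) g) : MvPolynomial ((κ ⊕ κ) ⊕ τ) ℚ_[p])) e

theorem rr_shift {T : ℂ} (hT : 1 < ‖T‖) (k : ℕ) :
    ((rr p ((p : ℂ) ^ k * T) : ℝ) : ℂ) = ((rr p T : ℝ) : ℂ) - k := by
  have hp : (1 : ℝ) < p := by exact_mod_cast (Fact.out : p.Prime).one_lt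
  have hlp : Real.log p ≠ 0 := (Real.log_pos hp).ne'
  have h0 : ‖T‖ ≠ 0 := by
    intro h
    rw [h] at hT
    linarith
  unfold rr
  rw [norm_mul, norm_pow, Complex.norm_natCast, Real.log_mul (pow_ne_zero _ (by linarith)) h0,
    Real.log_pow, ← Complex.ofReal_natCast, ← Complex.ofReal_sub]
  congr 1
  field_simp
  ring

theorem hf_unstab {o : Bool} {κ τ : Type} [Fintype κ] [Fintype τ] [Nonempty κ]
    (g : MvPolynomial τ ℚ) (hg : ∀ c, g ≠ MvPolynomial.C c)
    (h : HF p o false (tsum (coordQ κ) τ g)) : HF p o true (hypQ g) := by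
  classical
  have hg0 : g ≠ 0 := fun h => hg 0 (by rw [h, MvPolynomial.C_0])
  refine ⟨⟨(0 : Fin 1), hg0⟩, ?_⟩
  have h1 := h.2
  rw [if_neg Bool.false_ne_true] at h1
  rw [if_pos rfl]
  rw [toP_coord] at h1
  have hgK : MvPolynomial.map (algebraMap ℚ ℚ_[p]) g ≠ 0 := fun h0 => hg0
    (MvPolynomial.map_injective _ (algebraMap ℚ ℚ_[p]).injective (by rw [map_zero]; exact h0))
  refine FR_unstab (κ := κ) _ hgK _ _ (fun T hT => ?_) h1
  have hp1 : (1 : ℝ) < p := by exact_mod_cast (Fact.out : p.Prime).one_lt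
  have hk1 : 1 ≤ Fintype.card κ := Fintype.card_pos
  have hT1 : 1 < ‖(p : ℂ) ^ Fintype.card κ * T‖ := by
    rw [norm_mul, norm_pow, Complex.norm_natCast]
    have : (1 : ℝ) ≤ (p : ℝ) ^ Fintype.card κ := one_le_pow₀ hp1.le
    nlinarith [norm_nonneg T]
  have hne : (p : ℂ) ^ Fintype.card κ * T ≠ (p : ℂ) := by
    intro h2
    have h3 := congrArg norm h2
    rw [norm_mul, norm_pow, Complex.norm_natCast] at h3
    have h4 : (p : ℝ) ≤ (p : ℝ) ^ Fintype.card κ := by
      calc (p : ℝ) = (p : ℝ) ^ 1 := (pow_one _).symm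
        _ ≤ _ := pow_le_pow_right₀ hp1.le hk1
    nlinarith [norm_nonneg T]
  have hr : ((rr p ((p : ℂ) ^ Fintype.card κ * T) : ℝ) : ℂ) ≠ -1 := by
    intro h2
    have h3 := rr_norm _ hT1 h2
    rw [norm_mul, norm_pow, Complex.norm_natCast] at h3
    have h4 : (p : ℝ) ≤ (p : ℝ) ^ Fintype.card κ := by
      calc (p : ℝ) = (p : ℝ) ^ 1 := (pow_one _).symm
        _ ≤ _ := pow_le_pow_right₀ hp1.le hk1
    nlinarith [norm_nonneg T]
  have hrs : ((rr p ((p : ℂ) ^ Fintype.card κ * T) : ℝ) : ℂ) + (Fintype.card κ : ℂ) =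
      ((rr p T : ℝ) : ℂ) := by
    rw [rr_shift hT]
    ring
  -- the inequality
  have key : ∀ a : ℕ, (a : ℕ∞) ≤ ml p o (tsum (coordQ κ) τ g) ((p : ℂ) ^ Fintype.card κ * T) →
      1 ≤ a + dp p T → ((a + dp p T : ℕ) : ℕ∞) ≤ mr p o (hypQ g) T := by
    intro a ha h1a
    rw [le_mr h1a, Nat.add_sub_cancel]
    rcases Nat.eq_zero_or_pos a with h0 | h0
    · have h2 := FK_unstab (κ := κ) g hg _ hr 0 (FK_zero _ _)
      rw [hrs] at h2
      refine h2.mono (le_of_eq ?_)
      rw [h0]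
      unfold cap
      split_ifs <;> simp
    · have h2 := (le_ml h0).1 ha
      have h3 := FK_unstab (κ := κ) g hg _ hr _ h2
      rw [hrs] at h3
      exact h3
  have e : (if T = (p : ℂ) then (1 : ℕ∞) else 0) = ((dp p T : ℕ) : ℕ∞) := by
    rw [dp_eq]
    split_ifs <;> simp
  rw [e]
  exact enat_add_le key

theorem hf_ofUniv {o : Bool} (A : FamQ) (h : HF p o true A.univ) : HF p o false A := by
  classical
  have hA : ∃ j, A.f j ≠ 0 := by
    by_contra hn
    push Not at hn
    obtain ⟨j, hj⟩ := h.1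
    apply hj
    change (∑ j, MvPolynomial.X (Sum.inl j) * MvPolynomial.rename Sum.inr (A.f j) :
      MvPolynomial (A.ι ⊕ A.σ) ℚ) = 0
    refine Finset.sum_eq_zero fun j _ => ?_
    rw [hn j, map_zero, mul_zero]
  refine ⟨hA, ?_⟩
  have h1 := h.2
  simp only [if_true] at h1
  rw [if_neg Bool.false_ne_true]
  rw [toP_univ] at h1
  refine FR_of_univK ⟨hA.choose⟩ _ _ _ (fun T hT a ha => ?_) h1
  rcases Nat.eq_zero_or_pos a with h0 | h0
  · rw [h0, Nat.cast_zero]
    exact bot_le
  · rw [← dp_eq] at ha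
    have h2 := (le_mr (by omega)).1 ha
    rw [Nat.add_sub_cancel] at h2
    exact (le_ml h0).2 (FK_ofUniv A _ _ h2)

theorem hf_auto {o : Bool} {c : Bool} {σ ι : Type} [Fintype σ] [Fintype ι]
    (f : ι → MvPolynomial σ ℚ) (Φ : MvPolynomial σ ℚ ≃ₐ[ℚ] MvPolynomial σ ℚ)
    (h1 : ∀ i, PInt p (Φ (MvPolynomial.X i))) (h2 : ∀ i, PInt p (Φ.symm (MvPolynomial.X i)))
    (h : HF p o c ⟨σ, ι, f⟩) : HF p o c ⟨σ, ι, fun j => Φ (f j)⟩ := by
  obtain ⟨⟨j, hj⟩, h3⟩ := h
  refine ⟨⟨j, fun h0 => hj ?_⟩, ?_⟩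
  · have h4 : Φ (f j) = 0 := h0
    exact (map_eq_zero_iff Φ Φ.injective).1 h4
  · have h4 : ∀ s : ℝ, 0 ≤ s → FF (FamQ.toP p ⟨σ, ι, f⟩) s =
        FF (FamQ.toP p ⟨σ, ι, fun j => Φ (f j)⟩) s := fun s _ => (FF_auto Φ h1 h2 f s).symm
    refine (h3.mono fun T hT => ?_).congr h4
    split_ifs
    · exact mr_le fun m hm => FK_auto Φ f _ m hm
    · exact ml_le fun m hm => FK_auto Φ f _ m hm

theorem hf_const {o : Bool} {σ : Type} [Fintype σ] (a : ℚ) (ha : a ≠ 0) :
    HF p o true (hypQ (MvPolynomial.C a : MvPolynomial σ ℚ)) := by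
  refine ⟨⟨(0 : Fin 1), fun h => ha ?_⟩, ?_⟩
  · exact MvPolynomial.C_eq_zero.1 h
  · rw [if_pos rfl]
    have ha' : ((a : ℚ) : ℚ_[p]) ≠ 0 := by exact_mod_cast ha
    refine FR_free _ _ ‖((a : ℚ) : ℚ_[p])‖ (norm_pos_iff.2 ha') fun x => ?_
    have h1 := norm_le_pi_norm (fun j => MvPolynomial.eval (fun i => inc p (x i))
      ((hypQ (MvPolynomial.C a : MvPolynomial σ ℚ)).toP p j)) (0 : Fin 1)
    refine le_trans (le_of_eq ?_) h1
    change _ = ‖MvPolynomial.eval (fun i => inc p (x i))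
      (MvPolynomial.map (algebraMap ℚ ℚ_[p]) (MvPolynomial.C a))‖
    rw [MvPolynomial.map_C, MvPolynomial.eval_C]
    rfl

theorem hf_up {A : FamQ}
    (hm : ∀ b : Polynomial ℂ, IsFunctionalEq A.toC b → (Polynomial.X + 1) ^ 2 ∣ b)
    (h : HF p false false A) : HF p false true A := by
  refine ⟨h.1, ?_⟩
  have h1 := h.2
  rw [if_neg Bool.false_ne_true] at h1
  rw [if_pos rfl]
  refine h1.mono fun T hT => enat_le fun a ha h2 => (le_mr ha).2 fun b hb => ?_
  have h3 := (le_ml ha).1 h2 b hb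
  by_cases hr : ((rr p T : ℝ) : ℂ) = -1
  · rw [hr, dl_eq, if_pos rfl]
    have h4 := hm b hb
    have e : (Polynomial.X - Polynomial.C (-1) : Polynomial ℂ) = Polynomial.X + 1 := by
      rw [Polynomial.C_neg, Polynomial.C_1, sub_neg_eq_add]
    rw [e]
    refine (pow_dvd_pow _ ?_).trans h4
    unfold cap
    rw [if_neg Bool.false_ne_true]
    omega
  · rw [dl_eq, if_neg hr, Nat.add_zero]
    refine (pow_dvd_pow _ ?_).trans h3
    unfold cap
    rw [if_neg Bool.false_ne_true, if_neg Bool.false_ne_true]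
    omega

theorem nc_root {ρ : Type} [Fintype ρ] (H : MvPolynomial ρ ℚ)
    (hH : ∀ c, H ≠ MvPolynomial.C c) : FK (hypQ H) (-1) 1 := by
  classical
  intro b hb
  rw [isB_hyp] at hb
  have hHc : ∀ c, MvPolynomial.map (algebraMap ℚ ℂ) H ≠ MvPolynomial.C c := by
    intro c hc
    refine hH (MvPolynomial.coeff 0 H) (MvPolynomial.ext _ _ fun m => ?_)
    rw [MvPolynomial.coeff_C]
    split_ifs with h1
    · rw [h1]
    · have h2 := congrArg (MvPolynomial.coeff m) hc
      rw [MvPolynomial.coeff_map, MvPolynomial.coeff_C, if_neg h1] at h2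
      exact (map_eq_zero_iff _ (algebraMap ℚ ℂ).injective).1 h2
  obtain ⟨c, hc⟩ := minus_one_root _ hHc b hb
  rw [hc, pow_one, Polynomial.C_neg, Polynomial.C_1, sub_neg_eq_add]
  exact dvd_mul_right _ _

theorem enat_add_le2 {x y z : ℕ∞} (h : ∀ a b : ℕ, (a : ℕ∞) ≤ x → (b : ℕ∞) ≤ y →
    ((a + b : ℕ) : ℕ∞) ≤ z) : x + y ≤ z := by
  rcases eq_or_ne x ⊤ with hx | hx
  · have : z = ⊤ := by
      rw [ENat.eq_top_iff_forall_ge]
      intro a
      have h1 := h a 0 (by rw [hx]; exact le_top) bot_le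
      simpa using h1
    rw [this]
    exact le_top
  · rcases eq_or_ne y ⊤ with hy | hy
    · have : z = ⊤ := by
        rw [ENat.eq_top_iff_forall_ge]
        intro a
        have h1 := h 0 a bot_le (by rw [hy]; exact le_top)
        simpa using h1
      rw [this]
      exact le_top
    · obtain ⟨a, rfl⟩ := ENat.ne_top_iff_exists.1 hx
      obtain ⟨b, rfl⟩ := ENat.ne_top_iff_exists.1 hy
      exact_mod_cast h a b le_rfl le_rfl

/-- the product of a polynomial with the reduced property and a polynomial -/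
theorem hf_mulT {o : Bool} {σ τ : Type} [Fintype σ] [Fintype τ] (F : MvPolynomial σ ℚ)
    (G : MvPolynomial τ ℚ) (hF : ∀ c, F ≠ MvPolynomial.C c) (h : HF p o true (hypQ F))
    (h' : HF p o false (hypQ G)) : HF p o true ((hypQ F).mul (hypQ G)) := by
  refine ⟨mul_ne _ _ h.1 h'.1, ?_⟩
  rw [toP_mul]
  have h1 := h.2
  have h2 := h'.2
  rw [if_pos rfl] at h1 ⊢
  rw [if_neg Bool.false_ne_true] at h2
  refine (FR.mul h1 h2 (fun T hT => enat_add_le2 fun a b ha hb => ?_)).congr fun s hs => ?_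
  swap
  · rw [FF_mulK]
  rcases Nat.eq_zero_or_pos (a + b) with h0 | h0
  · rw [h0, Nat.cast_zero]
    exact bot_le
  refine (le_mr h0).2 ?_
  have hG : FK (hypQ G) ((rr p T : ℝ) : ℂ) (cap o b) := by
    rcases Nat.eq_zero_or_pos b with hb0 | hb0
    · have : cap o b = 0 := by
        rw [hb0]
        unfold cap
        split_ifs <;> rfl
      rw [this]
      exact FK_zero _ _
    · exact (le_ml hb0).1 hb
  have hFK : FK (hypQ F) ((rr p T : ℝ) : ℂ)
      (cap o (a - dp p T) + dl ((rr p T : ℝ) : ℂ)) := by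
    rcases Nat.eq_zero_or_pos a with ha0 | ha0
    · have : cap o (a - dp p T) = 0 := by
        have : a - dp p T = 0 := by omega
        rw [this]
        unfold cap
        split_ifs <;> rfl
      rw [this, zero_add]
      by_cases hr : ((rr p T : ℝ) : ℂ) = -1
      · rw [hr, dl_eq, if_pos rfl]
        exact nc_root F hF
      · rw [dl_eq, if_neg hr]
        exact FK_zero _ _
    · exact (le_mr ha0).1 ha
  refine (FK_mul (hypQ F) (hypQ G) T hT h.1 h'.1 _ _ hFK hG).mono ?_
  unfold cap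
  split_ifs <;> omega

end Pool.Agent.K6.H42.SE
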