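import Pool.Agent.K6.H42.SE.Main

set_option autoImplicit false
set_option linter.unusedSectionVars false
set_option linter.unusedVariables false

/-! # Derived closure properties -/

namespace Pool.Agent.K6.H42.SE

open MvPolynomial Pool.Agent.Y230.PT Pool.Agent.Y230.PS Pool.Agent.Y230.TH Pool.Agent.W574.SM

section PInt

variable {p : ℕ} [Fact p.Prime] {σ τ : Type}

theorem den_of_norm (x : ℚ) (h : ‖(x : ℚ_[p])‖ ≤ 1) : ¬ p ∣ x.den := by
  intro hd
  have h1 : (x : ℚ_[p]) * ((x.den : ℤ) : ℚ_[p]) = ((x.num : ℤ) : ℚ_[p]) := by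
    have h2 : x * (x.den : ℚ) = x.num := Rat.mul_den_eq_num x
    exact_mod_cast congrArg (fun y : ℚ => (y : ℚ_[p])) h2
  have h2 : ‖((x.den : ℤ) : ℚ_[p])‖ < 1 :=
    Padic.norm_intCast_lt_one_iff.2 (by exact_mod_cast hd)
  have h3 : ‖((x.num : ℤ) : ℚ_[p])‖ < 1 := by
    rw [← h1, norm_mul]
    nlinarith [norm_nonneg (x : ℚ_[p]), norm_nonneg ((x.den : ℤ) : ℚ_[p])]
  have h4 : (p : ℤ) ∣ x.num := Padic.norm_intCast_lt_one_iff.1 h3
  have h5 : p ∣ x.num.natAbs := Int.natCast_dvd.1 h4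
  exact Nat.not_coprime_of_dvd_of_dvd (Fact.out : p.Prime).one_lt h5 hd x.reduced

theorem pInt_iff (q : MvPolynomial σ ℚ) : PInt p q ↔ ∃ r : MvPolynomial σ ℤ_[p],
    map PadicInt.Coe.ringHom r = map (algebraMap ℚ ℚ_[p]) q := by
  constructor
  · intro hq
    have h := (MvPolynomial.mem_range_map_iff_coeffs_subset (f := PadicInt.Coe.ringHom (p := p))
      (x := map (algebraMap ℚ ℚ_[p]) q)).2 ?_
    · obtain ⟨r, hr⟩ := h
      exact ⟨r, hr⟩
    · intro a ha
      rw [Finset.mem_coe, MvPolynomial.mem_coeffs_iff] at ha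
      obtain ⟨m, -, rfl⟩ := ha
      rw [coeff_map]
      exact ⟨⟨((coeff m q : ℚ) : ℚ_[p]), Padic.norm_rat_le_one (hq m)⟩, rfl⟩
  rintro ⟨r, hr⟩ m
  have h1 := congrArg (coeff m) hr
  rw [coeff_map, coeff_map] at h1
  have h2 : ‖((coeff m q : ℚ) : ℚ_[p])‖ ≤ 1 := by
    have h3 : ((coeff m q : ℚ) : ℚ_[p]) = algebraMap ℚ ℚ_[p] (coeff m q) := rfl
    rw [h3, ← h1]
    exact (coeff m r).2
  exact den_of_norm _ h2

theorem PInt.add {q r : MvPolynomial σ ℚ} (hq : PInt p q) (hr : PInt p r) : PInt p (q + r) := by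
  rw [pInt_iff] at *
  obtain ⟨q', h⟩ := hq
  obtain ⟨r', h'⟩ := hr
  exact ⟨q' + r', by rw [map_add, map_add, h, h']⟩

theorem PInt.neg {q : MvPolynomial σ ℚ} (hq : PInt p q) : PInt p (-q) := by
  rw [pInt_iff] at *
  obtain ⟨q', h⟩ := hq
  exact ⟨-q', by rw [map_neg, map_neg, h]⟩

theorem PInt.mul {q r : MvPolynomial σ ℚ} (hq : PInt p q) (hr : PInt p r) : PInt p (q * r) := by
  rw [pInt_iff] at *
  obtain ⟨q', h⟩ := hq
  obtain ⟨r', h'⟩ := hr
  exact ⟨q' * r', by rw [map_mul, map_mul, h, h']⟩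

theorem PInt.X (i : σ) : PInt p (X i : MvPolynomial σ ℚ) := by
  rw [pInt_iff]
  exact ⟨MvPolynomial.X i, by rw [map_X, map_X]⟩

theorem PInt.zero : PInt p (0 : MvPolynomial σ ℚ) := by
  rw [pInt_iff]
  exact ⟨0, by rw [map_zero, map_zero]⟩

theorem PInt.rename {q : MvPolynomial σ ℚ} (i : σ → τ) (hq : PInt p q) :
    PInt p (MvPolynomial.rename i q) := by
  rw [pInt_iff] at *
  obtain ⟨q', h⟩ := hq
  exact ⟨MvPolynomial.rename i q', by rw [map_rename, h, map_rename]⟩

theorem PInt.sum {I : Type} (S : Finset I) (q : I → MvPolynomial σ ℚ)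
    (h : ∀ i ∈ S, PInt p (q i)) : PInt p (∑ i ∈ S, q i) := by
  classical
  induction S using Finset.induction_on with
  | empty => simpa using PInt.zero
  | insert a S ha ih =>
    rw [Finset.sum_insert ha]
    exact (h a (Finset.mem_insert_self _ _)).add
      (ih fun i hi => h i (Finset.mem_insert_of_mem hi))

end PInt

theorem aeval_inr {S R : Type} (a : S → MvPolynomial (S ⊕ R) ℚ) (h : MvPolynomial R ℚ) :
    aeval ((Sum.elim a (fun r => X (Sum.inr r)) : S ⊕ R → MvPolynomial (S ⊕ R) ℚ) ∘ Sum.inr) h =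
      rename Sum.inr h := by
  have e : (aeval ((Sum.elim a (fun r => X (Sum.inr r)) :
      S ⊕ R → MvPolynomial (S ⊕ R) ℚ) ∘ Sum.inr) : MvPolynomial R ℚ →ₐ[ℚ]
        MvPolynomial (S ⊕ R) ℚ) = rename Sum.inr := by
    apply algHom_ext
    intro i
    rw [aeval_X, rename_X, Function.comp_apply, Sum.elim_inr]
  rw [e]

/-- `y_s ↦ y_s + q_s(x)` -/
noncomputable def shiftQ {S R : Type} (q : S → MvPolynomial R ℚ) :
    MvPolynomial (S ⊕ R) ℚ ≃ₐ[ℚ] MvPolynomial (S ⊕ R) ℚ :=
  AlgEquiv.ofAlgHom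
    (aeval (Sum.elim (fun s => X (Sum.inl s) + rename Sum.inr (q s)) fun r => X (Sum.inr r)))
    (aeval (Sum.elim (fun s => X (Sum.inl s) - rename Sum.inr (q s)) fun r => X (Sum.inr r)))
    (by
      apply algHom_ext
      intro i
      rcases i with s | r
      · rw [AlgHom.comp_apply, aeval_X, Sum.elim_inl, map_sub, aeval_X, Sum.elim_inl,
          aeval_rename, AlgHom.id_apply, aeval_inr]
        ring
      · rw [AlgHom.comp_apply, aeval_X, Sum.elim_inr, aeval_X, Sum.elim_inr, AlgHom.id_apply])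
    (by
      apply algHom_ext
      intro i
      rcases i with s | r
      · rw [AlgHom.comp_apply, aeval_X, Sum.elim_inl, map_add, aeval_X, Sum.elim_inl,
          aeval_rename, AlgHom.id_apply, aeval_inr]
        ring
      · rw [AlgHom.comp_apply, aeval_X, Sum.elim_inr, aeval_X, Sum.elim_inr, AlgHom.id_apply])

theorem shiftQ_inl {S R : Type} (q : S → MvPolynomial R ℚ) (s : S) :
    shiftQ q (X (Sum.inl s)) = X (Sum.inl s) + rename Sum.inr (q s) :=
  (aeval_X _ _).trans rfl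

theorem shiftQ_inr {S R : Type} (q : S → MvPolynomial R ℚ) (r : R) :
    shiftQ q (X (Sum.inr r)) = X (Sum.inr r) :=
  (aeval_X _ _).trans rfl

theorem shiftQ_rename {S R : Type} (q : S → MvPolynomial R ℚ) (h : MvPolynomial R ℚ) :
    shiftQ q (rename Sum.inr h) = rename Sum.inr h := by
  have e : (shiftQ q : MvPolynomial (S ⊕ R) ℚ →ₐ[ℚ] MvPolynomial (S ⊕ R) ℚ).comp
      (rename Sum.inr) = rename Sum.inr := by
    apply algHom_ext
    intro i
    rw [AlgHom.comp_apply, rename_X]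
    exact shiftQ_inr q i
  exact DFunLike.congr_fun e h

theorem shiftQ_symm_inl {S R : Type} (q : S → MvPolynomial R ℚ) (s : S) :
    (shiftQ q).symm (X (Sum.inl s)) = X (Sum.inl s) - rename Sum.inr (q s) :=
  (aeval_X _ _).trans rfl

theorem shiftQ_symm_inr {S R : Type} (q : S → MvPolynomial R ℚ) (r : R) :
    (shiftQ q).symm (X (Sum.inr r)) = X (Sum.inr r) :=
  (aeval_X _ _).trans rfl

theorem shiftQ_pint {p : ℕ} [Fact p.Prime] {S R : Type} (q : S → MvPolynomial R ℚ)
    (hq : ∀ s, PInt p (q s)) : (∀ i, PInt p (shiftQ q (X i))) ∧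
      ∀ i, PInt p ((shiftQ q).symm (X i)) := by
  constructor
  · rintro (s | r)
    · rw [shiftQ_inl]
      exact (PInt.X _).add ((hq s).rename _)
    · rw [shiftQ_inr]
      exact PInt.X _
  · rintro (s | r)
    · rw [shiftQ_symm_inl, sub_eq_add_neg]
      exact (PInt.X _).add ((hq s).rename _).neg
    · rw [shiftQ_symm_inr]
      exact PInt.X _

section rules

variable {N : Set ℕ} {o : Bool} {B : Bool → FamQ → Prop}

/-- renaming the variables of a polynomial -/
theorem Cls.ren {c : Bool} {σ τ : Type} [Fintype σ] [Fintype τ] (i : σ ≃ τ) (g : MvPolynomial σ ℚ)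
    (h : Cls N o B c (hypQ g)) : Cls N o B c (hypQ (rename i g)) :=
  Cls.equiv c (hypQ g) (hypQ (rename i g)) i (Equiv.refl _) (fun _ => rfl) h

/-- unused variables may be added -/
theorem Cls.extend {σ κ : Type} [Fintype σ] [Fintype κ] (g : MvPolynomial σ ℚ)
    (h : Cls N o B true (hypQ g)) :
    Cls N o B true (hypQ (rename Sum.inl g : MvPolynomial (σ ⊕ κ) ℚ)) := by
  refine Cls.equiv true ((hypQ g).mul (hypQ (C 1 : MvPolynomial κ ℚ)))
    (hypQ (rename Sum.inl g : MvPolynomial (σ ⊕ κ) ℚ)) (Equiv.refl _)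
    (Equiv.prodUnique (Fin 1) (Fin 1)) (fun j => ?_)
    (Cls.mul true _ _ h (Cls.const κ 1 one_ne_zero))
  change rename Sum.inl g = rename (Equiv.refl (σ ⊕ κ)) (rename Sum.inl g *
    rename Sum.inr (C 1 : MvPolynomial κ ℚ))
  rw [Equiv.coe_refl, rename_id_apply, C_1, map_one, mul_one]

/-- the image of a family under the shift, and its inverse -/
theorem Cls.shift {c : Bool} {S R ι : Type} [Fintype S] [Fintype R] [Fintype ι]
    (f : ι → MvPolynomial (S ⊕ R) ℚ) (q : S → MvPolynomial R ℚ) (hN : ∀ p ∈ N, p.Prime)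
    (hq : ∀ p ∈ N, ∀ s, PInt p (q s)) :
    Cls N o B c ⟨S ⊕ R, ι, f⟩ ↔ Cls N o B c ⟨S ⊕ R, ι, fun j => shiftQ q (f j)⟩ := by
  have h1 : ∀ p ∈ N, (∀ i, PInt p (shiftQ q (X i))) ∧ ∀ i, PInt p ((shiftQ q).symm (X i)) := by
    intro p hp
    have : Fact p.Prime := ⟨hN p hp⟩
    exact shiftQ_pint q (hq p hp)
  constructor
  · intro h
    exact Cls.auto c (S ⊕ R) ι f (shiftQ q) (fun p hp => (h1 p hp).1) (fun p hp => (h1 p hp).2) h
  · intro h
    have h2 := Cls.auto c (S ⊕ R) ι _ (shiftQ q).symm (fun p hp => (h1 p hp).2)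
      (fun p hp => by rw [AlgEquiv.symm_symm]; exact (h1 p hp).1) h
    simpa only [AlgEquiv.symm_apply_apply] using h2

/-- **Changes of the generators.** The class of an ideal does not depend on its generators, for
`p`-integral changes. -/
theorem Cls.gens {σ ι κ : Type} [Fintype σ] [Fintype ι] [Fintype κ] (f : ι → MvPolynomial σ ℚ)
    (g : κ → MvPolynomial σ ℚ) (P : κ → ι → MvPolynomial σ ℚ) (Q : ι → κ → MvPolynomial σ ℚ)
    (hN : ∀ p ∈ N, p.Prime) (hP : ∀ p ∈ N, ∀ k j, PInt p (P k j))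
    (hQ : ∀ p ∈ N, ∀ j k, PInt p (Q j k)) (hg : ∀ k, g k = ∑ j, P k j * f j)
    (hf : ∀ j, f j = ∑ k, Q j k * g k) (h : Cls N o B false ⟨σ, ι, f⟩) :
    Cls N o B false ⟨σ, κ, g⟩ := by
  apply Cls.ofUniv
  -- the polynomial `∑ y_j f_j`, with unused variables `z_k`
  have h1 := Cls.extend (κ := κ) _ (Cls.univ _ h)
  have h2 := Cls.ren (Equiv.sumAssoc ι σ κ) _ h1
  have e1 : rename (Equiv.sumAssoc ι σ κ) (rename Sum.inl
      (∑ j, X (Sum.inl j) * rename Sum.inr (f j) : MvPolynomial (ι ⊕ σ) ℚ)) =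
      (∑ j, X (Sum.inl j) * rename Sum.inr (rename Sum.inl (f j)) :
        MvPolynomial (ι ⊕ (σ ⊕ κ)) ℚ) := by
    rw [map_sum, map_sum]
    refine Finset.sum_congr rfl fun j _ => ?_
    rw [map_mul, map_mul, rename_X, rename_X, rename_rename, rename_rename, rename_rename]
    rfl
  have h2' : Cls N o B true (hypQ (∑ j, X (Sum.inl j) * rename Sum.inr (rename Sum.inl (f j)) :
        MvPolynomial (ι ⊕ (σ ⊕ κ)) ℚ)) := by
    rw [← e1]
    exact h2
  -- the shift
  set q : ι → MvPolynomial (σ ⊕ κ) ℚ := fun j => ∑ k, X (Sum.inr k) * rename Sum.inl (P k j)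
    with hqd
  have h3 := (Cls.shift (fun _ : Fin 1 => (∑ j, X (Sum.inl j) * rename Sum.inr
    (rename Sum.inl (f j)) : MvPolynomial (ι ⊕ (σ ⊕ κ)) ℚ)) q hN (fun p hp j => by
      have : Fact p.Prime := ⟨hN p hp⟩
      exact PInt.sum _ _ fun k _ => (PInt.X _).mul ((hP p hp k j).rename _))).1 h2'
  have e2 : shiftQ q (∑ j, X (Sum.inl j) * rename Sum.inr (rename Sum.inl (f j)) :
      MvPolynomial (ι ⊕ (σ ⊕ κ)) ℚ) = ∑ j, X (Sum.inl j) * rename Sum.inr (rename Sum.inl (f j)) +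
        ∑ k, X (Sum.inr (Sum.inr k)) * rename Sum.inr (rename Sum.inl (g k)) := by
    rw [map_sum]
    simp only [map_mul, shiftQ_inl, shiftQ_rename, add_mul]
    rw [Finset.sum_add_distrib]
    congr 1
    simp only [hqd, map_sum, map_mul, rename_X, hg, Finset.sum_mul, Finset.mul_sum]
    rw [Finset.sum_comm]
    refine Finset.sum_congr rfl fun k _ => Finset.sum_congr rfl fun j _ => ?_
    ring
  have h3' : Cls N o B true (hypQ (∑ j, X (Sum.inl j) * rename Sum.inr (rename Sum.inl (f j)) +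
        ∑ k, X (Sum.inr (Sum.inr k)) * rename Sum.inr (rename Sum.inl (g k)) :
          MvPolynomial (ι ⊕ (σ ⊕ κ)) ℚ)) := by
    rw [← e2]
    exact h3
  -- the same for `g`
  set i : ι ⊕ (σ ⊕ κ) ≃ κ ⊕ (σ ⊕ ι) :=
    { toFun := Sum.elim (fun j => Sum.inr (Sum.inr j)) (Sum.elim (fun s => Sum.inr (Sum.inl s))
        fun k => Sum.inl k)
      invFun := Sum.elim (fun k => Sum.inr (Sum.inr k)) (Sum.elim (fun s => Sum.inr (Sum.inl s))
        fun j => Sum.inl j)
      left_inv := by rintro (j | s | k) <;> rfl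
      right_inv := by rintro (k | s | j) <;> rfl } with hi
  have h4 := Cls.ren i _ h3'
  set q' : κ → MvPolynomial (σ ⊕ ι) ℚ := fun k => ∑ j, X (Sum.inr j) * rename Sum.inl (Q j k)
    with hqd'
  have e3 : rename i (∑ j, X (Sum.inl j) * rename Sum.inr (rename Sum.inl (f j)) +
        ∑ k, X (Sum.inr (Sum.inr k)) * rename Sum.inr (rename Sum.inl (g k)) :
          MvPolynomial (ι ⊕ (σ ⊕ κ)) ℚ) = shiftQ q' (∑ k, X (Sum.inl k) * rename Sum.inr
            (rename Sum.inl (g k)) : MvPolynomial (κ ⊕ (σ ⊕ ι)) ℚ) := by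
    rw [map_sum]
    simp only [map_mul, shiftQ_inl, shiftQ_rename, add_mul]
    rw [Finset.sum_add_distrib, map_add, add_comm, map_sum, map_sum]
    congr 1
    · refine Finset.sum_congr rfl fun k _ => ?_
      rw [map_mul, rename_X, rename_rename, rename_rename, rename_rename]
      rfl
    · simp only [hqd', map_sum, map_mul, rename_X, Finset.sum_mul]
      rw [Finset.sum_comm]
      refine Finset.sum_congr rfl fun j _ => ?_
      rw [hf j]
      simp only [map_sum, map_mul, Finset.mul_sum]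
      refine Finset.sum_congr rfl fun k _ => ?_
      simp only [rename_rename]
      rw [mul_assoc]
      rfl
  have h4' : Cls N o B true ⟨κ ⊕ (σ ⊕ ι), Fin 1, fun _ => shiftQ q'
      (∑ k, X (Sum.inl k) * rename Sum.inr (rename Sum.inl (g k)) :
        MvPolynomial (κ ⊕ (σ ⊕ ι)) ℚ)⟩ := by
    have h5 : Cls N o B true (hypQ (shiftQ q' (∑ k, X (Sum.inl k) * rename Sum.inr
            (rename Sum.inl (g k)) : MvPolynomial (κ ⊕ (σ ⊕ ι)) ℚ))) := by
      rw [← e3]
      exact h4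
    exact h5
  have h5 := (Cls.shift (fun _ : Fin 1 => (∑ k, X (Sum.inl k) * rename Sum.inr
    (rename Sum.inl (g k)) : MvPolynomial (κ ⊕ (σ ⊕ ι)) ℚ)) q' hN (fun p hp k => by
      have : Fact p.Prime := ⟨hN p hp⟩
      exact PInt.sum _ _ fun j _ => (PInt.X _).mul ((hQ p hp j k).rename _))).2 h4'
  -- drop the variables `y_j`
  have h6 := Cls.ren (Equiv.sumAssoc κ σ ι).symm _ h5
  refine Cls.drop (κ ⊕ σ) ι _ ?_
  convert h6 using 2
  rw [map_sum, map_sum]
  refine Finset.sum_congr rfl fun k _ => ?_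
  rw [map_mul, map_mul, rename_X, rename_X, rename_rename, rename_rename, rename_rename]
  rfl

/-- the polynomial `∑ y_j f_j` is not constant -/
theorem univ_nc (A : FamQ) (hA : ∃ j, A.f j ≠ 0) (c : ℚ) :
    (∑ j, X (Sum.inl j) * rename Sum.inr (A.f j) : MvPolynomial (A.ι ⊕ A.σ) ℚ) ≠ C c := by
  classical
  intro h
  obtain ⟨j, hj⟩ := hA
  -- substitute `y_j = t`, `y_i = 0` for `i ≠ j`
  have key : ∀ t : ℚ, C t * A.f j = C c := by
    intro t
    have h1 := congrArg (aeval (Sum.elim (fun i => if i = j then C t else 0) X :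
      A.ι ⊕ A.σ → MvPolynomial A.σ ℚ)) h
    rw [map_sum, Finset.sum_eq_single j] at h1
    · rw [map_mul, aeval_X, Sum.elim_inl, if_pos rfl, aeval_rename, algHom_C,
        algebraMap_eq] at h1
      have h2 : aeval ((Sum.elim (fun i => if i = j then C t else 0) X :
          A.ι ⊕ A.σ → MvPolynomial A.σ ℚ) ∘ Sum.inr) (A.f j) = A.f j := by
        rw [Sum.elim_comp_inr]
        exact DFunLike.congr_fun (aeval_X_left (R := ℚ) (σ := A.σ)) (A.f j)
      rw [h2] at h1
      exact h1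
    · intro i _ hi
      rw [map_mul, aeval_X, Sum.elim_inl, if_neg hi, zero_mul]
    · intro h3
      exact absurd (Finset.mem_univ _) h3
  have h0 := key 0
  have h1 := key 1
  rw [C_0, zero_mul] at h0
  rw [← h0, C_1, one_mul] at h1
  exact hj h1

/-- **Independence of the embedding.** The ideals `I` and `I + (z_1, ..., z_k)`, where `z_i` are new
variables. -/
theorem Cls.unsum {A : FamQ} (hA : ∃ j, A.f j ≠ 0) {κ : Type} [Fintype κ] [Nonempty κ]
    (h : Cls N o B false (A.sum (coordQ κ))) : Cls N o B false A := by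
  apply Cls.ofUniv
  refine Cls.unstab (A.ι ⊕ A.σ) κ _ (univ_nc A hA) ?_
  have h1 := Cls.univ _ h
  refine Cls.equiv false (A.sum (coordQ κ)).univ _
    { toFun := Sum.elim (Sum.elim (fun j => Sum.inr (Sum.inl j)) fun k => Sum.inl (Sum.inl k))
        (Sum.elim (fun s => Sum.inr (Sum.inr s)) fun k => Sum.inl (Sum.inr k))
      invFun := Sum.elim (Sum.elim (fun k => Sum.inl (Sum.inr k)) fun k => Sum.inr (Sum.inr k))
        (Sum.elim (fun j => Sum.inl (Sum.inl j)) fun s => Sum.inr (Sum.inl s))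
      left_inv := by rintro ((j | k) | (s | k)) <;> rfl
      right_inv := by rintro ((k | k) | (j | s)) <;> rfl } (Equiv.refl _) (fun _ => ?_)
    (Cls.hyp _ h1)
  change rename Sum.inl (∑ k, X (Sum.inl k) * rename Sum.inr (X k) : MvPolynomial (κ ⊕ κ) ℚ) +
    rename Sum.inr (∑ j, X (Sum.inl j) * rename Sum.inr (A.f j) : MvPolynomial (A.ι ⊕ A.σ) ℚ) =
    rename _ (∑ j : A.ι ⊕ κ, X (Sum.inl j) * rename Sum.inr (Sum.elim (fun j => rename Sum.inl (A.f j))
      (fun k => rename Sum.inr (X k)) j) : MvPolynomial ((A.ι ⊕ κ) ⊕ (A.σ ⊕ κ)) ℚ)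
  rw [Fintype.sum_sum_type, map_add, map_sum, map_sum, map_sum, map_sum, add_comm]
  congr 1
  · refine Finset.sum_congr rfl fun j _ => ?_
    rw [map_mul, map_mul, rename_X, rename_X, rename_rename, Sum.elim_inl, rename_rename,
      rename_rename]
    rfl
  · refine Finset.sum_congr rfl fun k _ => ?_
    rw [map_mul, map_mul, rename_X, rename_X, rename_X, rename_X, Sum.elim_inr, rename_X,
      rename_X, rename_X]
    rfl

theorem Cls.stab {τ : Type} [Fintype τ] (g : MvPolynomial τ ℚ) {κ : Type} [Fintype κ]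
    [Nonempty κ] (h : Cls N o B true (hypQ g)) : Cls N o B false (tsum (coordQ κ) τ g) :=
  Cls.hyp _ (Cls.ts _ _ _ (Cls.coord κ) h)

/-- **Products of polynomials.** In the version without orders, the product `F(x) G(y)` of nonconstant
polynomials is in the second class if the ideals `(F)` and `(G)` are in the first class. -/
theorem Cls.mulUp (ho : o = false) {σ τ : Type} [Fintype σ] [Fintype τ] (F : MvPolynomial σ ℚ)
    (G : MvPolynomial τ ℚ) (hF : ∀ c, F ≠ C c) (hG : ∀ c, G ≠ C c)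
    (h1 : Cls N o B false (hypQ F)) (h2 : Cls N o B false (hypQ G)) :
    Cls N o B true ((hypQ F).mul (hypQ G)) := by
  classical
  refine Cls.up ho _ (fun b hb => ?_) (Cls.mul false _ _ h1 h2)
  have hp : Fact (Nat.Prime 2) := ⟨Nat.prime_two⟩
  have hr : ((rr 2 ((2 : ℕ) : ℂ) : ℝ) : ℂ) = -1 := by
    rw [rr_self]
    push_cast
    rfl
  have hn : 1 < ‖((2 : ℕ) : ℂ)‖ := one_lt_norm_p
  have key : ∀ {ρ : Type} [Fintype ρ] (H : MvPolynomial ρ ℚ), (∀ c, H ≠ C c) →
      FK (hypQ H) (-1) 1 := by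
    intro ρ _ H hH b hb
    rw [isB_hyp] at hb
    have hHc : ∀ c, map (algebraMap ℚ ℂ) H ≠ C c := by
      intro c hc
      refine hH (coeff 0 H) (MvPolynomial.ext _ _ fun m => ?_)
      rw [coeff_C]
      split_ifs with h1
      · rw [h1]
      · have h2 := congrArg (coeff m) hc
        rw [coeff_map, coeff_C, if_neg h1] at h2
        exact (map_eq_zero_iff _ (algebraMap ℚ ℂ).injective).1 h2
    obtain ⟨c, hc⟩ := minus_one_root _ hHc b hb
    rw [hc, pow_one, Polynomial.C_neg, Polynomial.C_1, sub_neg_eq_add]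
    exact dvd_mul_right _ _
  have h3 := FK_mul (hypQ F) (hypQ G) ((2 : ℕ) : ℂ) hn
    ⟨(0 : Fin 1), fun h => hF 0 (by rw [C_0]; exact h)⟩
    ⟨(0 : Fin 1), fun h => hG 0 (by rw [C_0]; exact h)⟩ 1 1
    (by rw [hr]; exact key F hF) (by rw [hr]; exact key G hG) b hb
  rw [hr, Polynomial.C_neg, Polynomial.C_1, sub_neg_eq_add] at h3
  exact h3

end rules

end Pool.Agent.K6.H42.SE
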